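import Pool.Agent.D0H43.L3.Chi
import Pool.Agent.Y350.CT.REC
import Pool.Agent.Y692.QS.Rec

/-!
# Project L3: the supplementary law of cubic reciprocity: the symbol of `3`
-/

set_option autoImplicit false
set_option linter.unusedSectionVars false

namespace Pool.Agent.D0H43.L3.Supp

open Pool.Agent.Y692.QS
open Pool.Agent.Y715.T.Rec (cs nn nr_of_assoc w_pow_ex)
open Pool.Agent.Y715.T.RecG (Pq cs_spec cs_of cs_congr cs_mul cs_one cs_neg cs_comm cs_neg_one)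
open Pool.Agent.Y715.T.RecC (unit_form exists_prim star_prime star_dvd)
open Pool.Agent.Y350.CT (pq_star cs_star unit_one eq_of_dvd rec)
open Pool.Agent.N883.FF (nq)
open Pool.Agent.N883.FF.Chi (nq_mul)
open Pool.Agent.D0H43.L3.Chi
open scoped Classical

lemma w_unit : IsUnit w := by
  rw [isUnit_iff]
  decide

lemma cs_w {ρ : Ei} (h : Pq ρ) : cs ρ w = nq ρ := by
  refine cs_of h.prime h.norm ?_
  have h1 : 0 ≤ nr ρ := nr_nonneg ρ
  have h2 : nr ρ ≠ 0 := fun h' => h.prime.ne_zero (nr_zero_iff.1 h')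
  have h3 : ((nn ρ : ℕ) : ℤ) = (nr ρ - 1) / 3 := by
    unfold nn
    omega
  have h4 : ((nn ρ : ℕ) : ZMod 3) = nq ρ := by
    unfold nq
    rw [← h3]
    push_cast
    rfl
  have h5 : w ^ nn ρ = w ^ (nq ρ).val := by
    rw [← h4, ZMod.val_natCast]
    conv_lhs => rw [← Nat.div_add_mod (nn ρ) 3, pow_add, pow_mul, w_cube, one_pow, one_mul]
  rw [h5, sub_self]
  exact dvd_zero _

/-- factorization into primary primes -/
lemma fac (α : Ei) (h0 : α ≠ 0) (hα : ∀ ρ : Ei, Prime ρ → ρ ∣ α → ¬ ρ ∣ 3) :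
    ∀ u : Ei, IsUnit u → (3 : Ei) ∣ u * α - 1 →
      ∃ M : Multiset Ei, (∀ ρ ∈ M, Pq ρ) ∧ M.prod = u * α := by
  induction α using UniqueFactorizationMonoid.induction_on_prime with
  | h₁ => exact absurd rfl h0
  | h₂ v hv =>
    intro u hu h3
    refine ⟨0, by simp, ?_⟩
    rw [unit_one (hu.mul hv) h3, Multiset.prod_zero]
  | h₃ β ρ hβ hρ ih =>
    intro u0 hu0 h03
    have h3 := hα ρ hρ (dvd_mul_right _ _)
    obtain ⟨u, hu, hu3⟩ := exists_prim hρ h3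
    obtain ⟨v, hv⟩ := hu.exists_right_inv
    have hvu : IsUnit v := IsUnit.of_mul_eq_one u (by rw [mul_comm]; exact hv)
    have hsplit : u0 * (ρ * β) = (u * ρ) * ((u0 * v) * β) := by
      linear_combination (-(u0 * ρ * β)) * hv
    have h3β : (3 : Ei) ∣ (u0 * v) * β - 1 := by
      have e : (u0 * v) * β - 1 = (u0 * (ρ * β) - 1) - (u * ρ - 1) * ((u0 * v) * β) := by
        rw [hsplit]; ring
      rw [e]
      exact dvd_sub h03 (Dvd.dvd.mul_right hu3 _)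
    obtain ⟨M, hM, hMp⟩ := ih hβ (fun r hr hd => hα r hr (Dvd.dvd.mul_left hd _)) (u0 * v)
      (hu0.mul hvu) h3β
    have hup : Prime (u * ρ) := by
      obtain ⟨v', rfl⟩ := hu
      exact (Associated.prime_iff ⟨v', mul_comm _ _⟩).1 hρ
    refine ⟨(u * ρ) ::ₘ M, ?_, ?_⟩
    · intro r hr
      rcases Multiset.mem_cons.1 hr with rfl | hr
      · exact ⟨hup, hu3⟩
      · exact hM r hr
    · rw [Multiset.prod_cons, hMp, hsplit]

/-- uniqueness of the factorization -/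
lemma uniq {M M' : Multiset Ei} (h : ∀ ρ ∈ M, Pq ρ) (h' : ∀ ρ ∈ M', Pq ρ)
    (he : M.prod = M'.prod) : M = M' := by
  have h1 := prime_factors_unique (fun ρ hρ => (h ρ hρ).prime) (fun ρ hρ => (h' ρ hρ).prime)
    (Associated.of_eq he)
  have h2 : Multiset.Rel Eq M M' := by
    refine h1.mono fun a ha b hb hab => ?_
    exact eq_of_dvd (h' b hb) (h a ha) hab.dvd
  exact Multiset.rel_eq.1 h2

/-- the symbol modulo a product of primary primes -/
noncomputable def cM (M : Multiset Ei) (x : Ei) : ZMod 3 := (M.map fun ρ => cs ρ x).sum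

lemma cM_mul {M : Multiset Ei} (h : ∀ ρ ∈ M, Pq ρ) {x y : Ei} (hx : ∀ ρ ∈ M, ¬ ρ ∣ x)
    (hy : ∀ ρ ∈ M, ¬ ρ ∣ y) : cM M (x * y) = cM M x + cM M y := by
  unfold cM
  rw [← Multiset.sum_map_add]
  congr 1
  exact Multiset.map_congr rfl fun ρ hρ => cs_mul (h ρ hρ).prime (h ρ hρ).norm (hx ρ hρ) (hy ρ hρ)

lemma cM_congr {M : Multiset Ei} (h : ∀ ρ ∈ M, Pq ρ) {x y : Ei} (hx : ∀ ρ ∈ M, ¬ ρ ∣ x)
    (hxy : M.prod ∣ x - y) : cM M x = cM M y := by
  unfold cM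
  congr 1
  exact Multiset.map_congr rfl fun ρ hρ => cs_congr (h ρ hρ).prime (h ρ hρ).norm (hx ρ hρ)
    ((Multiset.dvd_prod hρ).trans hxy)

lemma cop_prim {x : Ei} (h : (3 : Ei) ∣ x - 1) : IsCoprime x 3 := by
  obtain ⟨c, hc⟩ := h
  exact ⟨1, -c, by linear_combination hc⟩

lemma cM_w {M : Multiset Ei} (h : ∀ ρ ∈ M, Pq ρ) : cM M w = nq M.prod ∧ (3 : Ei) ∣ M.prod - 1 := by
  induction M using Multiset.induction_on with
  | empty =>
    refine ⟨?_, by simp⟩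
    rw [Multiset.prod_zero, Pool.Agent.N883.FF.Chi.nq_unit isUnit_one]
    rfl
  | cons ρ M ih =>
    have h1 := h ρ (Multiset.mem_cons_self _ _)
    obtain ⟨h2, h3⟩ := ih fun r hr => h r (Multiset.mem_cons_of_mem hr)
    rw [Multiset.prod_cons, nq_mul (cop_prim h1.three) (cop_prim h3)]
    refine ⟨?_, ?_⟩
    · rw [← h2, ← cs_w h1]
      unfold cM
      rw [Multiset.map_cons, Multiset.sum_cons]
    · have e : ρ * M.prod - 1 = (ρ - 1) * M.prod + (M.prod - 1) := by ring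
      rw [e]
      exact dvd_add (Dvd.dvd.mul_right h1.three _) h3

/-- the rational numbers -/
lemma cM_rat {M : Multiset Ei} (h : ∀ ρ ∈ M, Pq ρ) (hM : star M.prod = M.prod) {x : Ei}
    (hx : star x = x) (hd : ∀ ρ ∈ M, ¬ ρ ∣ x) : cM M x = 0 := by
  have h1 : M.map star = M := by
    refine uniq ?_ h ?_
    · intro ρ hρ
      obtain ⟨r, hr, rfl⟩ := Multiset.mem_map.1 hρ
      exact pq_star (h r hr)
    · have h2 : (M.map star).prod = star M.prod :=
        Multiset.prod_hom M (starRingEnd Ei)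
      rw [h2, hM]
  have h2 : cM M x = -cM M x := by
    conv_lhs => rw [← h1]
    unfold cM
    rw [Multiset.map_map, ← Multiset.sum_map_neg]
    congr 1
    refine Multiset.map_congr rfl fun ρ hρ => ?_
    show cs (star ρ) x = -cs ρ x
    rw [← cs_star (h ρ hρ) (hd ρ hρ), hx]
  generalize cM M x = c at h2
  revert h2 c
  decide

/-- reciprocity -/
lemma cM_rec {M : Multiset Ei} (h : ∀ ρ ∈ M, Pq ρ) {π : Ei} (hπ : Pq π)
    (hd : ∀ ρ ∈ M, ¬ ρ ∣ π) : cM M π = cs π M.prod := by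
  induction M using Multiset.induction_on with
  | empty =>
    rw [Multiset.prod_zero, cs_one hπ.prime hπ.norm]
    rfl
  | cons ρ M ih =>
    have h1 := h ρ (Multiset.mem_cons_self _ _)
    have hn : ∀ r : Ei, Pq r → ¬ r ∣ π → ¬ π ∣ r := fun r hr h2 h3 => by
      have := eq_of_dvd hr hπ h3
      exact h2 (this ▸ dvd_refl _)
    have hsub : ∀ r ∈ M, Pq r := fun r hr => h r (Multiset.mem_cons_of_mem hr)
    have hdub : ∀ r ∈ M, ¬ r ∣ π := fun r hr => hd r (Multiset.mem_cons_of_mem hr)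
    have h2 : ¬ π ∣ M.prod := by
      intro h3
      obtain ⟨r, hr, hr'⟩ := Prime.exists_mem_multiset_dvd hπ.prime h3
      exact hn r (hsub r hr) (hdub r hr) hr'
    rw [Multiset.prod_cons, cs_mul hπ.prime hπ.norm (hn ρ h1 (hd ρ (Multiset.mem_cons_self _ _))) h2,
      ← ih hsub hdub]
    unfold cM
    rw [Multiset.map_cons, Multiset.sum_cons]
    congr 1
    exact rec π ρ hπ h1 (hd ρ (Multiset.mem_cons_self _ _)) ▸ rfl

lemma ei_eq (z : Ei) : z = (z.re : Ei) + (z.im : Ei) * w := by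
  ext
  · rw [QuadraticAlgebra.re_add, mul_re]
    simp [w]
  · rw [QuadraticAlgebra.im_add, mul_im]
    simp [w]

lemma star_int (n : ℤ) : star (n : Ei) = (n : Ei) := map_intCast (starRingEnd Ei) n

/-- coprimality of the coordinates -/
lemma cop_coord {π : Ei} (h : Pq π) {a b : ℤ} (ha : π.re = 1 + 3 * a) (hb : π.im = 3 * b)
    (hb0 : b ≠ 0) : IsCoprime (1 + 3 * a) (3 * b) := by
  rw [Int.isCoprime_iff_gcd_eq_one]
  by_contra hg
  obtain ⟨p, hp, hpg⟩ := Nat.exists_prime_and_dvd hg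
  have h1 : (p : ℤ) ∣ 1 + 3 * a := (Int.natCast_dvd_natCast.2 hpg).trans (Int.gcd_dvd_left _ _)
  have h2 : (p : ℤ) ∣ 3 * b := (Int.natCast_dvd_natCast.2 hpg).trans (Int.gcd_dvd_right _ _)
  have h3 : ((p : ℤ) : Ei) ∣ π := by
    rw [int_dvd, ha, hb]
    exact ⟨h1, h2⟩
  obtain ⟨t, ht⟩ := h3
  rcases h.prime.irreducible.isUnit_or_isUnit ht with hu | hu
  · have h4 := isUnit_iff.1 hu
    rw [nr_int] at h4
    have h5 : (2 : ℤ) ≤ p := by exact_mod_cast hp.two_le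
    nlinarith
  · have hre := congrArg QuadraticAlgebra.re ht
    have him := congrArg QuadraticAlgebra.im ht
    rw [mul_re, ha] at hre
    rw [mul_im, hb] at him
    have e1 : ((p : ℤ) : Ei).re = p := rfl
    have e2 : ((p : ℤ) : Ei).im = 0 := rfl
    rw [e1, e2] at hre him
    have key : ∀ c : ZMod 3, ((w ^ c.val : Ei).re = 1 ∧ (w ^ c.val : Ei).im = 0) ∨
        ((w ^ c.val : Ei).re = 0 ∧ (w ^ c.val : Ei).im = 1) ∨
        ((w ^ c.val : Ei).re = -1 ∧ (w ^ c.val : Ei).im = -1) := by decide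
    obtain ⟨c, hc | hc⟩ := unit_form hu
    · rw [hc] at hre him
      rcases key c with ⟨k1, k2⟩ | ⟨k1, k2⟩ | ⟨k1, k2⟩ <;> rw [k1, k2] at hre him <;> omega
    · rw [hc] at hre him
      have e3 : (-w ^ c.val : Ei).re = -(w ^ c.val : Ei).re := QuadraticAlgebra.re_neg _
      have e4 : (-w ^ c.val : Ei).im = -(w ^ c.val : Ei).im := QuadraticAlgebra.im_neg _
      rw [e3, e4] at hre him
      rcases key c with ⟨k1, k2⟩ | ⟨k1, k2⟩ | ⟨k1, k2⟩ <;> rw [k1, k2] at hre him <;> omega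

/-- **The supplementary law.** -/
theorem supp {π : Ei} (h : Pq π) : cs π 3 = yq π := by
  obtain ⟨a, b, ha, hb⟩ := prim_form h.three
  have hπ3 : ¬ π ∣ 3 := h.norm
  have hform : π = 1 + 3 * ((a : Ei) + (b : Ei) * w) := by
    rw [ei_eq π, ha, hb]
    push_cast
    ring
  have him : ((a : Ei) + (b : Ei) * w).im = b := by
    rw [QuadraticAlgebra.im_add, mul_im]
    simp [w]
  have hre : ((a : Ei) + (b : Ei) * w).re = a := by
    rw [QuadraticAlgebra.re_add, mul_re]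
    simp [w]
  have hy : yq π = (b : ZMod 3) := by
    rw [hform, yq_one, him]
  have hn : nq π = -((a + b : ℤ) : ZMod 3) := by
    rw [hform, nq_one, hre, him]
  have hnint : ∀ x : ℤ, nq (1 + 3 * (x : Ei)) = -(x : ZMod 3) := Pool.Agent.N883.FF.Chi.nq_int
  rw [hy]
  by_cases hb0 : b = 0
  · subst hb0
    have hs : star π = π := by
      rw [hform]
      simp [star_add, star_mul]
      ring
    have h3 := cs_star h hπ3
    have h3' : star (3 : Ei) = 3 := by decide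
    rw [hs, h3'] at h3
    rw [Int.cast_zero]
    generalize cs π 3 = c at h3
    revert h3 c
    decide
  have hcop := cop_coord h ha hb hb0
  obtain ⟨s, t, hst⟩ := hcop
  set A : Ei := 1 + 3 * (a : Ei) with hA
  set B : Ei := 3 * (b : Ei) with hB
  have hst' : (s : Ei) * A + (t : Ei) * B = 1 := by
    rw [hA, hB]
    exact_mod_cast congrArg (fun n : ℤ => (n : Ei)) hst
  have hπ : π = A + B * w := by
    rw [hform, hA, hB]
    ring
  have hAB : ∀ ρ : Ei, Prime ρ → ρ ∣ A → ¬ ρ ∣ B := by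
    intro ρ hρ h1 h2
    apply hρ.not_isUnit
    apply isUnit_of_dvd_one
    rw [← hst']
    exact dvd_add (Dvd.dvd.mul_left h1 _) (Dvd.dvd.mul_left h2 _)
  have hwn : ∀ ρ : Ei, Prime ρ → ¬ ρ ∣ w := fun ρ hρ h1 =>
    hρ.not_isUnit (isUnit_of_dvd_unit h1 w_unit)
  have hAπ : ∀ ρ : Ei, Prime ρ → ρ ∣ A → ¬ ρ ∣ π := by
    intro ρ hρ h1 h2
    have h3 : ρ ∣ B * w := by
      have e : B * w = π - A := by rw [hπ]; ring
      rw [e]
      exact dvd_sub h2 h1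
    rcases hρ.dvd_or_dvd h3 with h3 | h3
    · exact hAB ρ hρ h1 h3
    · exact hwn ρ hρ h3
  set C : Ei := A + B with hC
  have hCA : ∀ ρ : Ei, Prime ρ → ρ ∣ C → ¬ ρ ∣ A := by
    intro ρ hρ h1 h2
    refine hAB ρ hρ h2 ?_
    have e : B = C - A := by rw [hC]; ring
    rw [e]
    exact dvd_sub h1 h2
  have h1w3 : ∀ ρ : Ei, ρ ∣ 1 - w → ρ ∣ 3 := by
    intro ρ h1
    refine h1.trans ⟨(1 - w) * -(w ^ 2), ?_⟩
    decide
  have hCπ : ∀ ρ : Ei, Pq ρ → ρ ∣ C → ¬ ρ ∣ π := by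
    intro ρ hρ h1 h2
    have h3 : ρ ∣ A * (1 - w) := by
      have e : A * (1 - w) = π - C * w := by rw [hπ, hC]; ring
      rw [e]
      exact dvd_sub h2 (Dvd.dvd.mul_right h1 _)
    rcases hρ.prime.dvd_or_dvd h3 with h3 | h3
    · exact hCA ρ hρ.prime h1 h3
    · exact hρ.norm (h1w3 ρ h3)
  have n1 : ¬ π ∣ A := fun h1 => hAπ π h.prime h1 (dvd_refl _)
  have n2 : ¬ π ∣ C := fun h1 => hCπ π h h1 (dvd_refl _)
  have n3 : ¬ π ∣ B := by
    intro h1
    apply n1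
    have e : A = π - B * w := by rw [hπ]; ring
    rw [e]
    exact dvd_sub (dvd_refl _) (Dvd.dvd.mul_right h1 _)
  have n4 : ¬ π ∣ w := hwn π h.prime
  have n5 : ¬ π ∣ 1 - w := fun h1 => h.norm (h1w3 π h1)
  -- factorizations
  have hA0 : A ≠ 0 := fun h1 => n1 (h1 ▸ dvd_zero _)
  have hC0 : C ≠ 0 := fun h1 => n2 (h1 ▸ dvd_zero _)
  have hA3 : (3 : Ei) ∣ A - 1 := ⟨a, by rw [hA]; ring⟩
  have hC3 : (3 : Ei) ∣ C - 1 := ⟨a + b, by rw [hC, hA, hB]; ring⟩
  have hp3 : ∀ x ρ : Ei, (3 : Ei) ∣ x - 1 → Prime ρ → ρ ∣ x → ¬ ρ ∣ 3 := by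
    intro x ρ h1 hρ h2 h3
    apply hρ.not_isUnit
    apply isUnit_of_dvd_one
    have e : (1 : Ei) = x - (x - 1) := by ring
    rw [e]
    exact dvd_sub h2 (h3.trans h1)
  obtain ⟨M, hM, hMp⟩ := fac A hA0 (fun ρ hρ h1 => hp3 A ρ hA3 hρ h1) 1 isUnit_one
    (by rwa [one_mul])
  obtain ⟨N, hN, hNp⟩ := fac C hC0 (fun ρ hρ h1 => hp3 C ρ hC3 hρ h1) 1 isUnit_one
    (by rwa [one_mul])
  rw [one_mul] at hMp hNp
  have dM : ∀ ρ ∈ M, ρ ∣ A := fun ρ hρ => hMp ▸ Multiset.dvd_prod hρ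
  have dN : ∀ ρ ∈ N, ρ ∣ C := fun ρ hρ => hNp ▸ Multiset.dvd_prod hρ
  have sA : star A = A := by
    have : A = ((1 + 3 * a : ℤ) : Ei) := by rw [hA]; push_cast; ring
    rw [this, star_int]
  have sB : star B = B := by
    have : B = ((3 * b : ℤ) : Ei) := by rw [hB]; push_cast; ring
    rw [this, star_int]
  have sC : star C = C := by rw [hC, star_add, sA, sB]
  have s3 : star (-3 : Ei) = -3 := by decide
  -- the symbol of `A`
  have r1 : cM M π = cs π A := by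
    rw [← hMp]
    exact cM_rec hM h fun ρ hρ => hAπ ρ (hM ρ hρ).prime (dM ρ hρ)
  have r2 : cM M π = cM M (B * w) := by
    refine cM_congr hM (fun ρ hρ => hAπ ρ (hM ρ hρ).prime (dM ρ hρ)) ?_
    rw [hMp]
    exact ⟨1, by rw [hπ]; ring⟩
  have r3 : cM M (B * w) = cM M B + cM M w :=
    cM_mul hM (fun ρ hρ => hAB ρ (hM ρ hρ).prime (dM ρ hρ)) fun ρ hρ => hwn ρ (hM ρ hρ).prime
  have r4 : cM M B = 0 := cM_rat hM (by rw [hMp, sA]) sB
    fun ρ hρ => hAB ρ (hM ρ hρ).prime (dM ρ hρ)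
  have r5 : cM M w = nq A := by rw [(cM_w hM).1, hMp]
  have q1 : cs π A = cs π B + cs π w := by
    rw [← cs_mul h.prime h.norm n3 n4, ← cs_neg h.prime h.norm (fun h1 =>
      (h.prime.dvd_or_dvd h1).elim n3 n4)]
    refine cs_congr h.prime h.norm n1 ?_
    exact ⟨1, by rw [hπ]; ring⟩
  have q2 : cs π C = cs π B + cs π (1 - w) := by
    rw [← cs_mul h.prime h.norm n3 n5]
    refine cs_congr h.prime h.norm n2 ?_
    exact ⟨1, by rw [hC, hπ]; ring⟩
  have t1 : cM N π = cs π C := by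
    rw [← hNp]
    exact cM_rec hN h fun ρ hρ => hCπ ρ (hN ρ hρ) (dN ρ hρ)
  have dN1 : ∀ ρ ∈ N, ¬ ρ ∣ 1 - w := fun ρ hρ h1 => (hN ρ hρ).norm (h1w3 ρ h1)
  have t2 : cM N π = cM N (A * (1 - w)) := by
    refine cM_congr hN (fun ρ hρ => hCπ ρ (hN ρ hρ) (dN ρ hρ)) ?_
    rw [hNp]
    exact ⟨w, by rw [hC, hπ]; ring⟩
  have t3 : cM N (A * (1 - w)) = cM N A + cM N (1 - w) :=
    cM_mul hN (fun ρ hρ => hCA ρ (hN ρ hρ).prime (dN ρ hρ)) dN1
  have t4 : cM N A = 0 := cM_rat hN (by rw [hNp, sC]) sA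
    fun ρ hρ => hCA ρ (hN ρ hρ).prime (dN ρ hρ)
  have hsq : (1 - w : Ei) * (1 - w) = -3 * w := by decide
  have t5 : cM N (1 - w) + cM N (1 - w) = cM N (-3) + cM N w := by
    rw [← cM_mul hN dN1 dN1, hsq]
    exact cM_mul hN (fun ρ hρ h1 => (hN ρ hρ).norm ((dvd_neg).1 h1))
      fun ρ hρ => hwn ρ (hN ρ hρ).prime
  have t6 : cM N (-3) = 0 := cM_rat hN (by rw [hNp, sC]) s3
    fun ρ hρ h1 => (hN ρ hρ).norm ((dvd_neg).1 h1)
  have t7 : cM N w = nq C := by rw [(cM_w hN).1, hNp]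
  have q3 : cs π (1 - w) + cs π (1 - w) = cs π 3 + cs π w := by
    have hn3 : ¬ π ∣ -3 := fun h1 => h.norm ((dvd_neg).1 h1)
    rw [← cs_mul h.prime h.norm n5 n5, hsq, cs_mul h.prime h.norm hn3 n4,
      cs_neg h.prime h.norm h.norm]
  have q4 : cs π w = nq π := cs_w h
  have u1 : nq A = -(a : ZMod 3) := hnint a
  have u2 : nq C = -((a + b : ℤ) : ZMod 3) := by
    have : C = 1 + 3 * ((a + b : ℤ) : Ei) := by rw [hC, hA, hB]; push_cast; ring
    rw [this, hnint]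
  push_cast at u2 hn
  have e3 : (3 : ZMod 3) = 0 := rfl
  linear_combination (t5 + t6 + t7) + 2 * (-t1 + t2 + t3 + t4) - 2 * (-r1 + r2 + r3 + r4 + r5) +
    2 * q1 - 2 * q2 - q3 + q4 + u2 - 2 * u1 + hn - (b : ZMod 3) * e3

end Pool.Agent.D0H43.L3.Supp
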