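import Pool.Agent.D0H43.L3.StmS
import Pool.Agent.D0H43.L3.Supp
import Pool.Agent.N883.FF.Sel

/-!
# Project L3: the Selmer group of `3 ω ^ i ∏ π_j ^ (e j)`
-/

set_option autoImplicit false
set_option linter.unusedSectionVars false

open scoped Classical

namespace Pool.Agent.D0H43.L3.Sel

open Pool.Agent.Y692.QS (Ei w nr nr_nonneg nr_zero_iff isUnit_iff w_cube nr_mod ep epz ep_unit)
open Pool.Agent.Y715.T.Gi Pool.Agent.Y715.T.Nr Pool.Agent.Y715.T.Df
open Pool.Agent.Y715.T.Rec (cs nn)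
open Pool.Agent.Y715.T.RecG
open Pool.Agent.Y715.T.Sel (fac kc_mul kc_one kc_congr kc_pow kc_cube kc_uniq kc_cancel kc_unit
  kc_exp ex_root root_ne iota_sq iota_ev odd_of not_dvd_of_unr resid_kc exists_emb3
  norm_three_one)
open Pool.Agent.Y703.CT
open Pool.Agent.Y48.CT.SEL (not_lam not_assoc_lam p0 pr0 esq not_dvd_prod prod_form cf_prod
  support)
open Pool.Agent.N883.FF (nq)
open Pool.Agent.N883.FF.Sel (w_unit w_ne unit_w cf_unit cs_w unit_norm)

variable {J : Type} [Fintype J] {π : J → Ei} {e : J → ZMod 3}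
variable {i₀ : QB} {hi : i₀ ^ 2 + i₀ + 1 = 0}

/-- the elements `ω ^ s lam ^ g ∏ π_j ^ (x j)` -/
noncomputable def gen (π : J → Ei) (s g : ℕ) (x : J → ℕ) : Ei :=
  w ^ s * (lam ^ g * ∏ j, π j ^ x j)

lemma lam_ne0 : (lam : Ei) ≠ 0 := prime_lam.ne_zero

lemma gen_ne (hD : Dt π e) (s g : ℕ) (x : J → ℕ) : gen π s g x ≠ 0 :=
  mul_ne_zero (pow_ne_zero _ w_ne) (mul_ne_zero (pow_ne_zero _ lam_ne0) (pr0 hD _))

/-- the exponents matter modulo three only -/
lemma kc_gen (h0 : ∀ j, π j ≠ 0) {h : GK i₀ → ZMod 3} {s t g g' : ℕ} {x y : J → ℕ}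
    (hst : (s : ZMod 3) = t) (hg : (g : ZMod 3) = g') (hxy : ∀ j, (x j : ZMod 3) = y j)
    (hz : Kc hi (gen π s g x) h) : Kc hi (gen π t g' y) h := by
  have h1 := kc_exp (hi := hi) (J := Option (Option J))
    (π := fun o => o.elim w (fun o' => o'.elim lam π))
    (x := fun o => o.elim s (fun o' => o'.elim g x))
    (y := fun o => o.elim t (fun o' => o'.elim g' y)) (h := h) (by
      rintro (_ | _ | j)
      · exact w_ne
      · exact lam_ne0
      · exact h0 j) (by
      rintro (_ | _ | j)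
      · exact hst
      · exact hg
      · exact hxy j)
  rw [Fintype.prod_option, Fintype.prod_option, Fintype.prod_option, Fintype.prod_option] at h1
  exact h1 hz

lemma gen_mul_pow (s s' g g' : ℕ) (x x' : J → ℕ) (n : ℕ) :
    gen π s g x * gen π s' g' x' ^ n = gen π (s + s' * n) (g + g' * n)
      (fun j => x j + x' j * n) := by
  unfold gen
  rw [mul_pow, mul_pow, ← Finset.prod_pow, ← pow_mul, ← pow_mul, pow_add, pow_add]
  have e1 : ∏ j, π j ^ (x j + x' j * n) = (∏ j, π j ^ x j) * ∏ j, (π j ^ x' j) ^ n := by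
    rw [← Finset.prod_mul_distrib]
    refine Finset.prod_congr rfl fun j _ => ?_
    rw [← pow_mul, ← pow_add]
  rw [e1]
  ring

/-- products of prime powers with exponents at most two are free of cubes -/
lemma cf_gen (hD : Dt π e) (g : ZMod 3) (f : J → ZMod 3) :
    CF (lam ^ g.val * ∏ j, π j ^ (f j).val) := by
  refine ⟨mul_ne_zero (pow_ne_zero _ lam_ne0) (pr0 hD _), fun d hd => ?_⟩
  by_contra hu
  have hn0 : lam ^ g.val * ∏ j, π j ^ (f j).val ≠ 0 :=
    mul_ne_zero (pow_ne_zero _ lam_ne0) (pr0 hD _)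
  have hd0 : d ≠ 0 := by
    rintro rfl
    rw [zero_pow three_ne_zero, zero_dvd_iff] at hd
    exact hn0 hd
  obtain ⟨ρ, hρi, hρd⟩ := WfDvdMonoid.exists_irreducible_factor hu hd0
  have hρ : Prime ρ := hρi.prime
  have h1 : ρ ^ 3 ∣ lam ^ g.val * ∏ j, π j ^ (f j).val := (pow_dvd_pow_of_dvd hρd 3).trans hd
  have h2 : ρ ∣ lam ^ g.val * ∏ j, π j ^ (f j).val := (dvd_pow_self ρ three_ne_zero).trans h1
  have hglt : g.val < 3 := ZMod.val_lt _
  have hlp : ¬ lam ∣ ∏ j, π j ^ (f j).val := by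
    rw [prime_lam.dvd_finsetProd_iff]
    rintro ⟨j, -, hj⟩
    have h3 := prime_lam.dvd_of_dvd_pow hj
    exact not_assoc_lam (hD.pq j) ((prime_lam.dvd_prime_iff_associated (hD.pq j).prime).1 h3).symm
  rcases hρ.dvd_or_dvd h2 with h3 | h3
  · have h4 : Associated ρ lam :=
      (hρ.dvd_prime_iff_associated prime_lam).1 (hρ.dvd_of_dvd_pow h3)
    have h5 : lam ^ 3 ∣ lam ^ g.val * ∏ j, π j ^ (f j).val :=
      (pow_dvd_pow_of_dvd h4.symm.dvd 3).trans h1
    have e1 : lam ^ 3 = lam ^ g.val * lam ^ (3 - g.val) := by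
      rw [← pow_add]
      congr 1
      omega
    rw [e1] at h5
    have h6 := (mul_dvd_mul_iff_left (pow_ne_zero _ lam_ne0)).1 h5
    exact hlp ((dvd_pow_self lam (by omega)).trans h6)
  · rw [hρ.dvd_finsetProd_iff] at h3
    obtain ⟨j, -, hj⟩ := h3
    have h4 : Associated ρ (π j) :=
      (hρ.dvd_prime_iff_associated (hD.pq j).prime).1 (hρ.dvd_of_dvd_pow hj)
    have h5 : π j ^ 3 ∣ lam ^ g.val * ∏ j, π j ^ (f j).val :=
      (pow_dvd_pow_of_dvd h4.symm.dvd 3).trans h1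
    have hcop : ¬ π j ∣ lam ^ g.val := fun h => not_lam (hD.pq j)
      ((hD.pq j).prime.dvd_of_dvd_pow h)
    have h6 : π j ^ 3 ∣ ∏ j, π j ^ (f j).val :=
      ((hD.pq j).prime.pow_dvd_of_dvd_mul_left 3 hcop h5)
    exact (cf_prod hD f).2 (π j) h6 |> (hD.pq j).prime.not_isUnit

lemma pT_eq (i : ZMod 3) : pT π e i = -gen π i.val 2 (fun j => (e j).val) := by
  have h3 : (3 : Ei) = -(lam ^ 2) := by
    have := lam_sq
    rw [this, neg_neg]
  unfold pT gen pD
  rw [h3]
  ring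

lemma pT_ne (hD : Dt π e) (i : ZMod 3) : pT π e i ≠ 0 := by
  rw [pT_eq]
  exact neg_ne_zero.2 (gen_ne hD _ _ _)

lemma pT_norm (hD : Dt π e) (i : ZMod 3) {p : ℕ} [Fact p.Prime] (hp : p ≠ 3)
    (ι : QB →ₐ[ℚ] PadicAlgCl p)
    (h : ∀ j, ¬ ‖ι (ev i₀ hi (π j))‖ < 1) : ¬ ‖ι (ev i₀ hi (pT π e i))‖ < 1 := by
  have h1 : ∀ j, ‖ι (ev i₀ hi (π j))‖ = 1 := by
    intro j
    refine le_antisymm ?_ (not_lt.1 (h j))
    rw [iota_ev]
    exact ev_le (iota_sq hi ι) _
  have h2 : ‖ι (ev i₀ hi (pT π e i))‖ = 1 := by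
    unfold pT pD
    rw [map_mul, map_ofNat, map_mul, map_ofNat, norm_mul, norm_three_one hp, one_mul,
      map_mul, map_pow, map_prod, map_mul, map_pow, map_prod, norm_mul, norm_pow, unit_norm,
      one_pow, one_mul, norm_prod]
    refine Finset.prod_eq_one fun j _ => ?_
    rw [map_pow, map_pow, norm_pow, h1, one_pow]
  rw [h2]
  exact lt_irrefl _

end Pool.Agent.D0H43.L3.Sel

namespace Pool.Agent.D0H43.L3

open Pool.Agent.Y692.QS (Ei w nr nr_nonneg nr_zero_iff isUnit_iff w_cube)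
open Pool.Agent.Y715.T.Gi Pool.Agent.Y715.T.Nr Pool.Agent.Y715.T.Df
open Pool.Agent.Y715.T.Rec (cs nn)
open Pool.Agent.Y715.T.RecG
open Pool.Agent.Y715.T.Sel (fac kc_mul kc_one kc_congr kc_pow kc_cube kc_uniq kc_cancel kc_unit
  kc_exp ex_root root_ne iota_sq iota_ev odd_of not_dvd_of_unr resid_kc exists_emb3)
open Pool.Agent.Y703.CT
open Pool.Agent.Y48.CT.SEL (not_lam not_assoc_lam p0 pr0 esq not_dvd_prod prod_form cf_prod
  support)
open Pool.Agent.N883.FF (nq)
open Pool.Agent.N883.FF.Sel (w_unit w_ne unit_w cf_unit cs_w unit_norm)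
open Sel

/-- **L3-SEL.** -/
theorem sel : S_SELT := by
  intro hLOC hRAM hUNR J _ π e i hD hker i₀ hi u a hTw h hc hm hloc
  have hD0 := pT_ne hD i
  -- the character `a`
  have hb : Kc hi (gen π i.val 2 (fun j => (e j).val)) (fun σ => -a σ) := by
    have h1 : Kc hi (pT π e i) (fun σ => -a σ) :=
      kc_of hi (root_ne (hi := hi) (z := pT π e i) hD0 hTw.cube) hTw.cube hTw.act
    refine kc_unit (u := -1) (gen_ne hD _ _ _) (Or.inr rfl) ?_
    rw [pT_eq] at h1
    rwa [neg_one_mul]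
  -- the Kummer generator
  obtain ⟨z, hz, hzh⟩ := kum hi h hc hm
  obtain ⟨v₀, g, x₀, hu, ez⟩ := fac (π := π) z hz.1 (support hD hz hzh
    (fun p _ ι hp3 hpj τ σ hcc hτ => by
      obtain ⟨R, hR⟩ := hloc p ι
      exact (hUNR (pT π e i) hD0 i₀ hi u a hTw h p ι hp3 (pT_norm hD i hp3 ι hpj) R hR τ σ hcc
        hτ).2))
  rw [ez] at hzh
  obtain ⟨ι₃⟩ := exists_emb3
  obtain ⟨q, hq⟩ := prod_form hD x₀
  have hq' : ∏ j, π j ^ x₀ j = 1 + 3 * q := by rw [← hq]; ring
  obtain ⟨r, hr⟩ := prod_form hD (fun j => (e j).val)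
  have hr' : pD π e = 1 + 3 * r := by
    unfold pD
    rw [← hr]
    ring
  obtain ⟨s, hs⟩ := unit_w hu
  -- the condition at three
  obtain ⟨n₀, hn1, hn2⟩ : ∃ n : ℕ, 3 ∣ g + 2 * n ∧
      (v₀ * w ^ (i.val * n) = 1 ∨ v₀ * w ^ (i.val * n) = -1) := by
    obtain ⟨R, hR⟩ := hloc 3 ι₃
    have hzh' := hzh
    rw [hq'] at hzh'
    have hTw' := hTw
    unfold pT at hTw'
    rw [hr'] at hTw'
    exact hLOC i₀ hi i.val r u a hTw' h v₀ q g hu hzh' inferInstance ι₃ R hR
  have hsn : ((s + i.val * n₀ : ℕ) : ZMod 3) = 0 := by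
    have h1 : w ^ (s + i.val * n₀) = 1 ∨ w ^ (s + i.val * n₀) = -1 := by
      rw [pow_add]
      rcases hs with hs | hs
      · rwa [hs] at hn2
      · rw [hs] at hn2
        rcases hn2 with h2 | h2
        · right
          linear_combination -h2
        · left
          linear_combination -h2
    have h3 : (w : Ei) ^ (s + i.val * n₀) = w ^ ((s + i.val * n₀) % 3) := by
      conv_lhs => rw [← Nat.div_add_mod (s + i.val * n₀) 3, pow_add, pow_mul, w_cube, one_pow,
        one_mul]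
    rw [h3] at h1
    rw [ZMod.natCast_eq_zero_iff]
    have h4 : (s + i.val * n₀) % 3 < 3 := Nat.mod_lt _ (by norm_num)
    have key : ∀ c : Fin 3, ((w : Ei) ^ (c : ℕ) = 1 ∨ (w : Ei) ^ (c : ℕ) = -1) → c = 0 := by
      decide
    have h5 := key ⟨_, h4⟩ h1
    have h6 := congrArg Fin.val h5
    exact Nat.dvd_of_mod_eq_zero h6
  have hgn : ((g + 2 * n₀ : ℕ) : ZMod 3) = 0 := (ZMod.natCast_eq_zero_iff _ _).2 hn1
  have hx1 : Kc hi (gen π s g x₀) h := by
    have h0 := gen_ne hD s g x₀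
    have e1 : v₀ * lam ^ g * ∏ j, π j ^ x₀ j = gen π s g x₀ ∨
        v₀ * lam ^ g * ∏ j, π j ^ x₀ j = -1 * gen π s g x₀ := by
      unfold gen
      rcases hs with hs | hs
      · left
        rw [hs]
        ring
      · right
        rw [hs]
        ring
    rcases e1 with e1 | e1
    · rwa [e1] at hzh
    · refine kc_unit (u := -1) h0 (Or.inr rfl) ?_
      rwa [e1] at hzh
  -- remove the powers of `w` and of `lam`
  obtain ⟨h', hh'⟩ : ∃ h' : GK i₀ → ZMod 3, h' = fun σ => h σ + n₀ * -a σ := ⟨_, rfl⟩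
  obtain ⟨x, hxd⟩ : ∃ x : J → ℕ, x = fun j => x₀ j + (e j).val * n₀ := ⟨_, rfl⟩
  have hx : Kc hi (gen π 0 0 x) h' := by
    have h1 := kc_mul (gen_ne hD s g x₀) (pow_ne_zero n₀ (gen_ne hD _ _ _)) hx1
      (kc_pow (gen_ne hD _ _ _) hb n₀)
    rw [gen_mul_pow] at h1
    rw [hh']
    refine kc_gen (p0 hD) ?_ ?_ (fun j => ?_) h1
    · rw [hsn, Nat.cast_zero]
    · rw [hgn, Nat.cast_zero]
    · rw [hxd]
  set v : J → ZMod 3 := fun j => x j * e j with hv
  have hxv : ∀ j, (x j : ZMod 3) = e j * v j := by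
    intro j
    have := esq hD j
    calc (x j : ZMod 3) = x j * (e j * e j) := by rw [this, mul_one]
      _ = _ := by rw [hv]; ring
  have heq : ∀ j, ∑ k, e k * cs (π j) (π k) * (v k - v j) = tq i (π j) * v j := by
    intro j
    obtain ⟨p, hp, ι, hl⟩ := exists_emb hi (hD.pq j).prime
    have hp3 := odd_of hi ι (hD.pq j).prime hl (not_assoc_lam (hD.pq j))
    obtain ⟨R, hR⟩ := hloc p ι
    have hpj := (hD.pq j).prime
    have h9 := (hD.pq j).norm
    have hndw : ¬ π j ∣ w := fun h1 => hpj.not_isUnit (isUnit_of_dvd_unit h1 w_unit)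
    have hndl : ¬ π j ∣ lam := not_lam (hD.pq j)
    have hvallt : (e j).val < 3 := ZMod.val_lt _
    have hval0 : (e j).val ≠ 0 := by
      rw [Ne, ZMod.val_eq_zero]
      exact hD.e0 j
    have hdiv : π j ^ (e j).val ∣ pT π e i := by
      unfold pT pD
      exact ((Finset.dvd_prod_of_mem (fun j => π j ^ (e j).val) (Finset.mem_univ j)).trans
        (dvd_mul_left _ _)).trans (dvd_mul_left _ _)
    have hndiv : ¬ π j ^ ((e j).val + 1) ∣ pT π e i := by
      intro h1
      unfold pT at h1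
      have h2' : π j ^ ((e j).val + 1) ∣ w ^ i.val * pD π e :=
        hpj.pow_dvd_of_dvd_mul_left _ h9 h1
      have h2 : π j ^ ((e j).val + 1) ∣ pD π e := ((w_unit.pow i.val).dvd_mul_left).1 h2'
      unfold pD at h2
      rw [← Finset.mul_prod_erase Finset.univ (fun i => π i ^ (e i).val) (Finset.mem_univ j),
        pow_succ] at h2
      exact not_dvd_prod hD j _ ((mul_dvd_mul_iff_left (pow_ne_zero _ (p0 hD j))).1 h2)
    obtain ⟨ε₁, hε₁⟩ := hRAM (pT π e i) (π j) (e j).val (hD.pq j).prime (hD.pq j).norm hdiv hndiv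
      (by omega) i₀ hi u a hTw h p ι hl R hR
    obtain ⟨ε, hεd⟩ : ∃ ε : ZMod 3, ε = ε₁ - n₀ := ⟨_, rfl⟩
    have hε : ∀ (τ : Au p) (σ : GK i₀), Cmp ι τ σ → h' σ = ε * a σ := by
      intro τ σ hcc
      rw [hh', hεd]
      simp only
      rw [hε₁ τ σ hcc]
      ring
    -- the character that is trivial at `π j`
    set n : ℕ := ε.val with hn
    have hn3 : (n : ZMod 3) = ε := ZMod.natCast_zmod_val _
    have hy := kc_mul (gen_ne hD 0 0 x) (pow_ne_zero n (gen_ne hD _ _ _)) hx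
      (kc_pow (gen_ne hD _ _ _) hb n)
    have hy1 : ∀ (τ : Au p) (σ : GK i₀), Cmp ι τ σ → h' σ + n * -a σ = 0 := by
      intro τ σ hcc
      rw [hε τ σ hcc, hn3]
      ring
    rw [gen_mul_pow] at hy
    set y : J → ZMod 3 := fun k => x k + e k * ε with hydef
    set c : ZMod 3 := 2 * ε with hcdef
    have hy2 : Kc hi (gen π (i.val * n) c.val (fun k => (y k).val))
        (fun σ => h' σ + n * -a σ) := by
      refine kc_gen (p0 hD) (by rw [zero_add]) ?_ (fun k => ?_) hy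
      · rw [ZMod.natCast_zmod_val, hcdef, zero_add]
        push_cast
        rw [hn3]
      · rw [ZMod.natCast_zmod_val, hydef]
        push_cast
        rw [hn3, ZMod.natCast_zmod_val]
    have hyj : y j = 0 := by
      have h1 := not_dvd_of_unr (cf_unit (w_unit.pow (i.val * n)) (cf_gen hD c y)) hy2 hp3 ι
        (hD.pq j).prime hl (fun τ σ hcc _ => hy1 τ σ hcc)
      by_contra hne
      apply h1
      refine Dvd.dvd.mul_left (Dvd.dvd.mul_left (dvd_trans (dvd_pow_self (π j) ?_)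
        (Finset.dvd_prod_of_mem (fun i => π i ^ (y i).val) (Finset.mem_univ j))) _) _
      rwa [Ne, ZMod.val_eq_zero]
    have hεv : ε = -v j := by
      have h1 : (x j : ZMod 3) + e j * ε = 0 := hyj
      have h2 := esq hD j
      rw [hxv j] at h1
      calc ε = (e j * e j) * ε := by rw [h2, one_mul]
        _ = e j * (e j * v j + e j * ε) - (e j * e j) * v j := by ring
        _ = _ := by rw [h1, h2]; ring
    have hyi : ∀ k, y k = e k * (v k - v j) := by
      intro k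
      rw [hydef]
      change (x k : ZMod 3) + e k * ε = _
      rw [hxv k, hεv]
      ring
    unfold gen at hy2
    have e2 : ∏ k, π k ^ (y k).val = ∏ k ∈ Finset.univ.erase j, π k ^ (y k).val := by
      rw [← Finset.mul_prod_erase Finset.univ (fun i => π i ^ (y i).val) (Finset.mem_univ j),
        hyj, ZMod.val_zero, pow_zero, one_mul]
    rw [e2] at hy2
    have hcube := resid_kc hy2 hp3 ι (hD.pq j).prime hl hy1
    have hnd := not_dvd_prod hD j (fun i => (y i).val)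
    have hndwp : ¬ π j ∣ w ^ (i.val * n) := fun h1 => hndw (hpj.dvd_of_dvd_pow h1)
    have hndlp : ¬ π j ∣ lam ^ c.val := fun h1 => hndl (hpj.dvd_of_dvd_pow h1)
    have hndm : ¬ π j ∣ lam ^ c.val * ∏ k ∈ Finset.univ.erase j, π k ^ (y k).val := by
      intro h1
      rcases hpj.dvd_or_dvd h1 with h2 | h2
      · exact hndlp h2
      · exact hnd h2
    have hnd0 : ¬ π j ∣ w ^ (i.val * n) *
        (lam ^ c.val * ∏ k ∈ Finset.univ.erase j, π k ^ (y k).val) := by
      intro h1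
      rcases hpj.dvd_or_dvd h1 with h2 | h2
      · exact hndwp h2
      · exact hndm h2
    have hcs := (cs_zero_iff hpj h9 hnd0).2 hcube
    have hnd1 : ∀ i ∈ Finset.univ.erase j, ¬ π j ∣ π i := fun i hij =>
      hD.nd i j (Finset.ne_of_mem_erase hij)
    rw [cs_mul hpj h9 hndwp hndm, cs_mul hpj h9 hndlp hnd, cs_pow hpj h9 hndw, cs_w (hD.pq j),
      cs_pow hpj h9 hndl,
      cs_prod hpj h9 _ _ (fun i hij h1 => hnd1 i hij (hpj.dvd_of_dvd_pow h1))] at hcs
    push_cast at hcs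
    rw [hn3, ZMod.natCast_zmod_val, ZMod.natCast_zmod_val, hcdef, hεv] at hcs
    have hsum : ∑ k, e k * cs (π j) (π k) * (v k - v j) =
        ∑ k ∈ Finset.univ.erase j, cs (π j) (π k ^ (y k).val) := by
      rw [← Finset.add_sum_erase Finset.univ _ (Finset.mem_univ j), sub_self, mul_zero, zero_add]
      refine Finset.sum_congr rfl fun k hij => ?_
      rw [cs_pow hpj h9 (hnd1 k hij), ZMod.natCast_zmod_val, hyi k]
      ring
    -- the symbol of `lam`
    have hlam2 : cs (π j) lam + cs (π j) lam = yq (π j) := by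
      have h3 : (3 : Ei) = -(lam * lam) := by
        have := lam_sq
        rw [pow_two] at this
        rw [this, neg_neg]
      have hll : ¬ π j ∣ lam * lam := fun h1 => (hpj.dvd_or_dvd h1).elim hndl hndl
      rw [← Supp.supp (hD.pq j), ← cs_mul hpj h9 hndl hndl, h3, cs_neg hpj h9 hll]
    rw [hsum, tq]
    linear_combination hcs + v j * hlam2
  have hv0 := hker v heq
  -- conclusion
  have hx2 : Kc hi (gen π 0 0 (fun _ => 0)) h' := by
    refine kc_gen (p0 hD) rfl rfl (fun j => ?_) hx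
    rw [hxv j, hv0 j, mul_zero, Nat.cast_zero]
  have e3 : gen π 0 0 (fun _ => 0) = 1 := by simp [gen]
  rw [e3] at hx2
  refine ⟨n₀, fun σ => ?_⟩
  have h4 := kc_uniq one_ne_zero hx2 kc_one σ
  rw [hh'] at h4
  simp only at h4
  linear_combination h4

end Pool.Agent.D0H43.L3
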