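import Pool.Agent.D0H43.L3.StmX
import Pool.Agent.N883.FF.Chi

/-!
# Project L3: the symbol of `3 ω ^ i` as a character modulo nine
-/

set_option autoImplicit false

namespace Pool.Agent.D0H43.L3

open Pool.Agent.Y692.QS (Ei w nr toC nr_mul nr_neg nr_one nr_int isUnit_iff w_cube mul_re mul_im
  ep ep_congr ep_cases)
open Pool.Agent.W192.HK (sp)
open Pool.Agent.TH936.PU
open Pool.Agent.Y696 (eis)
open Pool.Agent.Y715.T.Rs (eq0 eq0_coe)
open Pool.Agent.Y715.T.Lat (la)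
open Pool.Agent.N883.FF (nq)
open Pool.Agent.N883.FF.Chi

namespace Chi

lemma ndvd_of_cop {x : Ei} (hx : IsCoprime x 3) : ¬ (3 : ℤ) ∣ nr x := by
  have := nr_mod hx
  omega

/-- the sixth power -/
lemma six {x : Ei} (hx : IsCoprime x 3) : ∃ t : Ei, x ^ 6 = 1 + 9 * t := by
  obtain ⟨c, hc⟩ := ep_congr x (ndvd_of_cop hx)
  have h6 := (ep_cases x (ndvd_of_cop hx)).1
  have h1 : x = ep x + 3 * c := by rw [← hc]; ring
  refine ⟨2 * (ep x) ^ 5 * c + 15 * (ep x) ^ 4 * c ^ 2 + 60 * (ep x) ^ 3 * c ^ 3 +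
    135 * (ep x) ^ 2 * c ^ 4 + 162 * ep x * c ^ 5 + 81 * c ^ 6, ?_⟩
  conv_lhs => rw [h1]
  linear_combination h6

lemma im_nine (t : Ei) : (1 + 9 * t : Ei).im = 9 * t.im := by
  have e9 : (9 : Ei) = ⟨9, 0⟩ := rfl
  have e1 : (1 : Ei) = ⟨1, 0⟩ := rfl
  rw [e9, e1]
  simp

lemma yq_six {x t : Ei} (h : x ^ 6 = 1 + 9 * t) : yq x = ((-t.im : ℤ) : ZMod 3) := by
  unfold yq
  rw [h, im_nine, Int.mul_ediv_cancel_left _ (by norm_num)]

lemma yq_congr {x y t : Ei} (h : x - y = 9 * t) : yq x = yq y := by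
  have h1 : x = y + 9 * t := by rw [← h]; ring
  have h2 : x ^ 6 = y ^ 6 + 27 * (2 * y ^ 5 * t + 45 * y ^ 4 * t ^ 2 + 540 * y ^ 3 * t ^ 3 +
      3645 * y ^ 2 * t ^ 4 + 13122 * y * t ^ 5 + 19683 * t ^ 6) := by
    rw [h1]
    ring
  generalize 2 * y ^ 5 * t + 45 * y ^ 4 * t ^ 2 + 540 * y ^ 3 * t ^ 3 +
      3645 * y ^ 2 * t ^ 4 + 13122 * y * t ^ 5 + 19683 * t ^ 6 = s at h2
  have h3 : (x ^ 6).im = (y ^ 6).im + 27 * s.im := by
    rw [h2]
    have e27 : (27 : Ei) = ⟨27, 0⟩ := rfl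
    rw [e27]
    simp
  unfold yq
  rw [h3]
  have h4 : ((y ^ 6).im + 27 * s.im) / 9 = (y ^ 6).im / 9 + 3 * s.im := by omega
  rw [h4]
  push_cast
  have h5 : (3 : ZMod 3) = 0 := rfl
  rw [h5]
  ring

lemma yq_mul {x y : Ei} (hx : IsCoprime x 3) (hy : IsCoprime y 3) : yq (x * y) = yq x + yq y := by
  obtain ⟨a, ha⟩ := six hx
  obtain ⟨b, hb⟩ := six hy
  have hab : (x * y) ^ 6 = 1 + 9 * (a + b + 9 * (a * b)) := by
    rw [mul_pow, ha, hb]
    ring
  rw [yq_six ha, yq_six hb, yq_six hab]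
  have h1 : (a + b + 9 * (a * b)).im = a.im + b.im + 9 * (a * b).im := by
    have e9 : (9 : Ei) = ⟨9, 0⟩ := rfl
    rw [e9]
    simp
  rw [h1]
  push_cast
  have h3 : (9 : ZMod 3) = 0 := rfl
  rw [h3]
  ring

lemma yq_unit {u : Ei} (hu : IsUnit u) : yq u = 0 := by
  have h3 : ¬ (3 : ℤ) ∣ nr u := by rw [isUnit_iff.1 hu]; decide
  have h6 := (ep_cases u h3).1
  rw [Pool.Agent.Y692.QS.ep_unit hu] at h6
  have : u ^ 6 = 1 + 9 * 0 := by rw [h6]; ring
  rw [yq_six this]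
  simp

lemma yq_neg (x : Ei) : yq (-x) = yq x := by
  unfold yq
  have : (-x) ^ 6 = x ^ 6 := by ring
  rw [this]

/-- the value at `1 + 3 t` -/
lemma yq_one (t : Ei) : yq (1 + 3 * t) = ((t.im : ℤ) : ZMod 3) := by
  have h : (1 + 3 * t) ^ 6 = 1 + 9 * (2 * t + 3 * (5 * t ^ 2 + 20 * t ^ 3 + 45 * t ^ 4 +
      54 * t ^ 5 + 27 * t ^ 6)) := by ring
  rw [yq_six h]
  generalize 5 * t ^ 2 + 20 * t ^ 3 + 45 * t ^ 4 + 54 * t ^ 5 + 27 * t ^ 6 = s
  have h1 : (2 * t + 3 * s : Ei).im = 2 * t.im + 3 * s.im := by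
    have e2 : (2 : Ei) = ⟨2, 0⟩ := rfl
    have e3 : (3 : Ei) = ⟨3, 0⟩ := rfl
    rw [e2, e3]
    simp
  rw [h1]
  push_cast
  have h3 : (3 : ZMod 3) = 0 := rfl
  have h2 : (2 : ZMod 3) = -1 := rfl
  rw [h3, h2]
  ring

/-- the norm exponent at `1 + 3 t` -/
lemma nq_one (t : Ei) : nq (1 + 3 * t) = -((t.re + t.im : ℤ) : ZMod 3) := by
  unfold nq
  have h1 : nr (1 + 3 * t) = 1 + 3 * (2 * t.re - t.im + 3 * nr t) := by
    have e3 : (3 : Ei) = ⟨3, 0⟩ := rfl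
    have e1 : (1 : Ei) = ⟨1, 0⟩ := rfl
    rw [e3, e1]
    unfold nr
    simp
    ring
  rw [h1, add_sub_cancel_left, Int.mul_ediv_cancel_left _ (by norm_num)]
  push_cast
  have h3 : (3 : ZMod 3) = 0 := rfl
  have h2 : (2 : ZMod 3) = -1 := rfl
  rw [h3, h2]
  ring

lemma tq_congr (i : ZMod 3) {x y t : Ei} (h : x - y = 9 * t) : tq i x = tq i y := by
  unfold tq
  rw [yq_congr h]
  congr 2
  refine nq_congr (t := -(laE * t)) ?_
  rw [h]
  have : laE * laE = -3 := by decide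
  linear_combination (3 * t) * this

lemma tq_mul (i : ZMod 3) {x y : Ei} (hx : IsCoprime x 3) (hy : IsCoprime y 3) :
    tq i (x * y) = tq i x + tq i y := by
  unfold tq
  rw [yq_mul hx hy, nq_mul hx hy]
  ring

lemma tq_unit (i : ZMod 3) {u : Ei} (hu : IsUnit u) : tq i u = 0 := by
  unfold tq
  rw [yq_unit hu, nq_unit hu, mul_zero, add_zero]

lemma tq_neg (i : ZMod 3) (x : Ei) : tq i (-x) = tq i x := by
  unfold tq
  rw [yq_neg, nq_neg]

lemma per (i : ZMod 3) {x y : eis} (h : x - y ∈ (sp fT : Ideal eis)) : cT i x = cT i y := by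
  unfold cT
  obtain ⟨t, ht⟩ := Ideal.mem_span_singleton'.mp h
  have h2 : eq0.symm x - eq0.symm y = 9 * eq0.symm t := by
    rw [← map_sub, ← ht]
    unfold fT
    rw [map_mul, map_ofNat]
    ring
  rw [tq_congr i h2]

lemma mul (i : ZMod 3) {x y : eis} (hx : IsCoprime x 3) (hy : IsCoprime y 3) :
    cT i (x * y) = cT i x * cT i y := by
  unfold cT
  rw [map_mul, tq_mul i (symm_cop hx) (symm_cop hy), c0_add]

lemma unit (i : ZMod 3) {u : eis} (hu : IsUnit u) : cT i u = 1 := by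
  unfold cT
  have h : IsUnit (eq0.symm u) := hu.map (eq0.symm : eis →+* Ei)
  rw [tq_unit i h, ZMod.val_zero, pow_zero]

lemma neg (i : ZMod 3) (x : eis) : cT i (-x) = cT i x := by
  unfold cT
  rw [map_neg, tq_neg]

lemma cube (i : ZMod 3) (x : eis) : cT i x ^ 3 = 1 := by
  unfold cT
  rw [← pow_mul, mul_comm, pow_mul, cube_w, one_pow]

lemma norm_cT (i : ZMod 3) (x : eis) : ‖cT i x‖ = 1 := by
  have h := congrArg norm (cube i x)
  rw [norm_pow, norm_one] at h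
  exact (pow_eq_one_iff_of_nonneg (norm_nonneg _) (by norm_num)).mp h

lemma eo (i : ZMod 3) (j : Fin 3) : Eo fT (eT i j) := by
  have h0 := Pool.Agent.Y703.CT.Ana.eo_j j
  refine ⟨fun x y h => ?_, fun x y => ?_, fun x => ?_, fun x => ?_⟩
  · unfold eT
    have h3 : x - y ∈ (sp 3 : Ideal eis) := by
      obtain ⟨t, ht⟩ := Ideal.mem_span_singleton'.mp h
      refine Ideal.mem_span_singleton'.mpr ⟨t * 3, ?_⟩
      rw [← ht]
      unfold fT
      ring
    rw [h0.per x y h3, per i h]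
  · unfold eT
    rw [h0.mul x y]
    by_cases hx : IsCoprime x 3
    · by_cases hy : IsCoprime y 3
      · rw [mul i hx hy]
        ring
      · rw [Pool.Agent.Y703.CT.Ana.ej_ncop j hy]
        ring
    · rw [Pool.Agent.Y703.CT.Ana.ej_ncop j hx]
      ring
  · unfold eT
    rw [h0.neg x, neg i x]
    ring
  · unfold eT
    rw [norm_mul, norm_cT, mul_one]
    exact h0.bd x

lemma int (i : ZMod 3) (a k : ℤ) : cT i (1 + 3 * ((a : eis) + k * la)) =
    toC w ^ (-(i * (a : ZMod 3)) - (k : ZMod 3)).val := by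
  unfold cT
  have h : eq0.symm (1 + 3 * ((a : eis) + k * la)) = 1 + 3 * ((a : Ei) + k * laE) := by
    rw [map_add, map_one, map_mul, map_ofNat, map_add, map_mul, map_intCast, map_intCast, symm_la]
  have h1 : ((a : Ei) + k * laE).im = 2 * k := by
    have e : ((a : Ei) + k * laE) = ⟨a + k, 2 * k⟩ := by
      ext
      · rw [QuadraticAlgebra.re_add, mul_re]
        simp [laE]
      · rw [QuadraticAlgebra.im_add, mul_im]
        simp [laE]
        ring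
    rw [e]
  have h2 : ((a : Ei) + k * laE).re = a + k := by
    rw [QuadraticAlgebra.re_add, mul_re]
    simp [laE]
  rw [h, tq, nq_one, yq_one, h1, h2]
  congr 2
  push_cast
  have h2 : (2 : ZMod 3) = -1 := rfl
  rw [h2]
  ring

end Chi

/-- L3-CHI -/
theorem chi : S_CHI := fun i =>
  ⟨fun _ _ h => Chi.per i h, fun _ _ hx hy => Chi.mul i hx hy, fun _ hu => Chi.unit i hu,
    fun x => Chi.cube i x, fun j => Chi.eo i j, fun a k => Chi.int i a k⟩

end Pool.Agent.D0H43.L3
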