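import Pool.Agent.D0H43.L3.Cube
import Pool.Agent.N883.FF.Gf
import Pool.Agent.N883.FF.Chi

/-!
# Project L3: limits of the regularized Eisenstein sums modulo `9`
-/

set_option autoImplicit false
set_option linter.unusedSectionVars false

open Filter
open scoped Topology PeriodPair

namespace Pool.Agent.D0H43.L3

namespace Gf

open H667R3
open Pool.Agent.Y692.QS (Ei w nr toC)
open Pool.Agent.Y703.CT.Ana (ej ej_u ej_prim ej_ncop eo_j)
open Pool.Agent.W192.HK (sp)
open Pool.Agent.TH936.CM Pool.Agent.TH936.PU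
open Pool.Agent.Y715.Dist Pool.Agent.Y715.Idn Pool.Agent.Y696
open Pool.Agent.Y715.T.Rs (eq0)
open Pool.Agent.Y715.T.Lat
open Pool.Agent.Y715.T.Three (lam lam_sq lam_ne')
open Pool.Agent.N883.FF (gB)
open Pool.Agent.N883.FF.Gf (w_om elam T_eq T_not EE_T wp_T dwp_T key cop_u Dd_neg)

variable {L : PeriodPair} {Ω : ℂ}

lemma fT_coe : ((fT : eis) : ℂ) = 9 := rfl

lemma fT_eq : (fT : eis) = 3 * 3 := by
  unfold fT
  norm_num

lemma fT_ne : (fT : eis) ≠ 0 := by
  rw [fT_eq]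
  exact mul_ne_zero three_ne three_ne

/-- the constant -/
lemma dT_eq (hC : Cur L Ω) : (om ^ 2 - om) * ℘'[L] (Ω / lam) = dT L Ω := by
  have hl : lam * (Ω / 3) ∉ L.lattice := by
    have := T_not hC
    rwa [T_eq, neg_mem_iff] at this
  have h1 := Cub.dwp_la hC hl
  have h2 : ℘'[L] (Ω / lam) = -℘'[L] (lam * (Ω / 3)) := by
    rw [T_eq, L.derivWeierstrassP_neg]
  have h3 := hC.y0
  have h4 : om ^ 2 - om = -lam := by rw [elam]; ring
  rw [h3] at h1
  rw [h2, h4, dT]
  linear_combination (-(1 / 12 : ℂ)) * h1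

lemma om_add (a b : ZMod 3) : om ^ (a + b).val = om ^ a.val * om ^ b.val := by
  rw [← w_om]
  exact Pool.Agent.N883.FF.Chi.c0_add

/-- the three integers -/
def KK : Finset ℤ := {0, 1, -1}

lemma sum_KK (f : ℤ → ℂ) : ∑ k ∈ KK, f k = f 0 + f 1 + f (-1) := by
  unfold KK
  rw [Finset.sum_insert (by simp), Finset.sum_insert (by simp), Finset.sum_singleton]
  ring

lemma cls (t : eis) : ∃ a ∈ KK, ∃ k ∈ KK, t - ((a : eis) + (k : eis) * la) ∈ (sp 3 : Ideal eis) := by
  obtain ⟨x, y, rfl⟩ := ez_ex t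
  have hk : ∀ n : ℤ, ∃ k ∈ KK, ∃ m : ℤ, n - k = 3 * m := by
    intro n
    have h2 : n % 3 = 0 ∨ n % 3 = 1 ∨ n % 3 = 2 := by omega
    rcases h2 with h2 | h2 | h2
    · exact ⟨0, by simp [KK], n / 3, by omega⟩
    · exact ⟨1, by simp [KK], n / 3, by omega⟩
    · exact ⟨-1, by simp [KK], n / 3 + 1, by omega⟩
  obtain ⟨k, hk1, m, hm⟩ := hk (-y)
  obtain ⟨a, ha1, n, hn⟩ := hk (x + y)
  refine ⟨a, ha1, k, hk1, ?_⟩
  have e : ez x y - ((a : eis) + (k : eis) * la) = ez (x - a - k) (y - 2 * k) := by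
    unfold la ez
    push_cast
    ring
  rw [e, mem_three]
  omega

lemma inj {a b k m : ℤ} (ha : a ∈ KK) (hb : b ∈ KK) (hk : k ∈ KK) (hm : m ∈ KK)
    (h : ((a - b : ℤ) : eis) + ((k - m : ℤ) : eis) * la ∈ (sp 3 : Ideal eis)) : a = b ∧ k = m := by
  have e : ((a - b : ℤ) : eis) + ((k - m : ℤ) : eis) * la = ez (a - b + (k - m)) (2 * (k - m)) := by
    unfold la ez
    push_cast
    ring
  rw [e, mem_three] at h
  simp only [KK, Finset.mem_insert, Finset.mem_singleton] at ha hb hk hm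
  omega

lemma fT_mem {x : eis} : 3 * x ∈ (sp fT : Ideal eis) ↔ x ∈ (sp 3 : Ideal eis) := by
  rw [fT_eq, Ideal.mem_span_singleton', Ideal.mem_span_singleton']
  constructor
  · rintro ⟨s, hs⟩
    refine ⟨s, mul_left_cancel₀ three_ne ?_⟩
    linear_combination hs
  · rintro ⟨s, hs⟩
    exact ⟨s, by linear_combination 3 * hs⟩

lemma fT_three {x : eis} (h : x ∈ (sp fT : Ideal eis)) : x ∈ (sp 3 : Ideal eis) := by
  rw [fT_eq, Ideal.mem_span_singleton'] at h
  rw [Ideal.mem_span_singleton']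
  obtain ⟨s, hs⟩ := h
  exact ⟨s * 3, by linear_combination hs⟩

/-- the element `1 + 3 (a + k √-3)` -/
noncomputable def el (a k : ℤ) : eis := 1 + 3 * ((a : eis) + (k : eis) * la)

/-- the fifty-four classes -/
lemma sum54 (F : eis → ℂ) (hF0 : ∀ x, ¬ IsCoprime x 3 → F x = 0)
    (hper : ∀ x y : eis, x - y ∈ (sp fT : Ideal eis) → F x = F y)
    [Fintype (eis ⧸ (sp fT : Ideal eis))] (G : eis → ℂ)
    (hG : ∀ u : eis, IsUnit u → ∑ a ∈ KK, ∑ k ∈ KK, F (u * el a k) = G u) :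
    ∑ y : eis ⧸ (sp fT : Ideal eis), F y.out =
      G 1 + G (-1) + G omr + G (-omr) + G (omr ^ 2) + G (-omr ^ 2) := by
  classical
  set U : Finset eis := {1, -1, omr, -omr, omr ^ 2, -omr ^ 2} with hU
  have hUu : ∀ u ∈ U, IsUnit u := by
    intro u hu
    rw [unit_list]
    simpa [hU] using hu
  have hinj : ∀ x y a b : ℤ, (x : ℂ) + y * om = a + b * om → x = a ∧ y = b := by
    intro x y a b h
    have h1 := congrArg Complex.im h
    simp at h1
    have h2 : y = b := by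
      rcases h1 with h1 | h1
      · exact h1
      · exact absurd h1 om_im.ne'
    subst h2
    have h3 : (x : ℂ) = a := add_right_cancel h
    exact ⟨by exact_mod_cast h3, rfl⟩
  have e1 : ((1 : eis) : ℂ) = ((1 : ℤ) : ℂ) + ((0 : ℤ) : ℂ) * om := by push_cast; ring
  have e2 : ((-1 : eis) : ℂ) = ((-1 : ℤ) : ℂ) + ((0 : ℤ) : ℂ) * om := by push_cast; ring
  have e3 : ((omr : eis) : ℂ) = ((0 : ℤ) : ℂ) + ((1 : ℤ) : ℂ) * om := by
    push_cast [omr_coe]; ring
  have e4 : ((-omr : eis) : ℂ) = ((0 : ℤ) : ℂ) + ((-1 : ℤ) : ℂ) * om := by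
    push_cast [omr_coe]; ring
  have e5 : ((omr ^ 2 : eis) : ℂ) = ((-1 : ℤ) : ℂ) + ((-1 : ℤ) : ℂ) * om := by
    push_cast [omr_coe]; linear_combination om_sq
  have e6 : ((-omr ^ 2 : eis) : ℂ) = ((1 : ℤ) : ℂ) + ((1 : ℤ) : ℂ) * om := by
    push_cast [omr_coe]; linear_combination -om_sq
  have hd : ∀ {s t : eis} {x y a b : ℤ}, (s : ℂ) = (x : ℂ) + y * om → (t : ℂ) = (a : ℂ) + b * om →
      ¬ (x = a ∧ y = b) → s ≠ t := by
    intro s t x y a b hs ht h hst
    apply h
    apply hinj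
    rw [← hs, ← ht, hst]
  have hsum : ∑ u ∈ U, G u = G 1 + G (-1) + G omr + G (-omr) + G (omr ^ 2) + G (-omr ^ 2) := by
    rw [hU, Finset.sum_insert, Finset.sum_insert, Finset.sum_insert, Finset.sum_insert,
      Finset.sum_insert, Finset.sum_singleton]
    · ring
    all_goals
      simp only [Finset.mem_insert, Finset.mem_singleton, not_or]
    · exact hd e5 e6 (by norm_num)
    · exact ⟨hd e4 e5 (by norm_num), hd e4 e6 (by norm_num)⟩
    · exact ⟨hd e3 e4 (by norm_num), hd e3 e5 (by norm_num), hd e3 e6 (by norm_num)⟩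
    · exact ⟨hd e2 e3 (by norm_num), hd e2 e4 (by norm_num), hd e2 e5 (by norm_num),
        hd e2 e6 (by norm_num)⟩
    · exact ⟨hd e1 e2 (by norm_num), hd e1 e3 (by norm_num), hd e1 e4 (by norm_num),
        hd e1 e5 (by norm_num), hd e1 e6 (by norm_num)⟩
  rw [← hsum]
  set g : eis × (ℤ × ℤ) → eis ⧸ (sp fT : Ideal eis) :=
    fun p => Ideal.Quotient.mk _ (p.1 * el p.2.1 p.2.2) with hg
  have hginj : Set.InjOn g (U ×ˢ (KK ×ˢ KK) : Finset (eis × (ℤ × ℤ))) := by
    rintro ⟨u, a, k⟩ hu ⟨v, b, m⟩ hv huv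
    simp only [Finset.coe_product, Set.mem_prod, Finset.mem_coe] at hu hv
    have h1 : u * el a k - v * el b m ∈ (sp fT : Ideal eis) := by
      rw [← Ideal.Quotient.mk_eq_mk_iff_sub_mem]
      exact huv
    have h2 : u - v ∈ (sp 3 : Ideal eis) := by
      have h3 := fT_three h1
      have h4 : 3 * (v * ((b : eis) + m * la) - u * ((a : eis) + k * la)) ∈ (sp 3 : Ideal eis) :=
        Ideal.mul_mem_right _ _ (Ideal.mem_span_singleton_self 3)
      have h5 := add_mem h3 h4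
      have e : u * el a k - v * el b m +
          3 * (v * ((b : eis) + m * la) - u * ((a : eis) + k * la)) = u - v := by
        unfold el
        ring
      rwa [e] at h5
    have h3 := unit_mod (hUu u hu.1) (hUu v hv.1) h2
    subst h3
    have h4 : 3 * (u * (((a - b : ℤ) : eis) + ((k - m : ℤ) : eis) * la)) ∈ (sp fT : Ideal eis) := by
      have e : 3 * (u * (((a - b : ℤ) : eis) + ((k - m : ℤ) : eis) * la)) =
          u * el a k - u * el b m := by
        unfold el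
        push_cast
        ring
      rw [e]
      exact h1
    rw [fT_mem] at h4
    obtain ⟨u', hu'⟩ := (hUu u hu.1).exists_left_inv
    have h5 : ((a - b : ℤ) : eis) + ((k - m : ℤ) : eis) * la ∈ (sp 3 : Ideal eis) := by
      have h6 := Ideal.mul_mem_left _ u' h4
      rwa [← mul_assoc, hu', one_mul] at h6
    obtain ⟨h6, h7⟩ := inj hu.2.1 hv.2.1 hu.2.2 hv.2.2 h5
    rw [h6, h7]
  have h1 : ∑ u ∈ U, G u = ∑ y ∈ (U ×ˢ (KK ×ˢ KK)).image g, F y.out := by
    rw [Finset.sum_image hginj, Finset.sum_product]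
    refine Finset.sum_congr rfl fun u hu => ?_
    rw [← hG u (hUu u hu), Finset.sum_product]
    exact Finset.sum_congr rfl fun a _ => Finset.sum_congr rfl fun k _ =>
      hper _ _ (out_mk (sp fT) (u * el a k))
  rw [h1]
  symm
  refine Finset.sum_subset (Finset.subset_univ _) fun y _ hy => hF0 _ ?_
  intro hcop
  obtain ⟨u, hu, hu'⟩ := cop_three hcop
  apply hy
  rw [Ideal.mem_span_singleton'] at hu'
  obtain ⟨t, ht⟩ := hu'
  obtain ⟨u', hu''⟩ := hu.exists_right_inv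
  obtain ⟨a, ha, k, hk, hk'⟩ := cls (t * u')
  rw [Finset.mem_image]
  refine ⟨(u, a, k), ?_, ?_⟩
  · rw [Finset.mem_product, Finset.mem_product]
    refine ⟨?_, ha, hk⟩
    rw [unit_list] at hu
    simpa [hU] using hu
  · rw [hg]
    simp only
    rw [← Ideal.Quotient.mk_out y, eq_comm, Ideal.Quotient.mk_eq_mk_iff_sub_mem]
    have h2 : 3 * (u * (t * u' - ((a : eis) + (k : eis) * la))) ∈ (sp fT : Ideal eis) :=
      fT_mem.2 (Ideal.mul_mem_left _ _ hk')
    have e : 3 * (u * (t * u' - ((a : eis) + (k : eis) * la))) = y.out - u * el a k := by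
      unfold el
      linear_combination ht + 3 * t * hu''
    rwa [e] at h2

/-! ### the sums -/

lemma one_mem (a k : ℤ) : el a k - 1 ∈ (sp 3 : Ideal eis) := by
  unfold el
  rw [add_sub_cancel_left]
  exact Ideal.mul_mem_right _ _ (Ideal.mem_span_singleton_self 3)

lemma cop_k (a k : ℤ) : IsCoprime (el a k) 3 := cop_of_unit isUnit_one (one_mem a k)

lemma not_fT (a k : ℤ) : el a k ∉ (sp fT : Ideal eis) := by
  intro h
  have h1 := fT_three h
  have h2 := sub_mem h1 (one_mem a k)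
  rw [sub_sub_cancel] at h2
  have h3 : IsCoprime (0 : eis) 3 := by
    refine cop_of_unit isUnit_one ?_
    rw [zero_sub]
    exact neg_mem h2
  rw [isCoprime_zero_left, isUnit_iff'] at h3
  have : Complex.normSq ((3 : eis) : ℂ) = 9 := normSq_three
  rw [this] at h3
  norm_num at h3

/-- the points -/
noncomputable def pp (Ω : ℂ) (a k : ℤ) : ℂ := Ω / 9 + a * (Ω / 3) - k * (Ω / lam)

lemma pt (a k : ℤ) : Ω * ((el a k : eis) : ℂ) / ((fT : eis) : ℂ) = pp Ω a k := by
  rw [fT_coe]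
  unfold el pp
  have h := lam_ne'
  have e3 : ((3 : eis) : ℂ) = 3 := rfl
  rw [T_eq]
  push_cast
  rw [e3, la_coe]
  ring

lemma eT_val (h : S_CHI) (i : ZMod 3) (j : Fin 3) {u : eis} (hu : IsUnit u) (a k : ℤ) :
    eT i j (u * el a k) =
      (u : ℂ) ^ (2 * (j : ℕ) + 1) * (om ^ (-(i * (a : ZMod 3))).val * om ^ (-(k : ZMod 3)).val) := by
  obtain ⟨_, h2, h3, _, _, h6⟩ := h i
  unfold eT
  rw [(eo_j j).mul, ej_u j hu, ej_prim j (one_mem a k), mul_one, h2 _ _ (cop_u hu) (cop_k a k),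
    h3 u hu, one_mul]
  unfold el
  rw [h6 a k, w_om, sub_eq_add_neg, om_add]

lemma eT_ncop (i : ZMod 3) (j : Fin 3) {x : eis} (hx : ¬ IsCoprime x 3) : eT i j x = 0 := by
  unfold eT
  rw [ej_ncop j hx, zero_mul]

lemma pts (hC : Cur L Ω) (a k : ℤ) : pp Ω a k ∉ L.lattice := by
  rw [← pt, div_mem_iff hC.lat fT_ne]
  exact not_fT a k

lemma per_E (hC : Cur L Ω) {x y : eis} (h : x - y ∈ (sp fT : Ideal eis)) :
    Ω * (x : ℂ) / ((fT : eis) : ℂ) - Ω * (y : ℂ) / ((fT : eis) : ℂ) ∈ L.lattice := by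
  have := (div_mem_iff hC.lat fT_ne (x - y)).2 h
  convert this using 1
  push_cast
  ring

/-- the weight of `k` -/
noncomputable def wk (k : ℤ) : ℂ := om ^ (-(k : ZMod 3)).val

/-- the weight of `a` -/
noncomputable def wa (i : ZMod 3) (a : ℤ) : ℂ := om ^ (-(i * (a : ZMod 3))).val

lemma wk0 : wk 0 = 1 := by simp [wk]

lemma wk1 : wk 1 = om ^ 2 := by
  unfold wk
  have : (-((1 : ℤ) : ZMod 3)).val = 2 := rfl
  rw [this]

lemma wk2 : wk (-1) = om := by
  unfold wk
  have : (-((-1 : ℤ) : ZMod 3)).val = 1 := rfl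
  rw [this, pow_one]

lemma wa0 (i : ZMod 3) : wa i 0 = 1 := by simp [wa]

lemma wa1 (i : ZMod 3) : wa i 1 = om ^ (-i).val := by simp [wa]

lemma wa2 (i : ZMod 3) : wa i (-1) = om ^ i.val := by simp [wa]

/-- the sum over `k` -/
lemma key2 (hC : Cur L Ω) {z : ℂ} (h0 : z ∉ L.lattice)
    (h1 : z + Ω / lam ∉ L.lattice) (h2 : z - Ω / lam ∉ L.lattice) :
    Tendsto (fun δ : ℝ => ∑ k ∈ KK, wk k * EE eis Ω δ (z - k * (Ω / lam))) (𝓝[>] 0)
      (𝓝 (gB L (dT L Ω) z)) := by
  have h := key hC (a := om ^ 2) (b := om) (by linear_combination om_sq) h0 h1 h2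
  rw [dT_eq hC] at h
  refine h.congr fun δ => ?_
  rw [sum_KK, wk0, wk1, wk2]
  push_cast
  have e1 : z - 0 * (Ω / lam) = z := by ring
  have e2 : z - 1 * (Ω / lam) = z - Ω / lam := by ring
  have e3 : z - -1 * (Ω / lam) = z + Ω / lam := by ring
  rw [e1, e2, e3]
  ring

/-- the double sum -/
noncomputable def XX2 (Ω : ℂ) (i : ZMod 3) (δ : ℝ) (z : ℂ) : ℂ :=
  ∑ a ∈ KK, wa i a * ∑ k ∈ KK, wk k * EE eis Ω δ (z + a * (Ω / 3) - k * (Ω / lam))

lemma key3 (hC : Cur L Ω) (i : ZMod 3) {z : ℂ}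
    (h : ∀ a k : ℤ, z + a * (Ω / 3) - k * (Ω / lam) ∉ L.lattice) :
    Tendsto (fun δ : ℝ => XX2 Ω i δ z) (𝓝[>] 0) (𝓝 (gT L Ω i z)) := by
  have hz : ∀ a : ℤ, Tendsto (fun δ : ℝ => ∑ k ∈ KK, wk k * EE eis Ω δ (z + a * (Ω / 3) -
      k * (Ω / lam))) (𝓝[>] 0) (𝓝 (gB L (dT L Ω) (z + a * (Ω / 3)))) := by
    intro a
    refine key2 hC ?_ ?_ ?_
    · have := h a 0
      convert this using 1
      push_cast
      ring
    · have := h a (-1)
      convert this using 1
      push_cast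
      ring
    · have := h a 1
      convert this using 1
      push_cast
      ring
  have hl := tendsto_finsetSum KK fun a _ => (hz a).const_mul (wa i a)
  have e : ∑ a ∈ KK, wa i a * gB L (dT L Ω) (z + a * (Ω / 3)) = gT L Ω i z := by
    rw [sum_KK, wa0, wa1, wa2]
    unfold gT
    push_cast
    have e1 : z + 0 * (Ω / 3) = z := by ring
    have e2 : z + 1 * (Ω / 3) = z + Ω / 3 := by ring
    have e3 : z + -1 * (Ω / 3) = z - Ω / 3 := by ring
    rw [e1, e2, e3, w_om, one_mul]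
  rw [e] at hl
  exact hl

/-- the limits for the three characters -/
theorem lims (hS : S_CHI) (hC : Cur L Ω) (i : ZMod 3)
    [Fintype (eis ⧸ (sp fT : Ideal eis))] (j : Fin 3) :
    Tendsto (fun δ : ℝ => ∑ y : eis ⧸ (sp fT : Ideal eis),
      eT i j y.out * EE eis Ω δ (Ω * y.out / fT)) (𝓝[>] 0) (𝓝 (CT L Ω i j)) := by
  have hk := key3 hC i (z := Ω / 9) (pts hC)
  have hsum : ∀ δ : ℝ, ∑ y : eis ⧸ (sp fT : Ideal eis),
      eT i j y.out * EE eis Ω δ (Ω * y.out / fT) = (if j = 0 then 6 else 0) * XX2 Ω i δ (Ω / 9) := by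
    intro δ
    rw [sum54 (fun y => eT i j y * EE eis Ω δ (Ω * y / fT))
      (fun x hx => by rw [eT_ncop i j hx, zero_mul])
      (fun x y hxy => by
        show eT i j x * EE eis Ω δ (Ω * x / fT) = eT i j y * EE eis Ω δ (Ω * y / fT)
        rw [((hS i).2.2.2.2.1 j).per x y hxy, EE_per hC.lat δ (per_E hC hxy)])
      (fun u => (u : ℂ) ^ (2 * (j : ℕ)) * XX2 Ω i δ (Ω / 9)) ?_]
    · have h3 := om_cube
      have hs := om_sq
      generalize XX2 Ω i δ (Ω / 9) = X
      push_cast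
      rw [omr_coe]
      by_cases hj : j = 0
      · subst hj
        rw [if_pos rfl]
        simp only [Fin.val_zero, mul_zero, pow_zero, one_mul]
        ring
      · rw [if_neg hj, zero_mul]
        have hj' : (j : ℕ) = 1 ∨ (j : ℕ) = 2 := by
          have h1 := j.2
          have h2 : (j : ℕ) ≠ 0 := fun h => hj (Fin.ext h)
          omega
        rcases hj' with h | h
        · rw [h]
          linear_combination (2 * X) * hs + (2 * om * X) * h3
        · rw [h]
          linear_combination (2 * X) * hs + (2 * om * X + 2 * X * (om ^ 5 + om ^ 2)) * h3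
    · intro u hu
      have hu0 : (u : ℂ) ≠ 0 := coe_ne hu.ne_zero
      have hterm : ∀ a k : ℤ, eT i j (u * el a k) *
          EE eis Ω δ (Ω * ((u * el a k : eis) : ℂ) / fT) =
          (u : ℂ) ^ (2 * (j : ℕ)) * (wa i a * (wk k * EE eis Ω δ (pp Ω a k))) := by
        intro a k
        have e : Ω * ((u * el a k : eis) : ℂ) / ((fT : eis) : ℂ) = u * pp Ω a k := by
          rw [← pt]
          push_cast
          ring
        rw [e, EE_unit hu, eT_val hS i j hu a k, pow_succ]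
        unfold wa wk
        field_simp
      show ∑ a ∈ KK, ∑ k ∈ KK, eT i j (u * el a k) *
          EE eis Ω δ (Ω * ((u * el a k : eis) : ℂ) / fT) = (u : ℂ) ^ (2 * (j : ℕ)) * XX2 Ω i δ (Ω / 9)
      unfold XX2
      rw [Finset.mul_sum]
      refine Finset.sum_congr rfl fun a _ => ?_
      rw [Finset.mul_sum, Finset.mul_sum]
      exact Finset.sum_congr rfl fun k _ => hterm a k
  have h5 := hk.const_mul (if j = 0 then (6 : ℂ) else 0)
  have e6 : (if j = 0 then (6 : ℂ) else 0) * gT L Ω i (Ω / 9) = CT L Ω i j := by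
    unfold CT kT
    split_ifs <;> ring
  rw [e6] at h5
  exact h5.congr fun δ => (hsum δ).symm

/-- the sum of the three functions -/
theorem tot (hS : S_CHI) (hC : Cur L Ω) {i : ZMod 3} [Fintype (eis ⧸ (sp fT : Ideal eis))]
    (u : ℂ) : ∑ j : Fin 3, HH L Ω fT (eT i j) u =
      3 * ∑ a ∈ KK, wa i a * ∑ k ∈ KK, wk k * Dd L (pp Ω a k) u := by
  have h1 : ∑ j : Fin 3, HH L Ω fT (eT i j) u = (1 / 2) * ∑ y : eis ⧸ (sp fT : Ideal eis),
      (∑ j : Fin 3, eT i j y.out) * Dd L (Ω * y.out / fT) u := by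
    unfold HH
    rw [← Finset.mul_sum, Finset.sum_comm]
    congr 1
    exact Finset.sum_congr rfl fun y _ => by rw [Finset.sum_mul]
  set Y : eis → ℂ := fun x => ∑ a ∈ KK, wa i a * ∑ k ∈ KK, wk k * Dd L ((x : ℂ) * pp Ω a k) u with hY
  rw [h1, sum54 (fun y => (∑ j : Fin 3, eT i j y) * Dd L (Ω * y / fT) u)
    (fun x hx => by
      show (∑ j : Fin 3, eT i j x) * Dd L (Ω * x / fT) u = 0
      rw [Finset.sum_eq_zero fun j _ => eT_ncop i j hx, zero_mul])
    (fun x y hxy => by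
      show (∑ j : Fin 3, eT i j x) * Dd L (Ω * x / fT) u =
        (∑ j : Fin 3, eT i j y) * Dd L (Ω * y / fT) u
      rw [Finset.sum_congr rfl fun j _ => ((hS i).2.2.2.2.1 j).per x y hxy,
        Pool.Agent.TH936.PU.Dd_per (per_E hC hxy)])
    (fun x => ((x : ℂ) + x ^ 3 + x ^ 5) * Y x) ?_]
  · have h3 := om_cube
    have hs := om_sq
    have y1 : om + om ^ 3 + om ^ 5 = 0 := by linear_combination hs + (1 + om ^ 2) * h3
    have y2 : om ^ 2 + (om ^ 2) ^ 3 + (om ^ 2) ^ 5 = 0 := by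
      linear_combination hs + (om ^ 3 + 1 + om * (om ^ 6 + om ^ 3 + 1)) * h3
    have y3 : -om + (-om) ^ 3 + (-om) ^ 5 = 0 := by linear_combination -y1
    have y4 : -om ^ 2 + (-om ^ 2) ^ 3 + (-om ^ 2) ^ 5 = 0 := by linear_combination -y2
    push_cast
    rw [omr_coe, y1, y2, y3, y4]
    have e1 : Y 1 = ∑ a ∈ KK, wa i a * ∑ k ∈ KK, wk k * Dd L (pp Ω a k) u := by
      rw [hY]
      simp only [OneMemClass.coe_one, one_mul]
    have e2 : Y (-1) = -Y 1 := by
      rw [hY]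
      simp only [OneMemClass.coe_one, one_mul, NegMemClass.coe_neg, neg_mul, Dd_neg, mul_neg,
        Finset.sum_neg_distrib]
    rw [e2, ← e1]
    ring
  · intro x hx
    have h2 : ∀ a k : ℤ, (∑ j : Fin 3, eT i j (x * el a k)) =
        ((x : ℂ) + x ^ 3 + x ^ 5) * (wa i a * wk k) := by
      intro a k
      rw [Fin.sum_univ_three, eT_val hS _ _ hx, eT_val hS _ _ hx, eT_val hS _ _ hx]
      unfold wa wk
      norm_num
      ring
    have e : ∀ a k : ℤ, Ω * ((x * el a k : eis) : ℂ) / ((fT : eis) : ℂ) = x * pp Ω a k := by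
      intro a k
      rw [← pt]
      push_cast
      ring
    show ∑ a ∈ KK, ∑ k ∈ KK, (∑ j : Fin 3, eT i j (x * el a k)) *
        Dd L (Ω * ((x * el a k : eis) : ℂ) / fT) u = ((x : ℂ) + x ^ 3 + x ^ 5) * Y x
    rw [hY, Finset.mul_sum]
    refine Finset.sum_congr rfl fun a _ => ?_
    rw [Finset.mul_sum, Finset.mul_sum]
    refine Finset.sum_congr rfl fun k _ => ?_
    rw [h2, e]
    ring

/-- the second limit -/
theorem tot2 (hC : Cur L Ω) (i : ZMod 3) {c x : eis} (hc : c ≠ 0)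
    (h3 : IsCoprime 3 c) (hx : x ∉ (sp c : Ideal eis)) :
    ∑ a ∈ KK, wa i a * ∑ k ∈ KK, wk k * Dd L (pp Ω a k) (Ω * x / c) =
      gT L Ω i (Ω / 9 + Ω * x / c) + gT L Ω i (Ω / 9 - Ω * x / c) - 2 * kT L Ω i := by
  have hu : Ω * x / c ∉ L.lattice := by rwa [div_mem_iff hC.lat hc]
  have hcop : IsCoprime fT c := by
    rw [fT_eq]
    exact h3.mul_left h3
  have hn : ∀ a k : ℤ, pp Ω a k + Ω * x / c ∉ L.lattice ∧ pp Ω a k - Ω * x / c ∉ L.lattice := by
    intro a k
    rw [← pt]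
    exact cop_notMem hC.lat fT_ne hc hcop hx
  set z := Ω * (x : ℂ) / (c : ℂ) with hz
  -- the limit of the second differences
  have hl := tendsto_finsetSum KK fun a _ => (tendsto_finsetSum KK fun k _ =>
    (lim_Dd hC.lat (pts hC a k) hu (hn a k).1 (hn a k).2).const_mul (wk k)).const_mul (wa i a)
  -- the other limit
  have k1 := key3 hC i (z := Ω / 9 + z) fun a k => by
    have := (hn a k).1
    unfold pp at this
    convert this using 1
    ring
  have k2 := key3 hC i (z := Ω / 9 - z) fun a k => by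
    have := (hn a k).2
    unfold pp at this
    convert this using 1
    ring
  have k3 := key3 hC i (z := Ω / 9) (pts hC)
  have hr := (k1.add k2).sub (k3.const_mul 2)
  refine tendsto_nhds_unique hl (hr.congr fun δ => ?_)
  unfold XX2
  rw [Finset.mul_sum, ← Finset.sum_add_distrib, ← Finset.sum_sub_distrib]
  refine Finset.sum_congr rfl fun a _ => ?_
  rw [← mul_assoc 2, mul_comm 2 (wa i a), mul_assoc (wa i a) 2, ← mul_add, ← mul_sub]
  congr 1
  rw [Finset.mul_sum, ← Finset.sum_add_distrib, ← Finset.sum_sub_distrib]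
  refine Finset.sum_congr rfl fun k _ => ?_
  have s1 : Ω / 9 + z + a * (Ω / 3) - k * (Ω / lam) = pp Ω a k + z := by unfold pp; ring
  have s2 : Ω / 9 - z + a * (Ω / 3) - k * (Ω / lam) = pp Ω a k - z := by unfold pp; ring
  have s3 : Ω / 9 + a * (Ω / 3) - k * (Ω / lam) = pp Ω a k := rfl
  rw [s1, s2, s3]
  ring

end Gf

/-- L3-GF -/
theorem gf : S_GF := by
  intro hS L Ω hC i _
  refine ⟨fun j => Gf.lims hS hC i j, fun c x hc h3 hx => ?_⟩
  rw [Gf.tot hS hC, Gf.tot2 hC i hc h3 hx]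

end Pool.Agent.D0H43.L3
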