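import Pool.Agent.D0H43.L3.StmX
import Pool.Agent.Y703.CT.Ana

/-!
# Project L3: the cube of the function `gT`
-/

set_option autoImplicit false
set_option linter.unusedVariables false

open Filter
open scoped Classical Topology PeriodPair

namespace Pool.Agent.D0H43.L3

namespace Cub

open Pool.Agent.Y692.QS (w toC)
open Pool.Agent.W192.HK (sp)
open H667R3
open Pool.Agent.TH936.CM Pool.Agent.TH936.PU
open Pool.Agent.Y715.Dist Pool.Agent.Y715.Idn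
open Pool.Agent.Y696 (Cur eis om omr omr_coe)
open Pool.Agent.Y715.T.Lat (la la_coe wp_la)
open Pool.Agent.Y715.T.Three
open Pool.Agent.Y703.CT.Ana (dwp_two)
open Pool.Agent.N883.FF (gB)

variable {L : PeriodPair} {Ω : ℂ}

lemma lam_mem (hC : Cur L Ω) {z : ℂ} (hz : z ∈ L.lattice) : lam * z ∈ L.lattice := by
  have h := hC.lat.mul la _ hz
  rwa [la_coe] at h

lemma lam_lam (z : ℂ) : lam * (lam * z) = -(3 * z) := by
  linear_combination z * lam_sq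

/-- multiplication by the square root of `-3`, also at the points of order two -/
lemma wp_la' (hC : Cur L Ω) {u : ℂ} (hl : lam * u ∉ L.lattice) :
    3 * ℘[L] u ^ 2 * ℘[L] (lam * u) = -(℘[L] u ^ 3 + 1) := by
  by_cases hu : 2 * u ∈ L.lattice
  · have hu0 : u ∉ L.lattice := fun h => hl (lam_mem hC h)
    have h1 := hC.ode hu0
    rw [dwp_two hu] at h1
    have h2 : ℘[L] (lam * u) = ℘[L] u := by
      apply wp_per
      have h3 := hC.lat.mul omr _ hu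
      rw [omr_coe] at h3
      have e : lam * u - u = om * (2 * u) := by
        have : lam = 1 + 2 * om := by
          rw [← la_coe]
          show ((Pool.Agent.Y715.T.Lat.ez 1 2 : eis) : ℂ) = _
          rw [Pool.Agent.Y715.T.Lat.ez_coe]
          push_cast
          ring
        rw [this]
        ring
      rw [e]
      exact h3
    rw [h2]
    linear_combination -h1
  · exact wp_la hC hu hl

lemma wp_ne (hC : Cur L Ω) {u : ℂ} (hl : lam * u ∉ L.lattice) : ℘[L] u ≠ 0 := by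
  intro h
  have h1 := wp_la' hC hl
  rw [h] at h1
  norm_num at h1

/-- the derivative of the last relation -/
lemma dwp_la (hC : Cur L Ω) {u : ℂ} (hl : lam * u ∉ L.lattice) :
    3 * lam * (℘'[L] u ^ 2 - 1) * ℘'[L] (lam * u) = -(℘'[L] u * (℘'[L] u ^ 2 - 9)) := by
  have hu : u ∉ L.lattice := fun h => hl (lam_mem hC h)
  have hp := hasDerivAt_weierstrassP L hu
  have h0 : HasDerivAt (fun x : ℂ => lam * x) lam u := by
    simpa using (hasDerivAt_id u).const_mul lam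
  have hq : HasDerivAt (fun x => ℘[L] (lam * x)) (℘'[L] (lam * u) * lam) u :=
    (hasDerivAt_weierstrassP L hl).comp u h0
  have d1 := ((hp.fun_pow 2).const_mul 3).fun_mul hq
  have d2 := ((hp.fun_pow 3).add_const 1).fun_neg
  have h4 : (fun x => 3 * ℘[L] x ^ 2 * ℘[L] (lam * x)) =ᶠ[𝓝 u]
      (fun x => -(℘[L] x ^ 3 + 1)) := by
    have o1 : ∀ᶠ x in 𝓝 u, lam * x ∉ L.lattice := by
      have : IsOpen ((fun x => lam * x) ⁻¹' (L.lattice : Set ℂ)ᶜ) :=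
        (isOpen_compl L).preimage (by fun_prop)
      exact this.mem_nhds hl
    filter_upwards [o1] with x hx
    exact wp_la' hC hx
  have h5 := d1.unique (d2.congr_of_eventuallyEq h4)
  have h6 := wp_la' hC hl
  have h7 := hC.ode hu
  have hx := wp_ne hC hl
  set x := ℘[L] u
  set y := ℘'[L] u
  set X := ℘[L] (lam * u)
  set Y := ℘'[L] (lam * u)
  push_cast at h5
  norm_num at h5
  have h8 : 3 * lam * x ^ 3 * Y = y * (2 - x ^ 3) := by
    linear_combination x * h5 - 2 * y * h6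
  linear_combination (3 * lam * Y + y) * h7 + 4 * h8

/-- the values at the translate by a point of order three -/
lemma shift (hC : Cur L Ω) {T z x0 d : ℂ} (hx0 : ℘[L] T = x0) (hd : ℘'[L] T = -d)
    (hx3 : x0 ^ 3 = -1) (hd2 : d ^ 2 = -3) (h2T : 2 * T ∉ L.lattice) (hz : z ∉ L.lattice)
    (h1 : T + z ∉ L.lattice) (h2 : T - z ∉ L.lattice) :
    4 * (x0 - ℘[L] z) ^ 3 * ℘[L] (T + z) =
      -((℘'[L] z - d) * (x0 * (℘'[L] z - d) + 2 * d * ℘[L] z)) ∧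
    (x0 - ℘[L] z) ^ 3 * (d + ℘'[L] (T + z)) =
      3 * x0 * ℘[L] z * (x0 * (℘'[L] z - d) + 2 * d * ℘[L] z) ∧ x0 - ℘[L] z ≠ 0 := by
  have hT := two_mul_notMem_of L h2T
  have hP : x0 - ℘[L] z ≠ 0 := by
    rw [← hx0, sub_ne_zero, Ne, wp_eq_iff L hT hz]
    tauto
  have e1 := wp_add L h2T hz h1 h2
  have e2 := wp'_add L h2T hz h1 h2
  have h7 := hC.ode hz
  rw [hx0, hd, hC.g2] at e1 e2
  set X := ℘[L] z
  set Y := ℘'[L] z
  refine ⟨?_, ?_, hP⟩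
  · have e3 : 2 * (x0 - X) ^ 2 * ℘[L] (T + z) = 2 * (x0 - X) ^ 2 * x0 -
        ((6 * x0 ^ 2 - 0 / 2) * (x0 - X) - (-d - Y) * -d) := by
      rw [e1]
      field_simp
    linear_combination (2 * (x0 - X)) * e3 + (-8 * x0 + 12 * X) * hx3 + x0 * h7 +
      (3 * x0 - 4 * X) * hd2
  · have e3 : 2 * (x0 - X) ^ 3 * ℘'[L] (T + z) = 2 * (x0 - X) ^ 3 * -d -
        ((12 * x0 * -d * (x0 - X) + (6 * x0 ^ 2 - 0 / 2) * -d -
          ((6 * x0 ^ 2 - 0 / 2) * -d + (-d - Y) * (6 * x0 ^ 2 - 0 / 2))) * (x0 - X) -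
          ((6 * x0 ^ 2 - 0 / 2) * (x0 - X) - (-d - Y) * -d) * (2 * -d)) := by
      rw [e2]
      field_simp
    linear_combination (1 / 2 : ℂ) * e3 - 3 * (d + Y) * hx3 + (d + Y) * hd2

/-- the value at the translate by `T` -/
lemma hb {X Y X1 Y1 x0 d : ℂ} (hx3 : x0 ^ 3 = -1) (hd2 : d ^ 2 = -3) (ho : Y ^ 2 = 4 * X ^ 3 + 1)
    (hP : x0 - X ≠ 0) (hX1 : X1 ≠ 0)
    (h1 : 4 * (x0 - X) ^ 3 * X1 = -((Y - d) * (x0 * (Y - d) + 2 * d * X)))
    (h2 : (x0 - X) ^ 3 * (d + Y1) = 3 * x0 * X * (x0 * (Y - d) + 2 * d * X)) :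
    Y - d ≠ 0 ∧ (d - Y1) / (2 * X1) = -(x0 ^ 2 * d * (Y + d)) / (Y - d) := by
  have hP3 : (x0 - X) ^ 3 ≠ 0 := pow_ne_zero _ hP
  have hL : 4 * (x0 - X) ^ 3 * X1 ≠ 0 := mul_ne_zero (mul_ne_zero (by norm_num) hP3) hX1
  rw [h1] at hL
  have hL2 := neg_ne_zero.1 hL
  have hYd : Y - d ≠ 0 := left_ne_zero_of_mul hL2
  refine ⟨hYd, ?_⟩
  have key : -4 * d * (x0 - X) ^ 3 + 6 * x0 * X * (x0 * (Y - d) + 2 * d * X) +
      x0 ^ 2 * d * (Y + d) * (x0 * (Y - d) + 2 * d * X) = 0 := by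
    linear_combination (d * (Y ^ 2 - d ^ 2 - 4)) * hx3 - d * ho +
      (d + 2 * x0 ^ 2 * X * (Y + d)) * hd2
  rw [div_eq_div_iff (mul_ne_zero two_ne_zero hX1) hYd]
  apply mul_left_cancel₀ hP3
  linear_combination (-(Y - d)) * h2 + (x0 ^ 2 * d * (Y + d) / 2) * h1 - (Y - d) / 2 * key

/-- the value at the translate by `-T` -/
lemma hc {X Y X1 Y1 x0 d : ℂ} (hP : x0 - X ≠ 0) (hX1 : X1 ≠ 0)
    (h1 : 4 * (x0 - X) ^ 3 * X1 = -((Y - -d) * (x0 * (Y - -d) + 2 * -d * X)))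
    (h2 : (x0 - X) ^ 3 * (-d + Y1) = 3 * x0 * X * (x0 * (Y - -d) + 2 * -d * X)) :
    Y + d ≠ 0 ∧ (d - Y1) / (2 * X1) = 6 * x0 * X / (Y + d) := by
  have hP3 : (x0 - X) ^ 3 ≠ 0 := pow_ne_zero _ hP
  have hL : 4 * (x0 - X) ^ 3 * X1 ≠ 0 := mul_ne_zero (mul_ne_zero (by norm_num) hP3) hX1
  rw [h1] at hL
  have hL2 := neg_ne_zero.1 hL
  have hYd : Y - -d ≠ 0 := left_ne_zero_of_mul hL2
  have hYd' : Y + d ≠ 0 := by rwa [sub_neg_eq_add] at hYd
  refine ⟨hYd', ?_⟩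
  rw [div_eq_div_iff (mul_ne_zero two_ne_zero hX1) hYd']
  apply mul_left_cancel₀ hP3
  linear_combination (-(Y + d)) * h2 - 3 * x0 * X * h1

section alg

variable {X Y x0 d e a b c : ℂ} (hx3 : x0 ^ 3 = -1) (hd2 : d ^ 2 = -3)
  (ho : Y ^ 2 = 4 * X ^ 3 + 1) (hX : X ≠ 0) (hm : Y - d ≠ 0) (hp : Y + d ≠ 0)

include hx3 hd2 ho hX hm hp

lemma idD : ((d - Y) / (2 * X)) ^ 2 * (6 * x0 * X / (Y + d)) +
    (-(x0 ^ 2 * d * (Y + d)) / (Y - d)) ^ 2 * ((d - Y) / (2 * X)) +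
    (6 * x0 * X / (Y + d)) ^ 2 * (-(x0 ^ 2 * d * (Y + d)) / (Y - d)) = 0 := by
  have key : 3 * (Y - d) ^ 3 - x0 ^ 3 * d ^ 2 * (Y + d) ^ 3 - 72 * x0 ^ 3 * d * X ^ 3 = 0 := by
    linear_combination (-d ^ 2 * (Y + d) ^ 3 - 72 * d * X ^ 3) * hx3 + (Y + d) ^ 3 * hd2 -
      18 * d * ho - 6 * d * hd2
  field_simp
  linear_combination 2 * x0 * (Y - d) * key

omit hd2 ho in
lemma idA : (d - Y) / (2 * X) * (-(x0 ^ 2 * d * (Y + d)) / (Y - d)) * (6 * x0 * X / (Y + d)) =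
    -3 * d := by
  field_simp
  linear_combination 6 * d * (Y - d) * hx3

lemma idC {x1 P3 : ℂ} (h1 : 3 * X ^ 2 * x1 = -(X ^ 3 + 1)) (hx1 : x1 ≠ 0)
    (h2 : 3 * x1 ^ 2 * P3 = -(x1 ^ 3 + 1)) :
    ((d - Y) / (2 * X)) ^ 2 * (-(x0 ^ 2 * d * (Y + d)) / (Y - d)) +
    (-(x0 ^ 2 * d * (Y + d)) / (Y - d)) ^ 2 * (6 * x0 * X / (Y + d)) +
    (6 * x0 * X / (Y + d)) ^ 2 * ((d - Y) / (2 * X)) = -9 * x0 ^ 2 * d * P3 := by
  have e1 : x1 = -(X ^ 3 + 1) / (3 * X ^ 2) := by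
    field_simp
    linear_combination h1
  have e2 : P3 = -(x1 ^ 3 + 1) / (3 * x1 ^ 2) := by
    field_simp
    linear_combination h2
  have hX3 : X ^ 3 + 1 ≠ 0 := by
    intro h
    apply mul_ne_zero hm hp
    linear_combination ho - hd2 + 4 * h
  have hmp : (Y - d) * (Y + d) = 4 * (X ^ 3 + 1) := by linear_combination ho - hd2
  have hpm : (Y + d) ^ 3 - (Y - d) ^ 3 = 24 * d * X ^ 3 := by
    linear_combination 6 * d * ho + 2 * d * hd2
  have hdx : d ^ 2 * x0 ^ 3 = 3 := by linear_combination x0 ^ 3 * hd2 - 3 * hx3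
  have hB : d * (Y + d) ^ 3 * (-((Y - d) ^ 3) + d * 24 * X ^ 3 * x0 ^ 3) -
      72 * X ^ 3 * (Y - d) ^ 3 = 64 * d * (27 * X ^ 6 - (X ^ 3 + 1) ^ 3) := by
    linear_combination -d * (((Y - d) * (Y + d)) ^ 2 + (Y - d) * (Y + d) * (4 * (X ^ 3 + 1)) +
      16 * (X ^ 3 + 1) ^ 2) * hmp + 24 * X ^ 3 * (Y + d) ^ 3 * hdx + 72 * X ^ 3 * hpm
  rw [e2, e1]
  field_simp
  linear_combination 9 * x0 ^ 2 * (X ^ 3 + 1) ^ 2 * hB - 36 * d * x0 ^ 2 *
    (27 * X ^ 6 - (X ^ 3 + 1) ^ 3) * ((Y - d) * (Y + d) + 4 * (X ^ 3 + 1)) * hmp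

lemma idB {e P3 : ℂ} (h1 : 3 * (Y ^ 2 - 1) * e = -(Y * (Y ^ 2 - 9)))
    (h2 : -9 * (e ^ 2 + 3) * P3 = e * (e ^ 2 + 27)) :
    ((d - Y) / (2 * X)) ^ 3 + (-(x0 ^ 2 * d * (Y + d)) / (Y - d)) ^ 3 +
    (6 * x0 * X / (Y + d)) ^ 3 = -27 / 2 * P3 + 9 / 2 * d := by
  have hmd : (Y - d) ^ 3 = -3 * (Y ^ 2 - 1) * (e + d) := by
    linear_combination -(d - 3 * Y) * hd2 + h1
  have hpd : (Y + d) ^ 3 = 3 * (Y ^ 2 - 1) * (d - e) := by
    linear_combination (d + 3 * Y) * hd2 + h1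
  have n1 : e + d ≠ 0 := right_ne_zero_of_mul (hmd ▸ pow_ne_zero 3 hm)
  have n2 : e - d ≠ 0 := by
    have := right_ne_zero_of_mul (hpd ▸ pow_ne_zero 3 hp)
    rw [← neg_sub]
    exact neg_ne_zero.2 this
  have a3 : ((d - Y) / (2 * X)) ^ 3 = 3 / 2 * (d + e) := by
    rw [div_pow, div_eq_iff (pow_ne_zero 3 (mul_ne_zero two_ne_zero hX))]
    linear_combination (d - 3 * Y) * hd2 + 3 * (d + e) * ho - h1
  have b3 : (-(x0 ^ 2 * d * (Y + d)) / (Y - d)) ^ 3 = 3 * d * (e - d) / (e + d) := by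
    rw [div_pow, div_eq_div_iff (pow_ne_zero 3 hm) n1]
    linear_combination (-x0 ^ 6 * d ^ 3 * (e + d)) * hpd - 3 * d * (e - d) * hmd +
      3 * (Y ^ 2 - 1) * (d - e) * (e + d) * (-d ^ 3 * (x0 ^ 3 - 1) * hx3 - d * hd2)
  have c3 : (6 * x0 * X / (Y + d)) ^ 3 = 18 / (e - d) := by
    rw [div_pow, div_eq_div_iff (pow_ne_zero 3 hp) n2]
    linear_combination 216 * X ^ 3 * (e - d) * hx3 + 54 * (e - d) * ho - 18 * hpd
  rw [a3, b3, c3]
  apply mul_left_cancel₀ (mul_ne_zero n1 n2)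
  have e1 : (e + d) * (e - d) * (3 / 2 * (d + e) + 3 * d * (e - d) / (e + d) + 18 / (e - d)) =
      (e + d) * (e - d) * (3 / 2 * (d + e)) + 3 * d * (e - d) ^ 2 + 18 * (e + d) := by
    field_simp
  rw [e1]
  linear_combination -(3 / 2) * h2 + (6 * d - (15 / 2) * e - (27 / 2) * P3) * hd2

end alg

lemma cube_alg {A B C t S T : ℂ} (ht : t ^ 3 = 1) (h1 : A * B * C = S)
    (h2 : A ^ 2 * B + B ^ 2 * C + C ^ 2 * A = T)
    (h3 : A ^ 2 * C + B ^ 2 * A + C ^ 2 * B = 0) :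
    (A + t * B + t ^ 2 * C) ^ 3 = A ^ 3 + B ^ 3 + C ^ 3 + 6 * S + 3 * t * T := by
  linear_combination 6 * t ^ 3 * h1 + 3 * t * h2 + 3 * t ^ 2 * h3 + (B ^ 3 + (t ^ 3 + 1) * C ^ 3 +
    3 * t * B ^ 2 * C + 3 * t * A * C ^ 2 + 3 * t ^ 2 * B * C ^ 2 + 6 * S) * ht

end Cub

open Pool.Agent.Y692.QS in
lemma w_three : toC w ^ 3 = 1 := by
  have : (w : Ei) ^ 3 = 1 := by decide
  rw [← map_pow, this, map_one]

open Pool.Agent.Y692.QS in
lemma w_pow {n m : ℕ} (h : n % 3 = m % 3) : toC w ^ n = toC w ^ m := by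
  rw [← Nat.div_add_mod n 3, ← Nat.div_add_mod m 3, h, pow_add, pow_add, pow_mul, pow_mul,
    w_three, one_pow, one_pow]

lemma val_two : ∀ i : ZMod 3, i.val % 3 = ((-i).val * 2) % 3 := by decide

open Pool.Agent.Y692.QS Cub Pool.Agent.Y696 Pool.Agent.Y715.T.Three H667R3 Pool.Agent.TH936.CM
  Pool.Agent.TH936.PU Pool.Agent.N883.FF in
/-- L3-CUBE. -/
theorem cube : S_CUBE := by
  intro L Ω hC i
  set x0 := ℘[L] (Ω / 3) with hx0
  set d := dT L Ω with hd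
  have hd' : ℘'[L] (Ω / 3) = -d := by rw [hd, dT, neg_neg]
  have hx3 : x0 ^ 3 = -1 := hC.x0
  have hd2 : d ^ 2 = -3 := by
    have := hC.y0
    rw [hd'] at this
    linear_combination this
  set t : ℂ := toC w ^ (-i).val with ht
  have ht3 : t ^ 3 = 1 := by
    rw [ht, ← pow_mul, mul_comm, pow_mul, w_three, one_pow]
  have ht2 : toC w ^ i.val = t ^ 2 := by
    rw [ht, ← pow_mul]
    exact w_pow (val_two i)
  refine ⟨t * x0 ^ 2, ?_, fun z hz => ?_⟩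
  · linear_combination x0 ^ 6 * ht3 + (x0 ^ 3 - 1) * hx3
  have hΩ : Ω ∈ L.lattice := (hC.lat.mem Ω).2 ⟨1, by push_cast; ring⟩
  -- the points outside the lattice
  have n3 : 3 * z ∉ L.lattice := fun h => hz (lam_mem hC h)
  have n2 : lam * (lam * z) ∉ L.lattice := by
    rw [lam_lam, neg_mem_iff]
    exact n3
  have n2' : lam * (lam * (lam * z)) ∉ L.lattice := by
    rw [lam_lam, neg_mem_iff]
    convert hz using 1
    ring
  have n1 : lam * z ∉ L.lattice := fun h => n2 (lam_mem hC h)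
  have n0 : z ∉ L.lattice := fun h => n1 (lam_mem hC h)
  have mT : ∀ u : ℂ, u ∈ L.lattice → 3 * u ∈ L.lattice := fun u hu => by
    have : 3 * u = u + (u + u) := by ring
    rw [this]
    exact add_mem hu (add_mem hu hu)
  have lp : lam * (Ω / 3 + z) ∉ L.lattice := by
    intro h
    apply hz
    have h1 := sub_mem (mT _ h) (lam_mem hC hΩ)
    convert h1 using 1
    ring
  have lm : lam * (-(Ω / 3) + z) ∉ L.lattice := by
    intro h
    apply hz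
    have h1 := add_mem (mT _ h) (lam_mem hC hΩ)
    convert h1 using 1
    ring
  have p1 : Ω / 3 + z ∉ L.lattice := fun h => lp (lam_mem hC h)
  have p2 : -(Ω / 3) + z ∉ L.lattice := fun h => lm (lam_mem hC h)
  have p3 : Ω / 3 - z ∉ L.lattice := by
    rw [← neg_mem_iff]
    convert p2 using 1
    ring
  have p4 : -(Ω / 3) - z ∉ L.lattice := by
    rw [← neg_mem_iff]
    convert p1 using 1
    ring
  obtain ⟨s1, s2, s3⟩ := shift hC (T := Ω / 3) (z := z) (x0 := x0) (d := d) rfl hd' hx3 hd2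
    hC.third_two n0 p1 p3
  obtain ⟨r1, r2, r3⟩ := shift hC (T := -(Ω / 3)) (z := z) (x0 := x0) (d := -d)
    (by rw [L.weierstrassP_neg]) (by rw [L.derivWeierstrassP_neg, hd']) hx3
    (by rw [neg_sq]; exact hd2) (by rw [mul_neg, neg_mem_iff]; exact hC.third_two) n0 p2 p4
  have ho := hC.ode n0
  have hX := wp_ne hC n1
  obtain ⟨hm, eb⟩ := hb hx3 hd2 ho s3 (wp_ne hC lp) s1 s2
  obtain ⟨hp, ec⟩ := hc r3 (wp_ne hC lm) r1 r2
  have hx1 := wp_ne hC n2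
  have w1 := wp_la' hC n1
  have w2 := wp_la' hC n2
  have w3 := dwp_la hC n1
  have w4 := dwp_la hC n2
  rw [lam_lam, L.weierstrassP_neg] at w2
  rw [lam_lam, L.derivWeierstrassP_neg] at w4
  have eg : gT L Ω i z = (d - ℘'[L] z) / (2 * ℘[L] z) +
      t * (-(x0 ^ 2 * d * (℘'[L] z + d)) / (℘'[L] z - d)) +
      t ^ 2 * (6 * x0 * ℘[L] z / (℘'[L] z + d)) := by
    rw [← eb, ← ec, gT, gB, gB, gB, ← hd, ht2, ← ht, add_comm z, sub_eq_neg_add z]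
  rw [eg, cube_alg ht3 (idA hx3 hX hm hp) (idC hx3 hd2 ho hX hm hp w1 hx1 w2)
    (idD hx3 hd2 ho hX hm hp), idB hx3 hd2 ho hX hm hp (e := lam * ℘'[L] (lam * z))
    (P3 := ℘'[L] (3 * z))]
  · ring
  · linear_combination w3
  · linear_combination 3 * lam * w4 + (-9 * ℘'[L] (3 * z) - lam * ℘'[L] (lam * z) ^ 3) * lam_sq

end Pool.Agent.D0H43.L3
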