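import Pool.Agent.D0H43.L3.StmX
import Pool.Agent.D0H43.L3.Cube
import Pool.Agent.N883.FF.Val

/-!
# Project L3: the valuations above three of torsion values
-/

set_option autoImplicit false
set_option linter.unusedVariables false

open Filter
open scoped Classical Topology PeriodPair

namespace Pool.Agent.D0H43.L3

namespace Val

open Pool.Agent.W192.HK (sp)
open H667R3
open Pool.Agent.TH936.CM Pool.Agent.TH936.PU
open Pool.Agent.Y715.Dist Pool.Agent.Y715.Idn
open Pool.Agent.Y696 (Cur eis finite_q)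
open Pool.Agent.Y715.T.Lat (la la_coe XX sL cop_la notMem_of_cop ez ez_one mem_three)
open Pool.Agent.Y715.T.Three
open Pool.Agent.Y703.CT.Ana (rel_la' dat')
open Pool.Agent.N883.FF.Val (step sqrt_lt val_x val_d l3_lt lam_mem)

variable {L : PeriodPair} {Ω : ℂ}

lemma lam_third (hC : Cur L Ω) : lam * (Ω / 3) ∉ L.lattice := by
  have h := hC.div_iff Pool.Agent.Y696.three_ne la
  have e3 : ((3 : eis) : ℂ) = 3 := rfl
  intro hm
  have h1 : Ω * (la : eis) / (3 : eis) ∈ L.lattice := by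
    rw [la_coe, e3]
    convert hm using 1
    ring
  have h2 := h.1 h1
  have h3 : la = ez 1 2 := rfl
  rw [h3, mem_three] at h2
  omega

section val

variable {Γ : Type*} [LinearOrderedCommGroupWithZero Γ] {v : Valuation ℂ Γ}

/-- the points `Ω / 3 + 3 P` -/
lemma Y_Q (h3 : v 3 < 1) (hC : Cur L Ω) {c x : eis} (hc : c ≠ 0) (h3c : IsCoprime 3 c)
    (hct : (sp c : Ideal eis) ≠ ⊤) (hx : IsCoprime x c) :
    lam * (Ω / 3 + 3 * (Ω * x / c)) ∉ L.lattice ∧
      v (℘'[L] (Ω / 3 + 3 * (Ω * x / c))) < v lam := by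
  have hfin : ∀ q : eis, q ≠ 0 → Finite (eis ⧸ sp q) := fun q hq => finite_q hq
  set P := Ω / 3 + 3 * (Ω * x / c) with hP
  have hlne := lam_ne'
  have hlam := lam_sq
  have hcx : IsCoprime (3 * (3 * x)) c := h3c.mul_left (h3c.mul_left hx)
  have hn := notMem_of_cop hct hcx
  rw [← div_mem_iff hC.lat hc] at hn
  have e3 : ((3 : eis) : ℂ) = 3 := rfl
  have hΩ : Ω ∈ L.lattice := (hC.lat.mem Ω).2 ⟨1, by push_cast; ring⟩
  -- the point `lam ^ 2 P`
  have e : lam * (lam * P) = -(Ω + Ω * ((3 * (3 * x) : eis) : ℂ) / c) := by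
    rw [hP]
    push_cast
    rw [e3]
    linear_combination (Ω / 3 + 3 * (Ω * x / c)) * hlam
  have n2 : lam * (lam * P) ∉ L.lattice := by
    rw [e]
    intro h
    apply hn
    have h1 := sub_mem (neg_mem h) hΩ
    convert h1 using 1
    ring
  have n1 : lam * P ∉ L.lattice := fun h => n2 (lam_mem hC h)
  refine ⟨n1, ?_⟩
  have hY2 : v (℘'[L] (lam * (lam * P)) ^ 2) ≤ v lam ^ 3 := by
    have h1 := X_le h3 (dat' hC hc h3c hct hfin) ⟨3 * (3 * x), hcx⟩
    have h2 : XX L Ω c ⟨3 * (3 * x), hcx⟩ = ℘'[L] (lam * (lam * P)) ^ 2 := by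
      unfold XX
      rw [e, L.derivWeierstrassP_neg, neg_sq]
      congr 1
      apply dwp_per
      have e4 : Ω * ((3 * (3 * x) : eis) : ℂ) / c - (Ω + Ω * ((3 * (3 * x) : eis) : ℂ) / c) =
          -Ω := by ring
      rw [e4]
      exact neg_mem hΩ
    rwa [h2] at h1
  have hY1 := step h3 (rel_la' hC n2) hY2
  have hY0 := step h3 (rel_la' hC n1) hY1
  exact sqrt_lt (hY0.trans_lt (l3_lt h3))

/-- a number whose cube is one is close to one -/
lemma near_one (h3 : v 3 < 1) {t : ℂ} (ht : v (t ^ 3 - 1) < 1) : v (t - 1) < 1 ∧ v t = 1 := by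
  have h1 : v t ≤ 1 := by
    by_contra hcon
    push Not at hcon
    have h2 : v (t ^ 3 - 1) = v t ^ 3 := by
      rw [← map_pow]
      apply v.map_sub_eq_of_lt_left
      rw [map_one, map_pow]
      exact one_lt_pow₀ hcon (by norm_num)
    rw [h2] at ht
    exact absurd ht (not_lt.2 (one_le_pow₀ hcon.le))
  have h5 : v ((t - 1) ^ 3) < 1 := by
    have e : (t - 1) ^ 3 = (t ^ 3 - 1) - 3 * (t ^ 2 - t) := by ring
    rw [e]
    refine lt_of_le_of_lt (v.map_sub _ _) (max_lt ht ?_)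
    rw [map_mul]
    have h6 : v (t ^ 2 - t) ≤ 1 := by
      refine (v.map_sub _ _).trans (max_le ?_ h1)
      rw [map_pow]
      exact pow_le_one' h1 2
    exact lt_of_le_of_lt (mul_le_mul' le_rfl h6) (by rw [mul_one]; exact h3)
  have h7 : v (t - 1) < 1 := by
    rw [map_pow] at h5
    by_contra hcon
    push Not at hcon
    exact absurd h5 (not_lt.2 (one_le_pow₀ hcon))
  refine ⟨h7, ?_⟩
  have e : t = 1 - (1 - t) := by ring
  rw [e]
  apply v.map_one_sub_of_lt
  rwa [Valuation.map_sub_swap]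

lemma k_step (h3 : v 3 < 1) {k d θ x0 : ℂ} (hθ : θ ^ 3 = 1) (hx0 : x0 ^ 3 = -1)
    (hd2 : d ^ 2 = -3) (hk : 2 * k ^ 3 = -27 * (-d + 2 * d * θ * x0 + d)) :
    v k ^ 3 = v lam ^ 7 := by
  have hl := lam_lt h3
  have hθ1 : v (θ - 1) < 1 ∧ v θ = 1 := near_one h3 (by rw [hθ, sub_self, map_zero]; exact zero_lt_one)
  have hx1 : v (-x0 - 1) < 1 ∧ v (-x0) = 1 := near_one h3 (by
    have : (-x0) ^ 3 - 1 = 0 := by linear_combination -hx0
    rw [this, map_zero]; exact zero_lt_one)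
  have hvd : v d = v lam := val_d hd2
  have hk' : k ^ 3 = -27 * (d * (θ * x0)) := by linear_combination (1 / 2 : ℂ) * hk
  rw [← map_pow, hk', neg_mul, v.map_neg, map_mul, map_mul, map_mul, v_27, hvd, hθ1.2,
    ← v.map_neg x0, hx1.2, one_mul, mul_one, ← pow_succ]

/-- the final step -/
lemma fin_step (h3 : v 3 < 1) {g k d θ x0 X Y : ℂ} (hθ : θ ^ 3 = 1) (hx0 : x0 ^ 3 = -1)
    (hd2 : d ^ 2 = -3) (hk : 2 * k ^ 3 = -27 * (-d + 2 * d * θ * x0 + d))
    (hg : 2 * g ^ 3 = -27 * (Y + 2 * d * θ * X + d)) (hY : v Y < v lam) (hX : v (X + 1) < 1) :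
    v k ^ 3 = v lam ^ 7 ∧ v (g + k) < v k := by
  have hl := lam_lt h3
  have hθ1 : v (θ - 1) < 1 ∧ v θ = 1 := near_one h3 (by rw [hθ, sub_self, map_zero]; exact zero_lt_one)
  have hx1 : v (-x0 - 1) < 1 ∧ v (-x0) = 1 := near_one h3 (by
    have : (-x0) ^ 3 - 1 = 0 := by linear_combination -hx0
    rw [this, map_zero]; exact zero_lt_one)
  have hvd : v d = v lam := val_d hd2
  have hk' : k ^ 3 = -27 * (d * (θ * x0)) := by linear_combination (1 / 2 : ℂ) * hk
  have hk3 : v k ^ 3 = v lam ^ 7 := by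
    rw [← map_pow, hk', neg_mul, v.map_neg, map_mul, map_mul, map_mul, v_27, hvd, hθ1.2,
      ← v.map_neg x0, hx1.2, one_mul, mul_one, ← pow_succ]
  refine ⟨hk3, ?_⟩
  have hk0 : k ≠ 0 := by
    rintro rfl
    rw [map_zero, zero_pow (by norm_num)] at hk3
    exact absurd hk3.symm (pow_pos lam_pos 7).ne'
  have hd0 : d ≠ 0 := by
    rintro rfl
    norm_num at hd2
  have hvk : 0 < v k := (Valuation.pos_iff v).2 hk0
  -- the quotient
  set u := -(g / k) with hu
  have hgu : g = -(u * k) := by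
    rw [hu]
    field_simp
  have h2 : v 2 = 1 := v_two h3
  -- the cube of the quotient
  have hX1 : v X = 1 := by
    have e : X = -(1 - (X + 1)) := by ring
    rw [e, v.map_neg]
    exact v.map_one_sub_of_lt hX
  have h4 : v (2 * g ^ 3 + 2 * k ^ 3) < v (2 * k ^ 3) := by
    have e1 : 2 * g ^ 3 + 2 * k ^ 3 = -27 * (Y + d * (1 + 2 * θ * (X + x0))) := by
      rw [hg, hk]
      ring
    have e2 : v (2 * k ^ 3) = v 27 * v lam := by
      rw [hk', map_mul, h2, one_mul, neg_mul, v.map_neg, map_mul, map_mul, map_mul, hvd, hθ1.2,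
        ← v.map_neg x0, hx1.2, one_mul, mul_one]
    rw [e1, e2, neg_mul, v.map_neg, map_mul]
    have h27 : 0 < v 27 := by
      rw [v_27]
      exact pow_pos lam_pos 6
    apply mul_lt_mul_of_pos_left _ h27
    refine lt_of_le_of_lt (v.map_add _ _) (max_lt hY ?_)
    rw [map_mul, hvd]
    have h6 : v (1 + 2 * θ * (X + x0)) < 1 := by
      have e : 1 + 2 * θ * (X + x0) = 2 * θ * (X + 1) - 2 * θ * (-x0 - 1) - (4 * (θ - 1) + 3) := by
        ring
      rw [e]
      have t1 : v (2 * θ * (X + 1)) < 1 := by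
        rw [map_mul, map_mul, h2, hθ1.2, one_mul, one_mul]
        exact hX
      have t2 : v (2 * θ * (-x0 - 1)) < 1 := by
        rw [map_mul, map_mul, h2, hθ1.2, one_mul, one_mul]
        exact hx1.1
      have t3 : v (4 * (θ - 1) + 3) < 1 := by
        refine lt_of_le_of_lt (v.map_add _ _) (max_lt ?_ h3)
        rw [map_mul, Pool.Agent.N883.FF.Val.v_four h3, one_mul]
        exact hθ1.1
      exact lt_of_le_of_lt (v.map_sub _ _)
        (max_lt (lt_of_le_of_lt (v.map_sub _ _) (max_lt t1 t2)) t3)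
    calc v lam * v (1 + 2 * θ * (X + x0)) < v lam * 1 := mul_lt_mul_of_pos_left h6 lam_pos
      _ = v lam := mul_one _
  have h5 : v (u ^ 3 - 1) < 1 := by
    have e : 2 * g ^ 3 + 2 * k ^ 3 = -((u ^ 3 - 1) * (2 * k ^ 3)) := by
      rw [hgu]
      ring
    rw [e, v.map_neg, map_mul] at h4
    have hp : 0 < v (2 * k ^ 3) := (Valuation.pos_iff v).2 (mul_ne_zero two_ne_zero (pow_ne_zero 3 hk0))
    by_contra hcon
    push Not at hcon
    have := mul_le_mul_left hcon (v (2 * k ^ 3))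
    rw [one_mul] at this
    exact absurd h4 (not_lt.2 this)
  have h7 := (near_one h3 h5).1
  have e : g + k = -((u - 1) * k) := by
    rw [hgu]
    ring
  rw [e, v.map_neg, map_mul]
  calc v (u - 1) * v k < 1 * v k := mul_lt_mul_of_pos_right h7 hvk
    _ = v k := one_mul _

end val

end Val

open Val Pool.Agent.W192.HK Pool.Agent.Y696 Pool.Agent.Y715.T.Three in
/-- L3-VAL. -/
theorem val : S_VAL := by
  intro hcub Γ _ v h3 L Ω hC i
  obtain ⟨θ, hθ, hcb⟩ := hcub L Ω hC i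
  have hk : 2 * kT L Ω i ^ 3 = -27 * (℘'[L] (Ω / 3) + 2 * dT L Ω * θ * ℘[L] (Ω / 3) + dT L Ω) := by
    have h := hcb (Ω / 9) (by
      have e : lam * (3 * (Ω / 9)) = lam * (Ω / 3) := by ring
      rw [e]
      exact lam_third hC)
    have e : 3 * (Ω / 9) = Ω / 3 := by ring
    rw [e] at h
    exact h
  have hd' : ℘'[L] (Ω / 3) = -dT L Ω := by rw [dT, neg_neg]
  rw [hd'] at hk
  have hd2 : dT L Ω ^ 2 = -3 := by
    have := hC.y0
    rw [hd'] at this
    linear_combination this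
  refine ⟨k_step h3 hθ hC.x0 hd2 hk, fun c x hc h3c hct hx => ?_⟩
  obtain ⟨n1, hY⟩ := Y_Q h3 hC hc h3c hct hx
  have n0 : Ω / 3 + 3 * (Ω * x / c) ∉ L.lattice := fun h =>
    n1 (Pool.Agent.N883.FF.Val.lam_mem hC h)
  have h := hcb (Ω / 9 + Ω * x / c) (by
    have e : lam * (3 * (Ω / 9 + Ω * x / c)) = lam * (Ω / 3 + 3 * (Ω * x / c)) := by ring
    rw [e]
    exact n1)
  have e : 3 * (Ω / 9 + Ω * x / c) = Ω / 3 + 3 * (Ω * x / c) := by ring
  rw [e] at h
  exact (fin_step h3 hθ hC.x0 hd2 hk h hY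
    (Pool.Agent.N883.FF.Val.val_x h3 (hC.ode n0) hY).2).2

end Pool.Agent.D0H43.L3
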