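import Pool.Agent.D0H43.L3.Anb
import Pool.Agent.D0H43.L3.Anv
import Pool.Agent.D0H43.L3.Hec
import Pool.Agent.D0H43.L3.Rec
import Pool.Agent.D0H43.L3.Dne
import Pool.Agent.D0H43.L3.Val
import Pool.Agent.D0H43.L3.Gf
import Pool.Agent.D0H43.L3.Chi
import Pool.Agent.N883.FF.Dist

/-!
# Project L3: the analytic part, assembled
-/

set_option autoImplicit false

namespace Pool.Agent.D0H43.L3

/-- the valuation of the central value -/
theorem t_ANT : S_ANT :=
  ant chi Pool.Agent.N883.FF.dist gf cube val dre dne recT hec anv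

end Pool.Agent.D0H43.L3
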