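import Pool.Agent.D0H43.L3.Defs
import Pool.Agent.Y703.CX.Stm

/-!
# Project L3: the numbers `D = 3 d` over `ℤ`
-/

set_option autoImplicit false
set_option linter.unusedVariables false

open scoped Classical

namespace Pool.Agent.D0H43.L3

open Finset
open Pool.Agent.Y692.QS (Ei w nr toC)
open Pool.Agent.Y703.CT (Dt pD)
open Pool.Agent.Y703.CX (Gd c3)

/-- the class of `D = 3 d`: `d ≠ 1` is cube-free and all its prime factors are `1` modulo `3` -/
def Cl3 (d : ℕ) : Prop := d ≠ 0 ∧ d ≠ 1 ∧ (∀ p : ℕ, p.Prime → ¬ p ^ 3 ∣ d) ∧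
  ∀ p : ℕ, p.Prime → p ∣ d → p % 3 = 1

/-- `D` is not a product `d₀ d₁ d₂` of coprime factors, at least two of them different from `1`,
such that `d₁ d₂²`, `d₂ d₀²`, `d₀ d₁²` are cubes modulo the primes `≠ 3` dividing `d₀`, `d₁`, `d₂` -/
def NoSplit3 (D : ℕ) : Prop :=
  ∀ d : ZMod 3 → ℕ, ∏ c, d c = D → (∀ c c', c ≠ c' → Nat.Coprime (d c) (d c')) →
    (∀ (c : ZMod 3) (p : ℕ), p.Prime → p ≠ 3 → p ∣ d c →
      ∃ x : ℤ, (p : ℤ) ∣ (d (c + 1) : ℤ) * (d (c + 2) : ℤ) ^ 2 - x ^ 3) →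
    ∃ c, ∀ c', c' ≠ c → d c' = 1

/-- L3-CRI: the criterion over `ℤ` and the criterion over the Eisenstein integers. -/
def S_CRI3 : Prop := ∀ d : ℕ, Cl3 d →
  ∀ (J : Type) [Fintype J] (π : J → Ei) (e : J → ZMod 3),
    Dt π e → (d : Ei) = pD π e → (KerT π e 0 ↔ NoSplit3 (3 * d))

/-- L3-DEN: the exact proportion over `ℚ`. (`Gd (insert 3 S)` of `Pool.Agent.Y703.CX.Stm` is the
criterion for the set `S` of the prime factors of a squarefree `d`.) -/
def S_DEN3 : Prop := Filter.Tendsto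
  (fun X : ℕ => (((Icc 1 X).filter fun d => Squarefree d ∧ Cl3 d ∧ NoSplit3 (3 * d)).card : ℝ) /
    (((Icc 1 X).filter fun d => Squarefree d ∧ Cl3 d).card : ℝ)) Filter.atTop (nhds c3)

end Pool.Agent.D0H43.L3
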