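import Pool.Agent.D0H43.L3.DefsQ
import Pool.Agent.Y274.CT.ExiCnt
import Pool.Agent.D0H43.L3.Sel

/-!
# Project L3: the factorization of `d` in the Eisenstein integers
-/

set_option autoImplicit false

open scoped Classical

namespace Pool.Agent.D0H43.L3.Exi

open Pool.Agent.Y692.QS
open Pool.Agent.Y715.T.Rs Pool.Agent.Y715.T.Rec
open Pool.Agent.Y703.CT
open Pool.Agent.Y715.T.RecG (Pq)
open Pool.Agent.Y274.CT

lemma base {d : ℕ} (h : Cl3 d) : Base d := by
  refine ⟨h.1, fun h3 => ?_, h.2.2.1⟩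
  have := h.2.2.2 3 Nat.prime_three h3
  omega

/-- `d` is `1` modulo three -/
lemma mod_three {d : ℕ} (h0 : d ≠ 0) (h : ∀ p : ℕ, p.Prime → p ∣ d → p % 3 = 1) : d % 3 = 1 := by
  induction d using Nat.recOnMul with
  | zero => exact absurd rfl h0
  | one => rfl
  | prime p hp => exact h p hp dvd_rfl
  | mul a b ha hb =>
    have ha0 : a ≠ 0 := left_ne_zero_of_mul h0
    have hb0 : b ≠ 0 := right_ne_zero_of_mul h0
    have h1 := ha ha0 fun p hp hd => h p hp (Dvd.dvd.mul_right hd _)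
    have h2 := hb hb0 fun p hp hd => h p hp (Dvd.dvd.mul_left hd _)
    rw [Nat.mul_mod, h1, h2]

lemma pD_three {J : Type} [Fintype J] {π : J → Ei} {e : J → ZMod 3} (hdt : Dt π e) :
    (3 : Ei) ∣ pD π e - 1 := by
  unfold pD
  have h : ∀ S : Finset J, (3 : Ei) ∣ ∏ j ∈ S, π j ^ (e j).val - 1 := by
    intro S
    induction S using Finset.induction_on with
    | empty => simp
    | insert j S hj ih =>
      rw [Finset.prod_insert hj]
      have h1 : (3 : Ei) ∣ π j ^ (e j).val - 1 := by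
        have := sub_dvd_pow_sub_pow (π j) 1 (e j).val
        rw [one_pow] at this
        exact dvd_trans (hdt.pq j).three this
      have e1 : π j ^ (e j).val * ∏ k ∈ S, π k ^ (e k).val - 1 =
          (π j ^ (e j).val - 1) * (∏ k ∈ S, π k ^ (e k).val) +
            (∏ k ∈ S, π k ^ (e k).val - 1) := by ring
      rw [e1]
      exact dvd_add (Dvd.dvd.mul_right h1 _) ih
  exact h _

theorem exi {d : ℕ} (h : Cl3 d) : ∃ (n : ℕ) (π : Fin n → Ei) (e : Fin n → ZMod 3), Dt π e ∧
    (d : Ei) = pD π e := by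
  obtain ⟨n, π, e, hdt, h1 | h1⟩ := t_exi d (base h)
  · exact ⟨n, π, e, hdt, h1⟩
  · exfalso
    have h2 := pD_three hdt
    have h3 := mod_three h.1 h.2.2.2
    obtain ⟨k, hk⟩ : ∃ k, d = 3 * k + 1 := ⟨d / 3, by omega⟩
    have h4 : pD π e = -((d : ℕ) : Ei) := by rw [h1, neg_neg]
    rw [h4, hk] at h2
    have h5 : (3 : Ei) ∣ 2 := by
      have : (2 : Ei) = -(-(((3 * k + 1 : ℕ)) : Ei) - 1) - 3 * (k : Ei) := by push_cast; ring
      rw [this]
      exact dvd_sub (dvd_neg.2 h2) (dvd_mul_right _ _)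
    have h6 := (int_dvd_int (n := 3) (k := 2)).1 (by push_cast; exact h5)
    revert h6
    decide

/-- the number of the primes -/
theorem cnt {D : ℕ} (hD : Cl3 D) {J : Type} [Fintype J] {π : J → Ei} {e : J → ZMod 3}
    (hdt : Dt π e) (hDp : (D : Ei) = pD π e) : Fintype.card J = 2 * D.primeFactors.card := by
  have hB := base hD
  have hqu := hD.2.2.2
  have hD0 := hB.1
  -- divisors of D
  have hpD : ∀ x : Ei, x ∣ (D : Ei) ↔ x ∣ pD π e := by
    intro x
    rw [hDp]
  have hπD : ∀ j, π j ∣ (D : Ei) := by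
    intro j
    rw [hpD]
    refine dvd_trans (dvd_pow_self (π j) ?_) (Finset.dvd_prod_of_mem _ (Finset.mem_univ j))
    intro h
    exact hdt.e0 j ((ZMod.val_eq_zero _).1 h)
  have hex : ∀ ρ : Ei, Pq ρ → ρ ∣ (D : Ei) → ∃ j, π j = ρ := by
    intro ρ hρ hd
    rw [hpD] at hd
    obtain ⟨j, -, hj⟩ := (hρ.prime.dvd_finsetProd_iff _).1 hd
    exact ⟨j, (eq_of_dvd (hdt.pq j) hρ (hρ.prime.dvd_of_dvd_pow hj)).symm⟩
  have hinj : ∀ i j, π i = π j → i = j := by
    intro i j h
    by_contra hne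
    exact hdt.nd i j hne (by rw [h])
  choose f hf1 hf2 hf3 using fun j => exists_p (hdt.pq j).prime
  have hfD : ∀ j, f j ∣ D := by
    intro j
    by_contra hcon
    exact coprime_dvd (hdt.pq j).prime ((Nat.Prime.coprime_iff_not_dvd (hf1 j)).2 hcon) (hf2 j)
      (hπD j)
  have hfiff : ∀ j (p : ℕ), p.Prime → (f j = p ↔ π j ∣ (p : Ei)) := by
    intro j p hp
    constructor
    · rintro rfl
      exact hf2 j
    · intro h
      by_contra hne
      exact coprime_dvd (hdt.pq j).prime ((Nat.coprime_primes (hf1 j) hp).2 hne) (hf2 j) h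
  have hmaps : ∀ j ∈ (Finset.univ : Finset J), f j ∈ D.primeFactors := fun j _ =>
    Nat.mem_primeFactors.2 ⟨hf1 j, hfD j, hD0⟩
  have hcard := Finset.card_eq_sum_card_fiberwise hmaps
  have hn3 : ∀ p : ℕ, p ∣ D → p ≠ 3 := by
    rintro p hp rfl
    exact hB.2.1 hp
  have hp2 : ∀ p ∈ D.primeFactors, (Finset.univ.filter fun j => f j = p).card = 2 := by
    intro p hp
    rw [Nat.mem_primeFactors] at hp
    obtain ⟨hpp, hpd, -⟩ := hp
    have hp1 := hqu p hpp hpd
    have hpD' : (p : Ei) ∣ (D : Ei) := by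
      obtain ⟨c, hc⟩ := hpd
      exact ⟨(c : Ei), by rw [hc]; push_cast; rfl⟩
    obtain ⟨σ, hσ, hσn⟩ := exists_one hpp hp1
    have hσp : (p : Ei) = σ * star σ := by
      rw [mul_star, hσn]
      push_cast
      rfl
    have hσ3 : ¬ σ ∣ 3 := not_three hB.2.1 hσ (dvd_trans ⟨star σ, hσp⟩ hpD')
    have hρ := pq_ns hσ hσ3
    set ρ := ns σ with hρd
    have hρn : nr ρ = p := by rw [hρd, nr_ns (nr_three hσ hσ3), hσn]
    have hρp : (p : Ei) = ρ * star ρ := by
      rw [mul_star, hρn]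
      push_cast
      rfl
    have hρs : Pq (star ρ) := by
      refine ⟨Pool.Agent.Y715.T.RecC.star_prime hρ.prime, ?_⟩
      have h1 := Pool.Agent.Y715.T.RecC.star_dvd hρ.three
      rw [star_sub, star_one] at h1
      have h2 : star (3 : Ei) = 3 := by decide
      rwa [h2] at h1
    have hne : ¬ ρ ∣ star ρ := not_dvd_star hpp (hn3 p hpd) hρn
    obtain ⟨i, hi⟩ := hex ρ hρ (dvd_trans ⟨star ρ, hρp⟩ hpD')
    obtain ⟨i', hi'⟩ := hex (star ρ) hρs (dvd_trans ⟨ρ, by rw [hρp, mul_comm]⟩ hpD')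
    rw [Finset.card_eq_two]
    refine ⟨i, i', ?_, ?_⟩
    · rintro rfl
      apply hne
      have h1 : star ρ = ρ := by
        rw [← hi']
        exact hi
      rw [h1]
    · ext j
      rw [Finset.mem_filter, Finset.mem_insert, Finset.mem_singleton, hfiff j p hpp]
      constructor
      · rintro ⟨-, h⟩
        rw [hρp] at h
        rcases (hdt.pq j).prime.dvd_or_dvd h with h | h
        · left
          apply hinj
          rw [hi]
          exact eq_of_dvd hρ (hdt.pq j) h
        · right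
          apply hinj
          rw [hi']
          exact eq_of_dvd hρs (hdt.pq j) h
      · rintro (rfl | rfl)
        · refine ⟨Finset.mem_univ _, ?_⟩
          rw [hi, hρp]
          exact dvd_mul_right _ _
        · refine ⟨Finset.mem_univ _, ?_⟩
          rw [hi', hρp]
          exact dvd_mul_left _ _
  rw [Finset.card_univ, Finset.sum_congr rfl hp2, Finset.sum_const, smul_eq_mul, mul_comm] at hcard
  exact hcard

end Pool.Agent.D0H43.L3.Exi
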