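import Pool.Agent.D0H43.L3.StmS
import Pool.Agent.Y180.CT.Loc3

/-!
# Project L3: the local condition at the prime above three
-/

set_option autoImplicit false
set_option linter.unusedSectionVars false
set_option linter.unusedVariables false

namespace Pool.Agent.D0H43.L3

namespace Loc3

open WeierstrassCurve
open Pool.Agent.Y692.QS
open Pool.Agent.Y715.T.Gi Pool.Agent.Y715.T.Nr Pool.Agent.Y715.T.Df Pool.Agent.Y715.T.Ell
open Pool.Agent.Y715.T.Red Pool.Agent.Y715.T.Thr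
open Pool.Agent.Y703.CT
open Pool.Agent.Y180.CT

open scoped Classical

variable {I : PadicAlgCl 3}

/-- the squares of the norms of the elements of `Kl` whose norm is the cube of a norm -/
lemma cube_sq (hI : I ^ 2 + I + 1 = 0) {X : PadicAlgCl 3} (hX : X ∈ Kl I) (hX0 : X ≠ 0) :
    ∃ m : ℤ, (‖X‖ ^ 3) ^ 2 = (3 : ℝ) ^ (3 * m) := by
  obtain ⟨m, hm⟩ := val hI (Kl_le hX) hX0
  refine ⟨m, ?_⟩
  rw [mul_comm 3 m, zpow_mul, ← hm]
  norm_cast
  ring

lemma third_sq : ((3⁻¹ : ℝ)) ^ 2 = (3 : ℝ) ^ (-2 : ℤ) := by norm_num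

lemma one_eq {t : PadicAlgCl 3} (h : ‖t‖ ≤ 3⁻¹) : ‖t / 3‖ ≤ 1 := div3_le h

/-- **the class of the ordinate** -/
theorem ord3 (hI : I ^ 2 + I + 1 = 0) {d X Y : PadicAlgCl 3} (hd : d ∈ Kl I)
    (hd1 : ‖d‖ = 3⁻¹) (hX : X ∈ Kl I) (hY : Y ∈ Kl I) (hY0 : Y ≠ 0)
    (he : Y ^ 2 + d * Y = X ^ 3) :
    ∃ n : ℕ, ∃ V ∈ Kl I, ∃ t ∈ Kl I, ‖t‖ ≤ 1 ∧ d ^ n = Y * (V ^ 3 * (1 + 3 * t)) := by
  have hd0 : d ≠ 0 := by
    rintro rfl
    rw [norm_zero] at hd1
    norm_num at hd1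
  have h3 : (3 : PadicAlgCl 3) ≠ 0 := three_ne_zero
  have hYn : 0 < ‖Y‖ := norm_pos_iff.2 hY0
  have he' : Y * (Y + d) = X ^ 3 := by rw [← he]; ring
  rcases lt_trichotomy ‖Y‖ ‖d‖ with h1 | h1 | h1
  · -- `Y` is smaller than `d`
    have h2 : ‖Y + d‖ = 3⁻¹ := by
      rw [add_comm, eq_of_lt h1, hd1]
    have hX0 : X ≠ 0 := by
      rintro rfl
      rw [zero_pow three_ne_zero] at he'
      rcases mul_eq_zero.1 he' with h | h
      · exact hY0 h
      · rw [h, norm_zero] at h2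
        norm_num at h2
    obtain ⟨m, hm⟩ := cube_sq hI hX hX0
    have h4 : ‖X‖ ^ 3 = ‖Y‖ * 3⁻¹ := by rw [← norm_pow, ← he', norm_mul, h2]
    have h5 : ‖Y / d‖ ≤ 3⁻¹ := by
      have h6 : m ≤ -2 := by
        by_contra hcon
        push Not at hcon
        have h7 : (3 : ℝ) ^ (-3 : ℤ) ≤ (3 : ℝ) ^ (3 * m) :=
          zpow_le_zpow_right₀ (by norm_num) (by omega)
        rw [← hm, h4] at h7
        rw [hd1] at h1
        have h8 : ‖Y‖ * 3⁻¹ < 3⁻¹ * 3⁻¹ := mul_lt_mul_of_pos_right h1 (by norm_num)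
        have h9 : (‖Y‖ * 3⁻¹) ^ 2 < (3⁻¹ * 3⁻¹ : ℝ) ^ 2 :=
          pow_lt_pow_left₀ h8 (by positivity) two_ne_zero
        norm_num at h7 h9
        linarith
      have h7 : (3 : ℝ) ^ (3 * m) ≤ (3 : ℝ) ^ (-6 : ℤ) :=
        zpow_le_zpow_right₀ (by norm_num) (by omega)
      rw [← hm, h4] at h7
      have h8 : (‖Y‖ * 3⁻¹) ^ 2 ≤ ((3⁻¹ : ℝ) ^ 3) ^ 2 := by
        refine h7.trans (le_of_eq ?_)
        norm_num
      have h9 := (pow_le_pow_iff_left₀ (by positivity) (by positivity) two_ne_zero).1 h8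
      rw [norm_div, hd1, div_le_iff₀ (by norm_num)]
      nlinarith
    refine ⟨2, d / X, div_mem hd hX, Y / d / 3, div_mem (div_mem hY hd) three_memK,
      one_eq h5, ?_⟩
    have hX3 : X ^ 3 ≠ 0 := pow_ne_zero 3 hX0
    field_simp
    rw [← he]
    ring
  · -- equal norms
    rw [hd1] at h1
    have h2 : ‖Y + d‖ ≤ 3⁻¹ := add_le h1.le hd1.le
    have h5 : ‖(Y + d) / d‖ ≤ 3⁻¹ := by
      by_cases hz : Y + d = 0
      · rw [hz, zero_div, norm_zero]
        norm_num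
      have hX0 : X ≠ 0 := by
        rintro rfl
        rw [zero_pow three_ne_zero] at he'
        rcases mul_eq_zero.1 he' with h | h
        · exact hY0 h
        · exact hz h
      obtain ⟨m, hm⟩ := cube_sq hI hX hX0
      have h4 : ‖X‖ ^ 3 = 3⁻¹ * ‖Y + d‖ := by rw [← norm_pow, ← he', norm_mul, h1]
      have h6 : m ≤ -2 := by
        by_contra hcon
        push Not at hcon
        have h7 : (3 : ℝ) ^ (-3 : ℤ) ≤ (3 : ℝ) ^ (3 * m) :=
          zpow_le_zpow_right₀ (by norm_num) (by omega)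
        rw [← hm, h4] at h7
        have h8 : 3⁻¹ * ‖Y + d‖ ≤ 3⁻¹ * 3⁻¹ := mul_le_mul_of_nonneg_left h2 (by norm_num)
        have h9 : (3⁻¹ * ‖Y + d‖) ^ 2 ≤ (3⁻¹ * 3⁻¹ : ℝ) ^ 2 :=
          pow_le_pow_left₀ (by positivity) h8 2
        norm_num at h7 h9
        linarith
      have h7 : (3 : ℝ) ^ (3 * m) ≤ (3 : ℝ) ^ (-6 : ℤ) :=
        zpow_le_zpow_right₀ (by norm_num) (by omega)
      rw [← hm, h4] at h7
      have h8 : (3⁻¹ * ‖Y + d‖) ^ 2 ≤ ((3⁻¹ : ℝ) ^ 3) ^ 2 := by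
        refine h7.trans (le_of_eq ?_)
        norm_num
      have h9 := (pow_le_pow_iff_left₀ (by positivity) (by positivity) two_ne_zero).1 h8
      rw [norm_div, hd1, div_le_iff₀ (by norm_num)]
      nlinarith
    have hm : -((Y + d) / d / 3) ∈ Kl I :=
      neg_mem (div_mem (div_mem (add_mem hY hd) hd) three_memK)
    obtain ⟨t, ht, ht1, et⟩ := inv_exK hm (by rw [norm_neg]; exact one_eq h5)
    refine ⟨1, -1, neg_mem (one_mem _), t, ht, ht1, ?_⟩
    have e1 : 1 + 3 * -((Y + d) / d / 3) = -(Y / d) := by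
      field_simp
      ring
    rw [e1] at et
    have e2 : d = d * (-(Y / d) * (1 + 3 * t)) := by rw [et, mul_one]
    have e3 : d * (-(Y / d) * (1 + 3 * t)) = -(Y * (1 + 3 * t)) := by
      field_simp
    rw [e3] at e2
    rw [pow_one]
    linear_combination e2
  · -- `Y` is larger than `d`
    have h2 : ‖Y + d‖ = ‖Y‖ := eq_of_lt h1
    have hX0 : X ≠ 0 := by
      rintro rfl
      rw [zero_pow three_ne_zero] at he'
      rcases mul_eq_zero.1 he' with h | h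
      · exact hY0 h
      · rw [h, norm_zero] at h2
        exact hYn.ne h2
    obtain ⟨m, hm⟩ := cube_sq hI hX hX0
    have h4 : ‖X‖ ^ 3 = ‖Y‖ * ‖Y‖ := by rw [← norm_pow, ← he', norm_mul, h2]
    have h5 : ‖d / Y‖ ≤ 3⁻¹ := by
      have h6 : 0 ≤ m := by
        obtain ⟨n, hn⟩ := val hI (Kl_le hY) hY0
        have h7 : (3 : ℝ) ^ (2 * n) = (3 : ℝ) ^ (3 * m) := by
          rw [← hm, h4, mul_comm, zpow_mul, ← hn]
          norm_cast
          ring
        have h8 := zpow_right_injective₀ (a := (3 : ℝ)) (by norm_num) (by norm_num) h7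
        have h9 : -2 < n := by
          by_contra hcon
          push Not at hcon
          have h10 : (3 : ℝ) ^ n ≤ (3 : ℝ) ^ (-2 : ℤ) :=
            zpow_le_zpow_right₀ (by norm_num) hcon
          rw [← hn, ← third_sq, ← hd1] at h10
          have h11 : ‖d‖ ^ 2 < ‖Y‖ ^ 2 := pow_lt_pow_left₀ h1 (norm_nonneg _) two_ne_zero
          linarith
        omega
      have h7 : (1 : ℝ) ≤ (3 : ℝ) ^ (3 * m) := one_le_zpow₀ (by norm_num) (by omega)
      rw [← hm, h4] at h7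
      have h8 : 1 ≤ ‖Y‖ := by
        by_contra hcon
        push Not at hcon
        have h9 : ‖Y‖ * ‖Y‖ < 1 := by nlinarith
        have h10 : (‖Y‖ * ‖Y‖) ^ 2 < 1 := pow_lt_one₀ (by positivity) h9 two_ne_zero
        linarith
      rw [norm_div, hd1]
      exact div_le_self (by norm_num) h8
    have hm' : d / Y / 3 ∈ Kl I := div_mem (div_mem hd hY) three_memK
    obtain ⟨t, ht, ht1, et⟩ := inv_exK hm' (one_eq h5)
    refine ⟨0, X / Y, div_mem hX hY, t, ht, ht1, ?_⟩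
    have e1 : Y * (X / Y) ^ 3 = 1 + 3 * (d / Y / 3) := by
      rw [div_pow, ← he]
      field_simp
    rw [pow_zero, ← mul_assoc, e1, et]

section final

variable {i₀ : QB} {hi : i₀ ^ 2 + i₀ + 1 = 0} {D : Ei} {u : QB} {a h : GK i₀ → ZMod 3}
  {ι : QB →ₐ[ℚ] PadicAlgCl 3} {R : Pt (PadicAlgCl 3)}

lemma w_unit : IsUnit w := by
  rw [isUnit_iff]
  decide

lemma three_lam : (3 : Ei) = -(lam ^ 2) := by
  have := lam_sq
  rw [this, neg_neg]

/-- the conclusion -/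
lemma fin3 (hi : i₀ ^ 2 + i₀ + 1 = 0) (ι : QB →ₐ[ℚ] PadicAlgCl 3) {v q r : Ei} {k g n : ℕ}
    (hv : IsUnit v) {V t : PadicAlgCl 3} (hV : V ∈ Kl (ι i₀)) (ht : t ∈ Kl (ι i₀))
    (ht1 : ‖t‖ ≤ 1) (e : ev (ι i₀) (iota_sq' hi ι) (v * lam ^ g * (1 + 3 * q)) *
      ev (ι i₀) (iota_sq' hi ι) (3 * (w ^ k * (1 + 3 * r))) ^ n = V ^ 3 * (1 + 3 * t)) :
    ∃ n : ℕ, 3 ∣ g + 2 * n ∧ (v * w ^ (k * n) = 1 ∨ v * w ^ (k * n) = -1) := by
  obtain ⟨q', hq'⟩ : (3 : Ei) ∣ (1 + 3 * q) * (1 + 3 * r) ^ n - 1 := by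
    have h1 : (3 : Ei) ∣ (1 + 3 * r) ^ n - 1 := by
      have h4 := sub_dvd_pow_sub_pow (1 + 3 * r) 1 n
      rw [one_pow] at h4
      exact dvd_trans ⟨r, by ring⟩ h4
    have e1 : (1 + 3 * q) * (1 + 3 * r) ^ n - 1 = ((1 + 3 * r) ^ n - 1) +
        3 * (q * (1 + 3 * r) ^ n) := by ring
    rw [e1]
    exact dvd_add h1 (dvd_mul_right _ _)
  have hq2 : (1 + 3 * q) * (1 + 3 * r) ^ n = 1 + 3 * q' := by rw [← hq']; ring
  have ez : v * lam ^ g * (1 + 3 * q) * (3 * (w ^ k * (1 + 3 * r))) ^ n =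
      (v * (-1) ^ n * w ^ (k * n)) * lam ^ (g + 2 * n) * (1 + 3 * q') := by
    rw [← hq2]
    have e3 : (3 * (w ^ k * (1 + 3 * r))) ^ n = (-1) ^ n * lam ^ (2 * n) * w ^ (k * n) *
        (1 + 3 * r) ^ n := by
      have : (3 * (w ^ k * (1 + 3 * r)) : Ei) = -1 * lam ^ 2 * w ^ k * (1 + 3 * r) := by
        have h3 : (3 : Ei) * (w ^ k * (1 + 3 * r)) = -(lam ^ 2) * (w ^ k * (1 + 3 * r)) := by
          rw [← three_lam]
        rw [h3]
        ring
      rw [this, mul_pow, mul_pow, mul_pow, ← pow_mul, ← pow_mul]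
    rw [e3, pow_add]
    ring
  rw [← map_pow, ← map_mul, ez] at e
  have hu : IsUnit (v * (-1) ^ n * w ^ (k * n)) :=
    (hv.mul ((isUnit_one.neg).pow n)).mul (w_unit.pow _)
  obtain ⟨h1, h2⟩ := fin_of hi ι hu hV ht ht1 e
  refine ⟨n, h1, ?_⟩
  have h3 : ((-1 : Ei)) ^ n * (-1) ^ n = 1 := by
    rw [← mul_pow]
    norm_num
  have h4 : v * w ^ (k * n) = (v * (-1) ^ n * w ^ (k * n)) * (-1) ^ n := by
    linear_combination (-(v * w ^ (k * n))) * h3
  rw [h4]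
  rcases neg_one_pow_eq_or Ei n with h5 | h5 <;> rcases h2 with h2 | h2 <;> rw [h2, h5]
  · left; ring
  · right; ring
  · right; ring
  · left; ring

theorem core3 {k : ℕ} {r : Ei} (hT : Tw hi (3 * (w ^ k * (1 + 3 * r))) u a)
    {v q : Ei} {g : ℕ} (hv : IsUnit v) (hK : Kc hi (v * lam ^ g * (1 + 3 * q)) h)
    (hS : St1 hi ι a h R) :
    ∃ n : ℕ, 3 ∣ g + 2 * n ∧ (v * w ^ (k * n) = 1 ∨ v * w ^ (k * n) = -1) := by
  have hI := iota_sq' hi ι
  have hI3 : ι i₀ ^ 3 = 1 := by linear_combination (ι i₀ - 1) * hI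
  obtain ⟨d, hd⟩ : ∃ d, d = ev (ι i₀) hI (3 * (w ^ k * (1 + 3 * r))) := ⟨_, rfl⟩
  have hdm : d ∈ Kl (ι i₀) := by rw [hd]; exact ev_mem hI _
  have hun : ‖ev (ι i₀) hI w‖ = 1 := by
    refine le_antisymm (ev_le hI w) ?_
    obtain ⟨u', hu'⟩ := w_unit.exists_right_inv
    have h1 : ‖ev (ι i₀) hI w‖ * ‖ev (ι i₀) hI u'‖ = 1 := by
      rw [← norm_mul, ← map_mul, hu', map_one, norm_one]
    by_contra hcon
    push Not at hcon
    have h2 := ev_le hI u'
    nlinarith [norm_nonneg (ev (ι i₀) hI w), norm_nonneg (ev (ι i₀) hI u')]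
  have hd1 : ‖d‖ = 3⁻¹ := by
    rw [hd, map_mul, map_mul, map_pow, map_ofNat, norm_mul, norm_mul, norm_pow, hun, one_pow,
      one_mul, map_add, map_one, map_mul, map_ofNat, norm_one_add (ev_le hI r), norm_three',
      mul_one]
  have hd0 : d ≠ 0 := by
    rintro rfl
    rw [norm_zero] at hd1
    norm_num at hd1
  have hU3 : ι u ^ 3 = d := by
    rw [← map_pow, hT.cube, iota_ev' hi ι, hd]
  have hU0 : ι u ≠ 0 := by
    intro h0
    rw [h0, zero_pow three_ne_zero] at hU3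
    exact hd0 hU3.symm
  -- the cube root
  obtain ⟨s, hs⟩ := IsAlgClosed.exists_pow_nat_eq (ev i₀ hi (v * lam ^ g * (1 + 3 * q)))
    (n := 3) (by norm_num)
  have hZ : ι s ^ 3 = ev (ι i₀) hI (v * lam ^ g * (1 + 3 * q)) := by
    rw [← map_pow, hs, iota_ev' hi ι]
  have hts : ∀ (τ : Au 3) (σ : GK i₀), Cmp ι τ σ → τ (ι s) = ι i₀ ^ (h σ).val * ι s := by
    intro τ σ hc
    rw [hc, hK s hs σ, map_mul, map_pow]
  have hz0 : v * lam ^ g * (1 + 3 * q) ≠ 0 := by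
    refine mul_ne_zero (mul_ne_zero hv.ne_zero (pow_ne_zero _ prime_lam.ne_zero)) ?_
    intro h0
    have h1 : ev (ι i₀) hI (1 + 3 * q) = 0 := by rw [h0, map_zero]
    rw [map_add, map_one, map_mul, map_ofNat] at h1
    exact one_add_ne (ev_le hI q) h1
  have hZ0 : ι s ^ 3 ≠ 0 := by
    rw [hZ]
    exact ev_ne hI hz0
  have hs0 : ι s ≠ 0 := fun h0 => hZ0 (by rw [h0, zero_pow three_ne_zero])
  have hZm : ι s ^ 3 ∈ Kl (ι i₀) := by rw [hZ]; exact ev_mem hI _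
  by_cases hQ0 : R - im (isE _) hI R = 0
  · -- `R` is a multiple of `T`
    obtain ⟨c, hc⟩ := ker_tt hI hQ0
    have hm : ι s ∈ Kl (ι i₀) := by
      intro τ hτ
      obtain ⟨σ, hcm⟩ := exists_cmp ι τ hτ
      have h1 := hS τ σ hcm
      rw [hc, pm_tt, jj_tt, sub_self] at h1
      have h2 := tt_eq_zero.1 h1.symm
      rw [hts τ σ hcm, h2, ZMod.val_zero, pow_zero, one_mul]
    refine fin3 (q := q) (r := r) (k := k) (n := 0) hi ι hv hm (zero_mem _)
      (by rw [norm_zero]; exact zero_le_one) ?_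
    rw [← hZ]
    ring
  · obtain ⟨x, y, hn, hR⟩ : ∃ x y, ∃ hn : (W0.baseChange (PadicAlgCl 3)).toAffine.Nonsingular x y,
        R = .some x y hn := by
      rcases R with _ | ⟨x, y, hn⟩
      · exfalso
        apply hQ0
        show (0 : Pt (PadicAlgCl 3)) - im (isE _) hI 0 = 0
        rw [map_zero, sub_zero]
      · exact ⟨x, y, hn, rfl⟩
    have he := ((isE _).eqn x y).1 hn.1
    have hx : x ≠ 0 := by
      intro h0
      apply hQ0
      rw [hR, im_some, sub_eq_zero, Affine.Point.some.injEq]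
      exact ⟨by rw [h0, mul_zero], rfl⟩
    obtain ⟨XQ, hnQ, eQ⟩ : ∃ XQ, ∃ hnQ : (W0.baseChange (PadicAlgCl 3)).toAffine.Nonsingular XQ
        (gg (ι i₀) R ^ 3), R - im (isE _) hI R = .some XQ _ hnQ := by
      rw [hR]
      obtain ⟨XQ, hnQ, eQ, -⟩ := one_sub_im (isE _) hI hn hx
      exact ⟨XQ, hnQ, eQ⟩
    by_cases hG : gg (ι i₀) R = 0
    · -- `R - J R = T`
      have hlam := lam_ne (isE (PadicAlgCl 3)) hI
      have hy : y = ι i₀ ^ 2 := by
        rw [hR, gg_some, div_eq_zero_iff] at hG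
        rcases hG with h1 | h1
        · exact sub_eq_zero.1 h1
        · exact absurd h1 (mul_ne_zero hlam hx)
      have h0 := (isE (PadicAlgCl 3)).neg_nons hn
      have hR' : -R = .some x (-y - 1) h0 := by
        rw [hR]
        exact (isE _).neg_eq hn h0
      have hgg : gg (ι i₀) (-R) = 1 / x := by
        rw [hR', gg_some, hy, div_eq_div_iff (mul_ne_zero hlam hx) hx]
        linear_combination (-2 * x) * hI
      have hx3 : x ^ 3 = -1 := by
        rw [← he, hy]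
        linear_combination (ι i₀ ^ 2 - ι i₀ + 1) * hI
      have hW3 : (ι u * gg (ι i₀) (-R)) ^ 3 = -d := by
        rw [hgg, mul_pow, hU3, div_pow, hx3, one_pow]
        ring
      have hm : ι s / (ι u * gg (ι i₀) (-R)) ∈ Kl (ι i₀) := by
        intro τ hτ
        obtain ⟨σ, hcm⟩ := exists_cmp ι τ hτ
        rw [map_div₀, hts τ σ hcm, tau_g hT (st1_neg hS) hR' hx hcm]
        have h1 := pow_three hI (-h σ)
        rw [neg_neg] at h1
        rw [← h1, mul_div_mul_left]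
        exact pow_ne_zero _ (I_ne (isE (PadicAlgCl 3)) hI)
      refine fin3 (q := q) (r := r) (k := k) (n := 2) hi ι hv
        (V := -(ι s / (ι u * gg (ι i₀) (-R)) * d)) (neg_mem (mul_mem hm hdm)) (zero_mem _)
        (by rw [norm_zero]; exact zero_le_one) ?_
      rw [← hZ, ← hd, neg_pow, mul_pow, div_pow, hW3]
      field_simp
      ring
    · -- the general case
      have hW0 : ι u * gg (ι i₀) R ≠ 0 := mul_ne_zero hU0 hG
      have hm : ι s * (ι u * gg (ι i₀) R) ∈ Kl (ι i₀) := by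
        intro τ hτ
        obtain ⟨σ, hcm⟩ := exists_cmp ι τ hτ
        rw [map_mul, hts τ σ hcm, tau_g hT hS hR hx hcm]
        have h1 := pow_cancel hI (h σ)
        linear_combination (ι s * (ι u * gg (ι i₀) R)) * h1
      obtain ⟨W, hW⟩ : ∃ W, W = ι u * gg (ι i₀) R := ⟨_, rfl⟩
      rw [← hW] at hm hW0
      have hYm : W ^ 3 ∈ Kl (ι i₀) := by
        have e : W ^ 3 = (ι s * W) ^ 3 / ι s ^ 3 := by
          rw [mul_pow, mul_div_cancel_left₀ _ hZ0]
        rw [e]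
        exact div_mem (pow_mem hm 3) hZm
      have hXm : ι u ^ 2 * XQ ∈ Kl (ι i₀) := tau_X hT hS eQ
      have heq := ((isE _).eqn _ _).1 hnQ.1
      have heY : (W ^ 3) ^ 2 + d * W ^ 3 = (ι u ^ 2 * XQ) ^ 3 := by
        rw [hW, ← hU3]
        linear_combination (ι u ^ 6) * heq
      obtain ⟨n, V, hV, t, ht, ht1, eY⟩ := ord3 hI hdm hd1 hXm hYm (pow_ne_zero 3 hW0) heY
      refine fin3 (q := q) (r := r) (k := k) (n := n) hi ι hv (V := ι s * W * V)
        (mul_mem hm hV) ht ht1 ?_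
      rw [← hZ, ← hd, eY]
      ring

end final

end Loc3

/-- **L3-LOC3** -/
theorem loc3 : S_LOC3T := by
  intro i₀ hi k r u a hT h v q g hv hK hF ι R hS
  exact Loc3.core3 hT hv hK hS

end Pool.Agent.D0H43.L3
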