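import Pool.Agent.D0H43.L3.Sel
import Pool.Agent.D0H43.L3.Loc3
import Pool.Agent.D0H43.L3.DefsQ
import Pool.Agent.D0H43.L3.Exi
import Pool.Agent.N883.FF.Ram
import Pool.Agent.N883.FF.Fin
import Pool.Agent.Y692.CT.Desq
import Pool.Agent.Y319.CT.CONVQ

/-!
# Project L3: the group of points and the `3`-part of the Tate-Shafarevich group
-/

set_option autoImplicit false
set_option linter.unusedVariables false
set_option linter.unusedSectionVars false

open scoped Classical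

namespace Pool.Agent.D0H43.L3

open NumberField IsDedekindDomain WeierstrassCurve
open Pool.Agent.Y692.QS (Ei w nr toC)
open Pool.Agent.Y715.T.Gi Pool.Agent.Y715.T.Nr Pool.Agent.Y715.T.Df Pool.Agent.Y715.T.Ell
open Pool.Agent.Y703.CT
open Pool.Agent.Y696.CTK (ED parts)
open Pool.Agent.N883.FF (isUnit_w)
open Sel (pT_ne pT_eq cf_gen gen)

namespace Fin

section
variable {J : Type} [Fintype J] {π : J → Ei} {e : J → ZMod 3} {i : ZMod 3}

lemma cf_pT (hD : Dt π e) (i : ZMod 3) : CF (pT π e i) := by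
  refine ⟨pT_ne hD i, fun d hd => (cf_gen hD 2 e).2 d ?_⟩
  rw [pT_eq, dvd_neg] at hd
  unfold gen at hd
  exact ((isUnit_w.pow i.val).dvd_mul_left).1 hd

lemma a_neT [Nonempty J] {i₀ : QB} {hi : i₀ ^ 2 + i₀ + 1 = 0} (hD : Dt π e)
    {u : QB} {a : GK i₀ → ZMod 3} (hT : Tw hi (pT π e i) u a) : ∃ σ, a σ ≠ 0 := by
  by_contra hcon
  push Not at hcon
  have hne : pT π e i ≠ 0 := pT_ne hD i
  have hb : Kc hi (pT π e i) (fun σ => -a σ) :=
    kc_of hi (Pool.Agent.Y715.T.Sel.root_ne (hi := hi) hne hT.cube) hT.cube hT.act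
  obtain ⟨j⟩ := (inferInstance : Nonempty J)
  obtain ⟨p, hp, ι, hl⟩ := exists_emb hi (hD.pq j).prime
  have hp3 := Pool.Agent.Y715.T.Sel.odd_of hi ι (hD.pq j).prime hl
    (Pool.Agent.Y48.CT.SEL.not_assoc_lam (hD.pq j))
  refine Pool.Agent.Y715.T.Sel.not_dvd_of_unr (cf_pT hD i) hb hp3 ι (hD.pq j).prime hl
    (fun τ σ _ _ => by rw [hcon σ, neg_zero]) ?_
  unfold pT pD
  refine Dvd.dvd.mul_left (Dvd.dvd.mul_left ?_ _) _
  refine (dvd_pow_self (π j) ?_).trans (Finset.dvd_prod_of_mem _ (Finset.mem_univ j))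
  rw [Ne, ZMod.val_eq_zero]
  exact hD.e0 j

end

end Fin

/-- L3-FIN over a number field -/
theorem finK (K : Type) [Field K] [NumberField K] (j : Ei ≃+* 𝓞 K)
    (J : Type) [Fintype J] [Nonempty J] (π : J → Ei) (e : J → ZMod 3) (i : ZMod 3) (hD : Dt π e)
    (hk : KerT π e i) : Finite (ED (j (pT π e i) : K)).toAffine.Point ∧
      padicValNat 3 (Nat.card (ED (j (pT π e i) : K)).toAffine.Point) = 1 ∧
      ∀ (n : ℕ) (x : Pool.Agent.TH841.NF.D.Sha (ED (j (pT π e i) : K))), 3 ^ n • x = 0 → x = 0 := by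
  have hne : pT π e i ≠ 0 := pT_ne hD i
  have hm := parts.mwt parts.trf K j _ hne fun i₀ hi u a hT =>
    Pool.Agent.Y155.CT.t_MWK _ hne i₀ hi u a hT (Fin.a_neT hD hT)
      (sel loc3 Pool.Agent.N883.FF.ram Pool.Agent.N883.FF.unr J π e i hD hk i₀ hi u a hT)
  exact ⟨hm.1, hm.2, parts.sht parts.trf K j _ hne fun i₀ hi u a hT =>
    Pool.Agent.Y155.CT.t_SHK _ hne i₀ hi u a hT
      (sel loc3 Pool.Agent.N883.FF.ram Pool.Agent.N883.FF.unr J π e i hD hk i₀ hi u a hT)⟩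

lemma exists_i : ∃ i₀ : QB, i₀ ^ 2 + i₀ + 1 = 0 := by
  obtain ⟨x, hx⟩ := IsAlgClosed.exists_root
    (Polynomial.X ^ 2 + Polynomial.X + 1 : Polynomial QB) (by
      have : (Polynomial.X ^ 2 + Polynomial.X + 1 : Polynomial QB).degree = 2 := by
        compute_degree!
      rw [this]
      norm_num)
  refine ⟨x, ?_⟩
  have h1 := hx
  rw [Polynomial.IsRoot] at h1
  simpa using h1

lemma pT_zero {d : ℕ} {J : Type} [Fintype J] {π : J → Ei} {e : J → ZMod 3}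
    (hd : (d : Ei) = pD π e) : pT π e 0 = (((3 * d : ℕ) : ℤ) : Ei) := by
  unfold pT
  rw [ZMod.val_zero, pow_zero, one_mul, ← hd]
  push_cast
  ring

/-- L3-FIN over `ℚ` -/
theorem finQ {d : ℕ} {J : Type} [Fintype J] [Nonempty J] {π : J → Ei} {e : J → ZMod 3}
    (hD : Dt π e) (hd : (d : Ei) = pD π e) (hd0 : d ≠ 0) (hk : KerT π e 0) :
    Finite (EQ (WD ((3 * d : ℕ) : ℤ))).toAffine.Point ∧
    padicValNat 3 (Nat.card (EQ (WD ((3 * d : ℕ) : ℤ))).toAffine.Point) = 1 ∧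
    ∀ (n : ℕ) (x : Pool.Agent.TH841.SH.D.Sha (EQ (WD ((3 * d : ℕ) : ℤ)))),
      3 ^ n • x = 0 → x = 0 := by
  have hne : pT π e 0 ≠ 0 := pT_ne hD 0
  obtain ⟨i₀, hi⟩ := exists_i
  obtain ⟨u, a, hT⟩ := Pool.Agent.Y319.CT.exists_tw hi hne
  have hs := sel loc3 Pool.Agent.N883.FF.ram Pool.Agent.N883.FF.unr J π e 0 hD hk i₀ hi u a hT
  have h1 := Pool.Agent.Y155.CT.t_SHK _ hne i₀ hi u a hT hs
  have h2 := Pool.Agent.Y155.CT.t_MWK _ hne i₀ hi u a hT (Fin.a_neT hD hT) hs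
  rw [pT_zero hd] at hT
  have hD0 : ((3 * d : ℕ) : ℤ) ≠ 0 := by
    have : 3 * d ≠ 0 := by omega
    exact_mod_cast this
  exact Pool.Agent.Y692.CT.desq _ hD0 i₀ hi u a hT h1 h2

end Pool.Agent.D0H43.L3
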