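import Pool.Agent.D0H43.L3.StmA
import Pool.Agent.Y703.CT.AN1

/-!
# Project L3: the valuation of the central value
-/

set_option autoImplicit false
set_option linter.unusedVariables false
set_option linter.unusedSectionVars false

open scoped Classical PeriodPair

namespace Pool.Agent.D0H43.L3

open Pool.Agent.Y692.QS (Ei w nr toC)
open Pool.Agent.Y703.CT (Dt pD chD Dt.neg)
open Pool.Agent.Y696 (Cur eis psi om)
open Pool.Agent.Y715.T.Rs (eq0)
open Pool.Agent.W192.HK (sp)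
open Pool.Agent.TH936.CM
open Pool.Agent.TH936.PU hiding v_int
open Pool.Agent.Y715.Idn Pool.Agent.Y715.Dist
open Pool.Agent.Y715.T.Three (lam lam_lt lam_ne lam_ne' sq_three v_two)
open Pool.Agent.Y715.T.Cg (Cg Zt zt_of_prim z_pow)
open Pool.Agent.Y715.Two (v_nat v_int v_unit v_mul_le_of)

lemma gz_aux {Γ : Type} [LinearOrderedCommGroupWithZero Γ] {x k : Γ} (hx : x ≠ 0)
    (hk : k ^ 3 = x ^ 7) (n : ℕ) :
    ((x ^ 6)⁻¹ * (x ^ 2 * k * x ^ n)) ^ 3 * x ^ 5 = x ^ (3 * n) := by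
  rw [mul_pow, mul_pow, mul_pow, hk]
  have h1 : (x ^ n) ^ 3 = x ^ (3 * n) := by rw [← pow_mul, mul_comm]
  rw [h1]
  have h2 : ((x ^ 6)⁻¹) ^ 3 * ((x ^ 2) ^ 3 * x ^ 7 * x ^ (3 * n)) * x ^ 5 =
      (((x ^ 6)⁻¹) ^ 3 * ((x ^ 2) ^ 3 * x ^ 7 * x ^ 5)) * x ^ (3 * n) := by
    simp only [mul_assoc, mul_comm (x ^ (3 * n))]
  rw [h2]
  have h3 : (x ^ 2) ^ 3 * x ^ 7 * x ^ 5 = (x ^ 6) ^ 3 := by
    rw [← pow_mul, ← pow_mul, ← pow_add, ← pow_add]
  rw [h3, ← mul_pow, inv_mul_cancel₀ (pow_ne_zero 6 hx), one_pow, one_mul]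

/-- **The valuation of the central value.** -/
theorem ant (h1 : S_CHI) (h2 : Pool.Agent.N883.FF.S_DIST) (h3 : S_GF) (h0 : S_CUBE) (h4 : S_VAL)
    (h5 : S_DRE) (h6 : S_DNE) (h7 : S_RECT) (h8 : S_HEC) (h9 : S_ANV) : S_ANT := by
  intro J _ _ π e i hD
  obtain ⟨F, hF, hval⟩ := h9 h1 h8 J π (fun j => -e j) i hD.neg
  refine ⟨F, hF, fun hk => ?_⟩
  have hne := h6 J π e i hD hk
  have hfb : (fT : eis) ≠ 0 := by
    unfold fT
    have : (9 : eis) = 3 * 3 := by norm_num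
    rw [this]
    exact mul_ne_zero Pool.Agent.Y696.three_ne Pool.Agent.Y696.three_ne
  have : Fintype (eis ⧸ (sp fT : Ideal eis)) :=
    @Fintype.ofFinite _ (Pool.Agent.Y703.CT.fin_quot _ hfb)
  have hmain : ∀ (Γ : Type) [LinearOrderedCommGroupWithZero Γ] (v : Valuation ℂ Γ), v 3 < 1 →
        ∀ (L : PeriodPair) (Ω : ℂ), Cur L Ω →
          v ((starRingEnd ℂ) (F 1) / Ω) ^ 3 * v lam ^ 5 = v lam ^ (3 * Fintype.card J) := by
    intro Γ _ v hv L Ω hC
    obtain ⟨ρ, n, hn, hρ, hval⟩ := hval L Ω hC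
    have hz : Zt v (toC w) := zt_of_prim hv (k := 1) le_rfl (by
      rw [pow_one]
      exact Pool.Agent.Y715.T.Fin.prim_w)
    have hw : toC w = om := by
      have := Pool.Agent.Y703.CT.toC_eq' 0 1
      have e1 : (w : Ei) = ⟨0, 1⟩ := rfl
      rw [e1, this]
      push_cast
      ring
    have hzl : v (1 - toC w) = v lam := by
      rw [hw]
      exact Pool.Agent.Y703.CT.Ana.om_val hv
    have hκ : v (kT L Ω i) ^ 3 = v lam ^ 7 := (h4 h0 Γ v hv L Ω hC i).1
    have hl : v lam ≠ 0 := lam_ne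
    have hκ0 : kT L Ω i ≠ 0 := by
      intro h
      rw [h, map_zero, zero_pow (by norm_num)] at hκ
      exact pow_ne_zero _ hl hκ.symm
    have hz1 := hz.ne
    have hcg := h7 h1 h2 h3 h0 h4 h5 Γ v hv L Ω hC J π (fun j => -e j) i hD.neg Finset.univ
    have hone := hcg.eq_one hv hne
    have hc : v (∏ j, toC (π j)) = 1 := by
      rw [map_prod]
      refine Finset.prod_eq_one fun k _ => ?_
      apply v_unit
      have h := (Pool.Agent.Y703.CT.fy (v := v) hv hD).lin k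
      rw [Pool.Agent.Y715.T.Rs.eq0_coe] at h
      exact h.trans_lt hv
    have h54 : v 54 = v lam ^ 6 := by
      have : (54 : ℂ) = 2 * 27 := by norm_num
      rw [this, map_mul, v_two hv, one_mul, Pool.Agent.Y715.T.Three.v_27]
    have h6' : v 6 = v lam ^ 2 := by
      have : (6 : ℂ) = 2 * 3 := by norm_num
      rw [this, map_mul, v_two hv, one_mul, pow_two, sq_three]
    rw [Finset.card_univ] at hone
    have hS : v (SQT L Ω π (fun j => -e j) i Finset.univ) =
        v lam ^ 2 * v (kT L Ω i) * v lam ^ Fintype.card J := by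
      have hden : (6 * kT L Ω i * (1 - toC w) ^ Fintype.card J) ≠ 0 :=
        mul_ne_zero (mul_ne_zero (by norm_num) hκ0) (pow_ne_zero _ hz1)
      have e1 : SQT L Ω π (fun j => -e j) i Finset.univ =
          (6 * kT L Ω i * (1 - toC w) ^ Fintype.card J) *
          (SQT L Ω π (fun j => -e j) i Finset.univ /
            (6 * kT L Ω i * (1 - toC w) ^ Fintype.card J)) := by
        rw [mul_div_cancel₀ _ hden]
      rw [e1, map_mul, hone, mul_one]
      simp only [map_mul, map_pow, h6', hzl]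
    rw [hval]
    simp only [map_mul, map_inv₀, hc, z_pow hn hρ, h54, hS, inv_one, mul_one]
    exact gz_aux hl hκ _
  refine ⟨?_, hmain⟩
  intro hF0
  obtain ⟨B, hB⟩ := Pool.Agent.Y715.T.Fin.exists_over_three
  obtain ⟨θ, hθ, hL⟩ := Pool.Agent.Y696.exists_cur
  have h1 := hmain _ B.valuation hB _ _ hL
  rw [hF0, map_zero, zero_div, map_zero, zero_pow (by norm_num), zero_mul] at h1
  exact pow_ne_zero _ lam_ne h1.symm

end Pool.Agent.D0H43.L3
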