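import Pool.Agent.N883.FF.Defs

/-!
# Project L3 (helper43): the cubic twists by `3 ω ^ i ∏ π_j ^ (e j)`, definitions

`E_D : y² + D y = x³`, `D = 3 ω ^ i ∏ π_j ^ (e j)`, `π_j` primary primes (`Dt π e`).  The library
(projects CT and FF) has the `D` prime to three.
-/

set_option autoImplicit false

open scoped Classical

namespace Pool.Agent.D0H43.L3

open Pool.Agent.Y692.QS (Ei w nr toC)
open Pool.Agent.Y703.CT (Dt pD chD)
open Pool.Agent.Y715.T.Rec (cs)
open Pool.Agent.N883.FF (nq)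

/-- the exponent of the cubic symbol of `3` modulo `α`, for `α` prime to three: for
`α = u (1 + 3 (x + y ω))`, `u` a unit, `α ^ 6 = 1 + 18 (x + y ω)` modulo `27`, and the symbol is
`ω ^ y` -/
def yq (α : Ei) : ZMod 3 := ((-((α ^ 6).im / 9) : ℤ) : ZMod 3)

/-- the exponent of the cubic symbol of `3 ω ^ i` modulo `α`, for `α` prime to three -/
def tq (i : ZMod 3) (α : Ei) : ZMod 3 := i * nq α + yq α

/-- the kernel of the Laplacian with the additional index `3 ω ^ i` is trivial; `(v j)_j` are the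
values at the primes, `0` is the value at `3 ω ^ i` -/
def KerT {J : Type} [Fintype J] (π : J → Ei) (e : J → ZMod 3) (i : ZMod 3) : Prop :=
  ∀ v : J → ZMod 3, (∀ j, ∑ k, e k * cs (π j) (π k) * (v k - v j) = tq i (π j) * v j) →
    ∀ j, v j = 0

/-- `F` is the entire continuation of the `L`-series of the Hecke character
`(α) ↦ α ∏ (α / π_j)^(e_j) ω ^ (q α)`, `α` primary -/
def IsHLT {J : Type} [Fintype J] (π : J → Ei) (e : J → ZMod 3) (q : Ei → ZMod 3) (F : ℂ → ℂ) :
    Prop :=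
  Differentiable ℂ F ∧ ∀ s : ℂ, 3 / 2 < s.re →
    HasSum (fun α : {α : Ei // (3 : Ei) ∣ α - 1} =>
      toC α * (chD π e α * toC w ^ (q α).val) * ((nr α : ℤ) : ℂ) ^ (-s)) (F s)

/-- the element `3 ω ^ i ∏ π_j ^ (e j)` -/
def pT {J : Type} [Fintype J] (π : J → Ei) (e : J → ZMod 3) (i : ZMod 3) : Ei :=
  3 * (w ^ i.val * pD π e)

end Pool.Agent.D0H43.L3
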