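import Pool.Agent.Y715.T.Comb
import Pool.Agent.D0H43.L3.Defs

/-!
# Project L3: the Laplacian with the additional index `3 ω ^ i`
-/

set_option autoImplicit false
set_option linter.unusedVariables false

open scoped Classical

namespace Pool.Agent.D0H43.L3

open Pool.Agent.Y692.QS (Ei w nr toC)
open Pool.Agent.Y703.CT (Dt pD chD)
open Pool.Agent.Y715.T.Rec (cs)

/-- the matrix of the cubic symbols, with one more index for `3 ω ^ i` -/
noncomputable def aT {J : Type} (π : J → Ei) (e : J → ZMod 3) (i : ZMod 3) :
    Option J → Option J → ZMod 3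
  | some a, some b => -(e b * cs (π b) (π a))
  | some a, none => tq i (π a)
  | none, some b => e b * tq i (π b)
  | none, none => 0

/-- the root -/
def bT {J : Type} : Option J → ZMod 3
  | some _ => 0
  | none => 1

/-- the reduced determinant of the Laplacian of `T` with the additional index -/
noncomputable def DT {J : Type} [Fintype J] (π : J → Ei) (e : J → ZMod 3) (i : ZMod 3)
    (T : Finset J) : ZMod 3 :=
  Pool.Agent.Y715.T.Comb.D (aT π e i) bT (insert none (T.image some))

/-- L3-DNE: the combinatorial part. -/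
def S_DNE : Prop := ∀ (J : Type) [Fintype J] (π : J → Ei) (e : J → ZMod 3) (i : ZMod 3),
  Dt π e → KerT π e i → DT π (fun k => -e k) i Finset.univ ≠ 0

/-- L3-DRE: the recursion. -/
def S_DRE : Prop := ∀ (J : Type) [Fintype J] (π : J → Ei) (e : J → ZMod 3) (i : ZMod 3),
  DT π e i ∅ = 1 ∧ ∀ S : Finset J, S.Nonempty →
    ∑ T ∈ S.powerset, (-1) ^ T.card * (DT π e i T *
      ∏ k ∈ S \ T, (tq i (π k) + ∑ l ∈ T, -(e l * cs (π l) (π k)))) = 0

end Pool.Agent.D0H43.L3
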