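import Pool.Agent.N883.FF.StmX
import Pool.Agent.D0H43.L3.Defs

/-!
# Project L3: the characters, the limits and the valuations
-/

set_option autoImplicit false
set_option linter.unusedVariables false

open Filter
open scoped Classical Topology PeriodPair

namespace Pool.Agent.D0H43.L3

open Pool.Agent.Y692.QS (Ei w nr toC)
open Pool.Agent.Y703.CT.Ana (ej)
open Pool.Agent.W192.HK (sp)
open Pool.Agent.TH936.CM Pool.Agent.TH936.PU
open Pool.Agent.Y715.Dist Pool.Agent.Y715.Idn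
open Pool.Agent.Y696 (Cur eis omr)
open Pool.Agent.Y715.T.Rs (eq0)
open Pool.Agent.Y715.T.Lat (la)
open Pool.Agent.Y715.T.Three (lam)
open Pool.Agent.N883.FF (gB)

/-- the symbol of `3 ω ^ i` as a function on the subring `eis` of `ℂ` -/
noncomputable def cT (i : ZMod 3) (x : eis) : ℂ := toC w ^ (tq i (eq0.symm x)).val

/-- the modulus `9` -/
noncomputable def fT : eis := 9

/-- the three odd characters modulo `3`, multiplied by the symbol of `3 ω ^ i` -/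
noncomputable def eT (i : ZMod 3) (j : Fin 3) (x : eis) : ℂ := ej j x * cT i x

/-- L3-CHI. -/
def S_CHI : Prop := ∀ i : ZMod 3,
  (∀ x y : eis, x - y ∈ (sp fT : Ideal eis) → cT i x = cT i y) ∧
  (∀ x y : eis, IsCoprime x 3 → IsCoprime y 3 → cT i (x * y) = cT i x * cT i y) ∧
  (∀ u : eis, IsUnit u → cT i u = 1) ∧
  (∀ x : eis, cT i x ^ 3 = 1) ∧
  (∀ j : Fin 3, Eo fT (eT i j)) ∧
  (∀ a k : ℤ, cT i (1 + 3 * ((a : eis) + k * la)) =
    toC w ^ (-(i * (a : ZMod 3)) - (k : ZMod 3)).val)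

/-- the constant, a square root of `-3` -/
noncomputable def dT (L : PeriodPair) (Ω : ℂ) : ℂ := -℘'[L] (Ω / 3)

/-- the function -/
noncomputable def gT (L : PeriodPair) (Ω : ℂ) (i : ZMod 3) (z : ℂ) : ℂ :=
  gB L (dT L Ω) z + toC w ^ (-i).val * gB L (dT L Ω) (z + Ω / 3) +
    toC w ^ i.val * gB L (dT L Ω) (z - Ω / 3)

/-- the value at `Ω / 9` -/
noncomputable def kT (L : PeriodPair) (Ω : ℂ) (i : ZMod 3) : ℂ := gT L Ω i (Ω / 9)

/-- the limits -/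
noncomputable def CT (L : PeriodPair) (Ω : ℂ) (i : ZMod 3) (j : Fin 3) : ℂ :=
  if j = 0 then 6 * kT L Ω i else 0

/-- L3-GF: the limits of the regularized sums. -/
def S_GF : Prop := S_CHI → ∀ (L : PeriodPair) (Ω : ℂ), Cur L Ω → ∀ i : ZMod 3,
  ∀ [Fintype (eis ⧸ (sp fT : Ideal eis))],
    (∀ j : Fin 3, Tendsto (fun δ : ℝ => ∑ y : eis ⧸ (sp fT : Ideal eis),
      eT i j y.out * EE eis Ω δ (Ω * y.out / fT)) (𝓝[>] 0) (𝓝 (CT L Ω i j))) ∧
    (∀ c x : eis, c ≠ 0 → IsCoprime 3 c → x ∉ (sp c : Ideal eis) →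
      ∑ j : Fin 3, HH L Ω fT (eT i j) (Ω * x / c) =
        3 * (gT L Ω i (Ω / 9 + Ω * x / c) + gT L Ω i (Ω / 9 - Ω * x / c) - 2 * kT L Ω i))

/-- L3-CUBE: the cube of the function. -/
def S_CUBE : Prop := ∀ (L : PeriodPair) (Ω : ℂ), Cur L Ω → ∀ i : ZMod 3,
  ∃ θ : ℂ, θ ^ 3 = 1 ∧ ∀ z : ℂ, lam * (3 * z) ∉ L.lattice →
    2 * gT L Ω i z ^ 3 = -27 * (℘'[L] (3 * z) + 2 * dT L Ω * θ * ℘[L] (3 * z) + dT L Ω)

/-- L3-VAL: the valuations at three. -/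
def S_VAL : Prop := S_CUBE → ∀ (Γ : Type) [LinearOrderedCommGroupWithZero Γ] (v : Valuation ℂ Γ),
  v 3 < 1 → ∀ (L : PeriodPair) (Ω : ℂ), Cur L Ω → ∀ i : ZMod 3,
    v (kT L Ω i) ^ 3 = v lam ^ 7 ∧
    ∀ c x : eis, c ≠ 0 → IsCoprime 3 c → (sp c : Ideal eis) ≠ ⊤ → IsCoprime x c →
      v (gT L Ω i (Ω / 9 + Ω * x / c) + kT L Ω i) < v (kT L Ω i)

end Pool.Agent.D0H43.L3
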