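import Pool.Agent.Y715.CT.AN1b
import Pool.Agent.N883.FF.StmD
import Pool.Agent.D0H43.L3.StmE
import Pool.Agent.D0H43.L3.StmX

/-!
# Project L3: statements of the analytic part
-/

set_option autoImplicit false
set_option linter.unusedVariables false

open Filter
open scoped Classical Topology PeriodPair

namespace Pool.Agent.D0H43.L3

open Pool.Agent.Y692.QS (Ei w nr toC)
open Pool.Agent.Y703.CT (Dt pD chD Xc)
open Pool.Agent.Y715.CT.Hec (XX cP)
open Pool.Agent.W192.HK (sp HC)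
open Pool.Agent.TH936.CM Pool.Agent.TH936.PU
open Pool.Agent.Y715.Dist Pool.Agent.Y715.Idn
open Pool.Agent.Y696 (Cur eis om omr)
open Pool.Agent.Y715.T.Rs (eq0)
open Pool.Agent.Y715.T.Three (lam)
open Pool.Agent.Y715.T.Cg (Cg)

/-- the sums for the three characters together, times the symbol of `3 ω ^ i` -/
noncomputable def SQT {J : Type} [Fintype (eis ⧸ (sp fT : Ideal eis))] (L : PeriodPair) (Ω : ℂ)
    (π : J → Ei) (e : J → ZMod 3) (i : ZMod 3) (T : Finset J) : ℂ :=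
  cT i (cc (fun k => eq0 (π k)) T) *
    ∑ j : Fin 3, SP L Ω fT (eT i j) (CT L Ω i j) (fun k => eq0 (π k)) (Xc π e) T

/-- L3-REC: the recursion modulo the maximal ideal. -/
def S_RECT : Prop := S_CHI → Pool.Agent.N883.FF.S_DIST → S_GF → S_CUBE → S_VAL → S_DRE →
  ∀ (Γ : Type) [LinearOrderedCommGroupWithZero Γ] (v : Valuation ℂ Γ), v 3 < 1 →
  ∀ (L : PeriodPair) (Ω : ℂ), Cur L Ω →
  ∀ (J : Type) [Fintype J] (π : J → Ei) (e : J → ZMod 3) (i : ZMod 3), Dt π e →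
  ∀ [Fintype (eis ⧸ (sp fT : Ideal eis))] (T : Finset J),
    Cg v (SQT L Ω π e i T / (6 * kT L Ω i * (1 - toC w) ^ T.card)) (DT π e i T)

/-- the function on the elements -/
noncomputable def ggT {J : Type} [Fintype J] (π : J → Ei) (e : J → ZMod 3) (i : ZMod 3)
    (j : Fin 3) (α : eis) : ℂ :=
  (α : ℂ) * (starRingEnd ℂ) (eT i j α * XX π e α)

/-- the Hecke character -/
noncomputable def thT {J : Type} [Fintype J] (π : J → Ei) (e : J → ZMod 3) (i : ZMod 3)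
    (j : Fin 3) (I : Ideal eis) : ℂ :=
  ggT π e i j (Submodule.IsPrincipal.generator I)

/-- L3-HEC: the Hecke character. -/
def S_HEC : Prop := S_CHI → ∀ (J : Type) [Fintype J] (π : J → Ei) (e : J → ZMod 3) (i : ZMod 3),
  Dt π e → ∀ j : Fin 3, om ^ (2 * (j : ℕ)) * XX π e omr = 1 →
    (∀ α : eis, thT π e i j (sp α) = ggT π e i j α) ∧
    (∀ α : eis, ggT π e i j α = 0 ↔ (α = 0 ∨ ¬ IsCoprime α (fT * cP π))) ∧
    HC 1 (sp (fT * cP π)) (thT π e i j)

/-- L3-ANV: the entire continuation and the central value as a sum. -/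
def S_ANV : Prop := S_CHI → S_HEC → ∀ (J : Type) [Fintype J] [Nonempty J] (π : J → Ei)
  (e : J → ZMod 3) (i : ZMod 3), Dt π e → ∃ F : ℂ → ℂ, IsHLT π e (fun α => -tq i α) F ∧
    ∀ [Fintype (eis ⧸ (sp fT : Ideal eis))] (L : PeriodPair) (Ω : ℂ), Cur L Ω →
      ∃ (ρ : ℂ) (n : ℕ), 0 < n ∧ ρ ^ n = 1 ∧
        (starRingEnd ℂ) (F 1) / Ω = (54 : ℂ)⁻¹ * (∏ j, toC (π j))⁻¹ * ρ *
          SQT L Ω π e i Finset.univ

/-- L3-ANT: the final statement of the analytic part; the valuation is as small as possible. -/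
def S_ANT : Prop := ∀ (J : Type) [Fintype J] [Nonempty J] (π : J → Ei) (e : J → ZMod 3)
  (i : ZMod 3), Dt π e → ∃ F : ℂ → ℂ, IsHLT π (fun k => -e k) (fun α => -tq i α) F ∧
    (KerT π e i → F 1 ≠ 0 ∧
      ∀ (Γ : Type) [LinearOrderedCommGroupWithZero Γ] (v : Valuation ℂ Γ), v 3 < 1 →
        ∀ (L : PeriodPair) (Ω : ℂ), Cur L Ω →
          v ((starRingEnd ℂ) (F 1) / Ω) ^ 3 * v lam ^ 5 = v lam ^ (3 * Fintype.card J))

end Pool.Agent.D0H43.L3
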