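import Pool.Agent.D0H43.L3.StmS
import Pool.Agent.Y703.CT.StmF

/-!
# Project L3: statements of the converse of the descent
-/

set_option autoImplicit false
set_option linter.unusedVariables false

open scoped Classical

namespace Pool.Agent.D0H43.L3

open WeierstrassCurve
open Pool.Agent.Y692.QS (Ei w nr toC)
open Pool.Agent.Y715.T.Rec (cs)
open Pool.Agent.Y715.T.Gi Pool.Agent.Y715.T.Nr Pool.Agent.Y715.T.Df Pool.Agent.Y715.T.Ell
open Pool.Agent.Y703.CT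

/-- L3-CUB3: local solutions at three. (`B = 1 + 3 (x + y ω)`, `tq i B = 0` says that
`x + y ω` is a multiple of `ω ^ i` modulo `√-3` times ... : then `B = 1 + 3 c ω ^ i` modulo `9`,
`c ∈ {0, 1, -1}`, and `t = 1`, `r' = c` works up to the cube of an element `1 + 9 z`.) -/
def S_CUB3T : Prop := ∀ (_ : Fact (Nat.Prime 3)) (I : PadicAlgCl 3) (hI : I ^ 2 + I + 1 = 0)
  (i : ZMod 3) (B r : Ei), (3 : Ei) ∣ B - 1 → tq i B = 0 →
  ∃ s t r', Sol hI B (3 * (w ^ i.val * (1 + 3 * r))) s t r'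

/-- L3-RAMC: the primes dividing `D`. -/
def S_RAMCT : Prop := ∀ (J : Type) [Fintype J] (π : J → Ei) (e : J → ZMod 3) (i : ZMod 3),
  Dt π e → ∀ (i₀ : QB) (hi : i₀ ^ 2 + i₀ + 1 = 0) (u : QB) (a : GK i₀ → ZMod 3),
  Tw hi (pT π e i) u a →
  ∀ (v : J → ZMod 3) (h : GK i₀ → ZMod 3), Kc hi (∏ j, π j ^ (e j * v j).val) h →
  ∀ j : J, ∑ k, e k * cs (π j) (π k) * (v k - v j) = tq i (π j) * v j →
  ∀ (p : ℕ) [Fact p.Prime] (ι : QB →ₐ[ℚ] PadicAlgCl p), ‖ι (ev i₀ hi (π j))‖ < 1 →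
    ∃ R, St1 hi ι a h R

/-- L3-SELC: a nontrivial kernel gives a nontrivial Selmer class. -/
def S_SELCT : Prop := S_FF → S_CUB → S_CUB3T → S_PT → S_RAMCT →
  ∀ (J : Type) [Fintype J] (π : J → Ei) (e : J → ZMod 3) (i : ZMod 3), Dt π e →
  ¬ KerT π e i →
  ∀ (i₀ : QB) (hi : i₀ ^ 2 + i₀ + 1 = 0) (u : QB) (a : GK i₀ → ZMod 3), Tw hi (pT π e i) u a →
  ¬ Sel1 hi a

end Pool.Agent.D0H43.L3
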