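import Pool.Agent.N883.FF.StmS
import Pool.Agent.D0H43.L3.Defs

/-!
# Project L3: statements of the descent
-/

set_option autoImplicit false
set_option linter.unusedVariables false

open scoped Classical

namespace Pool.Agent.D0H43.L3

open WeierstrassCurve
open Pool.Agent.Y692.QS (Ei w nr toC)
open Pool.Agent.Y715.T.Gi Pool.Agent.Y715.T.Nr Pool.Agent.Y715.T.Df Pool.Agent.Y715.T.Ell
open Pool.Agent.Y703.CT
open Pool.Agent.N883.FF (S_RAMG S_UNRG)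

/-- L3-LOC3: the local condition at the prime above three, for `D = 3 ω ^ k (1 + 3 r)`. -/
def S_LOC3T : Prop := ∀ (i₀ : QB) (hi : i₀ ^ 2 + i₀ + 1 = 0) (k : ℕ) (r : Ei)
  (u : QB) (a : GK i₀ → ZMod 3), Tw hi (3 * (w ^ k * (1 + 3 * r))) u a →
  ∀ (h : GK i₀ → ZMod 3) (v q : Ei) (g : ℕ), IsUnit v → Kc hi (v * lam ^ g * (1 + 3 * q)) h →
  ∀ (_ : Fact (Nat.Prime 3)) (ι : QB →ₐ[ℚ] PadicAlgCl 3) (R : Pt (PadicAlgCl 3)),
    St1 hi ι a h R → ∃ n : ℕ, 3 ∣ g + 2 * n ∧ (v * w ^ (k * n) = 1 ∨ v * w ^ (k * n) = -1)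

/-- L3-SEL: the Selmer group. -/
def S_SELT : Prop := S_LOC3T → S_RAMG → S_UNRG →
  ∀ (J : Type) [Fintype J] (π : J → Ei) (e : J → ZMod 3) (i : ZMod 3), Dt π e →
  KerT π e i → ∀ (i₀ : QB) (hi : i₀ ^ 2 + i₀ + 1 = 0) (u : QB) (a : GK i₀ → ZMod 3),
    Tw hi (pT π e i) u a → Sel1 hi a

end Pool.Agent.D0H43.L3
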